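import Pool.Agent.H223.DM.Psi

/-!
# The convex body `K_θ`
-/

set_option autoImplicit false

namespace Pool.Agent.H223.DM

open MeasureTheory Metric Set Filter Topology
open scoped ENNReal InnerProductSpace

/-- `|x|^2` for the first four coordinates. -/
noncomputable def sc (P : E 6) : ℝ := dot (xc P) (xc P)

theorem sc_nonneg (P : E 6) : 0 ≤ sc P := dot_self_nonneg _

/-- `G(x, z, y) = |x|^4 + z |x|^2 + z^2 - z - R(z, y)`. -/
noncomputable def G (θ : ℝ) (P : E 6) : ℝ :=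
  sc P ^ 2 + zc P * sc P + zc P ^ 2 - zc P - R θ (zc P) (yc P)

/-- The domain `{|y| ≤ θ z}`. -/
def Dom (θ : ℝ) : Set (E 6) := {P | 0 ≤ zc P ∧ |yc P| ≤ θ * zc P}

/-- The body `K_θ`. -/
noncomputable def K (θ : ℝ) : Set (E 6) := {P | P ∈ Dom θ ∧ G θ P ≤ 0}

/-- The scalar `τ = y / (θ z)`. -/
noncomputable def tc (θ : ℝ) (P : E 6) : ℝ := yc P / (θ * zc P)

/-- The gradient of `G`. -/
noncomputable def N (θ : ℝ) (P : E 6) : E 6 :=
  T (Sum.elim (fun i => 2 * (2 * sc P + zc P) * xc P i)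
    ![sc P + 2 * zc P - 1 - θ * (kap (tc θ P) ^ 4 + (8 / 5) * tc θ P ^ 2 / kap (tc θ P)),
      (8 / 5) * tc θ P / kap (tc θ P)])

theorem xc_N (θ : ℝ) (P : E 6) : xc (N θ P) = (2 * (2 * sc P + zc P)) • xc P := by
  unfold N
  rw [xc_T]
  rfl

theorem zc_N (θ : ℝ) (P : E 6) : zc (N θ P) =
    sc P + 2 * zc P - 1 - θ * (kap (tc θ P) ^ 4 + (8 / 5) * tc θ P ^ 2 / kap (tc θ P)) := by
  unfold N
  rw [zc_T]
  rfl

theorem yc_N (θ : ℝ) (P : E 6) : yc (N θ P) = (8 / 5) * tc θ P / kap (tc θ P) := by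
  unfold N
  rw [yc_T]
  rfl

theorem sc_eq (P Q : E 6) :
    sc Q = sc P + 2 * dot (xc P) (xc Q - xc P) + dot (xc Q - xc P) (xc Q - xc P) := by
  unfold sc
  simp only [dot_sub_left, dot_sub_right]
  rw [dot_comm (xc Q) (xc P)]
  ring

/-- The sum-of-squares identity for the polynomial part of `G`. -/
theorem gradQ (P Q : E 6) :
    sc Q ^ 2 + zc Q * sc Q + zc Q ^ 2 - zc Q = (sc P ^ 2 + zc P * sc P + zc P ^ 2 - zc P)
      + (2 * (2 * sc P + zc P)) * dot (xc P) (xc Q - xc P) + (sc P + 2 * zc P - 1) * (zc Q - zc P)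
      + ((2 * dot (xc P) (xc Q - xc P) + dot (xc Q - xc P) (xc Q - xc P)) ^ 2
        + (2 * dot (xc P) (xc Q - xc P) + dot (xc Q - xc P) (xc Q - xc P)) * (zc Q - zc P)
        + (zc Q - zc P) ^ 2
        + (2 * sc P + zc P) * dot (xc Q - xc P) (xc Q - xc P)) := by
  rw [sc_eq P Q]
  ring

theorem sos_nonneg (m w : ℝ) : 0 ≤ m ^ 2 + m * w + w ^ 2 := by nlinarith [sq_nonneg (m + w), sq_nonneg m, sq_nonneg w]

theorem zero_mem_K (θ : ℝ) : (0 : E 6) ∈ K θ := by
  refine ⟨⟨by simp, by simp⟩, ?_⟩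
  simp [G, sc, R]

/-- Convexity. -/
theorem convex_K {θ : ℝ} (hθ : 0 < θ) : Convex ℝ (K θ) := by
  intro P hP Q hQ a b ha hb hab
  obtain ⟨⟨hP1, hP2⟩, hP3⟩ := hP
  obtain ⟨⟨hQ1, hQ2⟩, hQ3⟩ := hQ
  set W : E 6 := a • P + b • Q with hW
  have hz : zc W = a * zc P + b * zc Q := by simp [hW]
  have hy : yc W = a * yc P + b * yc Q := by simp [hW]
  have hx : xc W = a • xc P + b • xc Q := by simp [hW]
  have hz0 : 0 ≤ zc W := by rw [hz]; positivity
  refine ⟨⟨hz0, ?_⟩, ?_⟩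
  · rw [hz, hy]
    calc |a * yc P + b * yc Q| ≤ |a * yc P| + |b * yc Q| := abs_add_le _ _
      _ = a * |yc P| + b * |yc Q| := by rw [abs_mul, abs_mul, abs_of_nonneg ha, abs_of_nonneg hb]
      _ ≤ a * (θ * zc P) + b * (θ * zc Q) := by gcongr
      _ = _ := by ring
  · have hR : a * R θ (zc P) (yc P) + b * R θ (zc Q) (yc Q) ≤ R θ (zc W) (yc W) := by
      rw [← R_smul ha, ← R_smul hb, hz, hy]
      apply R_superadd hθ (by positivity) (by positivity)
      · rw [abs_mul, abs_of_nonneg ha]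
        calc a * |yc P| ≤ a * (θ * zc P) := by gcongr
          _ = _ := by ring
      · rw [abs_mul, abs_of_nonneg hb]
        calc b * |yc Q| ≤ b * (θ * zc Q) := by gcongr
          _ = _ := by ring
    have g1 := gradQ W P
    have g2 := gradQ W Q
    have s1 := sos_nonneg (2 * dot (xc W) (xc P - xc W) + dot (xc P - xc W) (xc P - xc W))
      (zc P - zc W)
    have s2 := sos_nonneg (2 * dot (xc W) (xc Q - xc W) + dot (xc Q - xc W) (xc Q - xc W))
      (zc Q - zc W)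
    have t1 : 0 ≤ (2 * sc W + zc W) * dot (xc P - xc W) (xc P - xc W) :=
      mul_nonneg (by have := sc_nonneg W; positivity) (dot_self_nonneg _)
    have t2 : 0 ≤ (2 * sc W + zc W) * dot (xc Q - xc W) (xc Q - xc W) :=
      mul_nonneg (by have := sc_nonneg W; positivity) (dot_self_nonneg _)
    have l1 : a * dot (xc W) (xc P - xc W) + b * dot (xc W) (xc Q - xc W) = 0 := by
      rw [← dot_smul_right, ← dot_smul_right, ← dot_add_right]
      have : a • (xc P - xc W) + b • (xc Q - xc W) = 0 := by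
        rw [smul_sub, smul_sub]
        have e : a • xc P - a • xc W + (b • xc Q - b • xc W) = (a • xc P + b • xc Q) -
          (a + b) • xc W := by
          rw [add_smul]; abel
        rw [e, hab, one_smul, hx, sub_self]
      rw [this, dot_zero_right]
    have l2 : a * (zc P - zc W) + b * (zc Q - zc W) = 0 := by
      have : a * (zc P - zc W) + b * (zc Q - zc W) = (a * zc P + b * zc Q) - (a + b) * zc W := by
        ring
      rw [this, hab, hz]; ring
    unfold G at hP3 hQ3 ⊢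
    have q1 : a * (sc P ^ 2 + zc P * sc P + zc P ^ 2 - zc P) ≤ a * R θ (zc P) (yc P) :=
      mul_le_mul_of_nonneg_left (by linarith) ha
    have q2 : b * (sc Q ^ 2 + zc Q * sc Q + zc Q ^ 2 - zc Q) ≤ b * R θ (zc Q) (yc Q) :=
      mul_le_mul_of_nonneg_left (by linarith) hb
    have r1 : a * ((sc W ^ 2 + zc W * sc W + zc W ^ 2 - zc W)
      + (2 * (2 * sc W + zc W)) * dot (xc W) (xc P - xc W)
      + (sc W + 2 * zc W - 1) * (zc P - zc W)) ≤
        a * (sc P ^ 2 + zc P * sc P + zc P ^ 2 - zc P) :=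
      mul_le_mul_of_nonneg_left (by linarith) ha
    have r2 : b * ((sc W ^ 2 + zc W * sc W + zc W ^ 2 - zc W)
      + (2 * (2 * sc W + zc W)) * dot (xc W) (xc Q - xc W)
      + (sc W + 2 * zc W - 1) * (zc Q - zc W)) ≤
        b * (sc Q ^ 2 + zc Q * sc Q + zc Q ^ 2 - zc Q) :=
      mul_le_mul_of_nonneg_left (by linarith) hb
    have e1 : a * ((sc W ^ 2 + zc W * sc W + zc W ^ 2 - zc W)
      + (2 * (2 * sc W + zc W)) * dot (xc W) (xc P - xc W)
      + (sc W + 2 * zc W - 1) * (zc P - zc W)) +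
      b * ((sc W ^ 2 + zc W * sc W + zc W ^ 2 - zc W)
      + (2 * (2 * sc W + zc W)) * dot (xc W) (xc Q - xc W)
      + (sc W + 2 * zc W - 1) * (zc Q - zc W)) =
      (a + b) * (sc W ^ 2 + zc W * sc W + zc W ^ 2 - zc W)
      + (2 * (2 * sc W + zc W)) * (a * dot (xc W) (xc P - xc W) + b * dot (xc W) (xc Q - xc W))
      + (sc W + 2 * zc W - 1) * (a * (zc P - zc W) + b * (zc Q - zc W)) := by ring
    rw [hab, l1, l2] at e1
    linarith

/-- The gradient inequality. -/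
theorem grad_ineq {θ : ℝ} (hθ : 0 < θ) {P Q : E 6} (hz : 0 < zc P) (hy : |yc P| < θ * zc P)
    (hQ : Q ∈ Dom θ) :
    G θ P + ⟪N θ P, Q - P⟫_ℝ
      + ((2 * dot (xc P) (xc Q - xc P) + dot (xc Q - xc P) (xc Q - xc P)) ^ 2
        + (2 * dot (xc P) (xc Q - xc P) + dot (xc Q - xc P) (xc Q - xc P)) * (zc Q - zc P)
        + (zc Q - zc P) ^ 2
        + (2 * sc P + zc P) * dot (xc Q - xc P) (xc Q - xc P))
      + (4 / 5) / kap (tc θ P) * (θ * zc Q) * (tc θ Q - tc θ P) ^ 2 ≤ G θ Q := by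
  obtain ⟨hQ1, hQ2⟩ := hQ
  have h1 := gradQ P Q
  have h2 := R_tangent hθ hz hy hQ1 hQ2
  have h3 : R θ (zc P) (yc P) = θ * (kap (tc θ P) ^ 4 + (8 / 5) * (tc θ P) ^ 2 / kap (tc θ P)) * zc P
      - (8 / 5) * (tc θ P) / kap (tc θ P) * yc P := by
    have hzp : 0 < θ * zc P := mul_pos hθ hz
    have hk := (kap_pos (abs_div_lt hzp hy)).ne'
    unfold R
    have e : yc P = θ * zc P * tc θ P := by unfold tc; field_simp
    rw [show yc P / (θ * zc P) = tc θ P from rfl] at *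
    conv_rhs => rw [e]
    field_simp
    ring
  rw [inner_eq, xc_N, zc_N, yc_N, dot_smul_left]
  simp only [xc_sub, zc_sub, yc_sub]
  unfold G
  rw [h1]
  change R θ (zc Q) (yc Q) + (4 / 5) / kap (tc θ P) * (θ * zc Q) * (tc θ Q - tc θ P) ^ 2 ≤
      θ * (kap (tc θ P) ^ 4 + (8 / 5) * (tc θ P) ^ 2 / kap (tc θ P)) * zc Q -
        (8 / 5) * (tc θ P) / kap (tc θ P) * yc Q at h2
  linarith

/-- The gradient inequality is strict off `P`. -/
theorem grad_strict {θ : ℝ} (hθ : 0 < θ) {P Q : E 6} (hz : 0 < zc P) (hy : |yc P| < θ * zc P)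
    (hQ : Q ∈ Dom θ) (hne : Q ≠ P) : G θ P + ⟪N θ P, Q - P⟫_ℝ < G θ Q := by
  have h := grad_ineq hθ hz hy hQ
  have hzp : 0 < θ * zc P := mul_pos hθ hz
  have hk := kap_pos (abs_div_lt hzp hy)
  have s1 := sos_nonneg (2 * dot (xc P) (xc Q - xc P) + dot (xc Q - xc P) (xc Q - xc P))
      (zc Q - zc P)
  have t1 : 0 ≤ (2 * sc P + zc P) * dot (xc Q - xc P) (xc Q - xc P) :=
      mul_nonneg (by have := sc_nonneg P; positivity) (dot_self_nonneg _)
  have u1 : 0 ≤ (4 / 5) / kap (tc θ P) * (θ * zc Q) * (tc θ Q - tc θ P) ^ 2 := by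
    have := hQ.1
    have hk' : 0 < kap (tc θ P) := hk
    positivity
  by_contra hcon
  push Not at hcon
  have z1 : (2 * sc P + zc P) * dot (xc Q - xc P) (xc Q - xc P) = 0 := by linarith
  have z2 : (2 * dot (xc P) (xc Q - xc P) + dot (xc Q - xc P) (xc Q - xc P)) ^ 2
        + (2 * dot (xc P) (xc Q - xc P) + dot (xc Q - xc P) (xc Q - xc P)) * (zc Q - zc P)
        + (zc Q - zc P) ^ 2 = 0 := by linarith
  have z3 : (4 / 5) / kap (tc θ P) * (θ * zc Q) * (tc θ Q - tc θ P) ^ 2 = 0 := by linarith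
  have hsc := sc_nonneg P
  have a1 : dot (xc Q - xc P) (xc Q - xc P) = 0 := by
    rcases mul_eq_zero.1 z1 with h | h
    · linarith
    · exact h
  have a2 : xc Q = xc P := sub_eq_zero.1 (dot_self_eq_zero.1 a1)
  have a3 : zc Q = zc P := by
    rw [a2] at z2
    simp only [sub_self, dot_zero_right, mul_zero, add_zero, zero_pow, zero_mul, ne_eq,
      OfNat.ofNat_ne_zero, not_false_eq_true, zero_add] at z2
    have := pow_eq_zero_iff (two_ne_zero) |>.1 z2
    linarith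
  have a4 : tc θ Q = tc θ P := by
    rw [a3] at z3
    have hk' : 0 < kap (tc θ P) := hk
    have : (4 / 5) / kap (tc θ P) * (θ * zc P) ≠ 0 := by positivity
    have := (mul_eq_zero.1 z3).resolve_left this
    have := pow_eq_zero_iff (two_ne_zero) |>.1 this
    linarith
  have a5 : yc Q = yc P := by
    unfold tc at a4
    rw [a3] at a4
    have := hzp.ne'
    field_simp at a4
    exact a4
  exact hne (ext_coord a2 a3 a5)

theorem continuous_sc : Continuous sc := continuous_dot continuous_xc continuous_xc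

/-- `R` is continuous on the domain. -/
theorem continuousOn_R {θ : ℝ} (hθ : 0 < θ) :
    ContinuousOn (fun P : E 6 => R θ (zc P) (yc P)) (Dom θ) := by
  intro P hP
  rcases hP.1.eq_or_lt with h | h
  · have hy : yc P = 0 := by
      have := hP.2
      rw [← h, mul_zero] at this
      exact abs_nonpos_iff.1 this
    have h0 : R θ (zc P) (yc P) = 0 := by rw [← h]; simp [R]
    change Tendsto (fun P : E 6 => R θ (zc P) (yc P)) (𝓝[Dom θ] P) (𝓝 (R θ (zc P) (yc P)))
    rw [h0]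
    have hlim : Tendsto (fun Q : E 6 => θ * zc Q) (𝓝[Dom θ] P) (𝓝 0) := by
      have : Tendsto (fun Q : E 6 => θ * zc Q) (𝓝 P) (𝓝 (θ * zc P)) :=
        (continuous_const.mul continuous_zc).tendsto P
      rw [← h, mul_zero] at this
      exact this.mono_left nhdsWithin_le_nhds
    refine squeeze_zero' ?_ ?_ hlim
    · filter_upwards [self_mem_nhdsWithin] with Q hQ
      exact R_nonneg hθ.le hQ.1
    · filter_upwards [self_mem_nhdsWithin] with Q hQ
      exact R_le hθ hQ.1 hQ.2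
  · apply ContinuousAt.continuousWithinAt
    unfold R
    apply ContinuousAt.mul
    · exact (continuous_const.mul continuous_zc).continuousAt
    · apply ContinuousAt.pow
      apply continuous_kap.continuousAt.comp
      apply ContinuousAt.div continuous_yc.continuousAt
        (continuous_const.mul continuous_zc).continuousAt
      exact (mul_pos hθ h).ne'

theorem isClosed_Dom (θ : ℝ) : IsClosed (Dom θ) :=
  (isClosed_le continuous_const continuous_zc).inter
    (isClosed_le continuous_yc.abs (continuous_const.mul continuous_zc))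

theorem isClosed_K {θ : ℝ} (hθ : 0 < θ) : IsClosed (K θ) := by
  have h1 : ContinuousOn (G θ) (Dom θ) := by
    unfold G
    apply ContinuousOn.sub _ (continuousOn_R hθ)
    have := continuous_sc
    have := continuous_zc
    apply Continuous.continuousOn
    fun_prop
  have h2 := h1.preimage_isClosed_of_isClosed (isClosed_Dom θ) (isClosed_Iic (a := (0 : ℝ)))
  exact h2

theorem zc_le {θ : ℝ} (hθ : 0 < θ) {P : E 6} (hP : P ∈ K θ) : zc P ≤ 1 + θ := by
  obtain ⟨⟨h1, h2⟩, h3⟩ := hP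
  have h4 := R_le hθ h1 h2
  have h5 := sc_nonneg P
  unfold G at h3
  rcases h1.eq_or_lt with h | h
  · rw [← h]; positivity
  · nlinarith [mul_nonneg h1 h5, sq_nonneg (sc P)]

theorem sc_sq_le {θ : ℝ} (hθ : 0 < θ) {P : E 6} (hP : P ∈ K θ) : sc P ^ 2 ≤ (1 + θ) * zc P := by
  obtain ⟨⟨h1, h2⟩, h3⟩ := hP
  have h4 := R_le hθ h1 h2
  have h5 := sc_nonneg P
  unfold G at h3
  nlinarith [mul_nonneg h1 h5, sq_nonneg (zc P)]

theorem isCompact_K {θ : ℝ} (hθ : 0 < θ) : IsCompact (K θ) := by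
  apply Metric.isCompact_of_isClosed_isBounded (isClosed_K hθ)
  rw [isBounded_iff_forall_norm_le]
  refine ⟨Real.sqrt ((1 + θ) + (1 + θ) ^ 2 + (θ * (1 + θ)) ^ 2), fun P hP => ?_⟩
  apply Real.le_sqrt_of_sq_le
  rw [← real_inner_self_eq_norm_sq, inner_eq]
  have h1 := zc_le hθ hP
  have h2 := sc_sq_le hθ hP
  have h3 := hP.1.1
  have h4 := hP.1.2
  have h5 : sc P ≤ 1 + θ := by
    have : sc P ^ 2 ≤ (1 + θ) ^ 2 := by nlinarith
    exact (pow_le_pow_iff_left₀ (sc_nonneg P) (by positivity) two_ne_zero).1 this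
  have h6 : yc P * yc P ≤ (θ * (1 + θ)) ^ 2 := by
    have : |yc P| ≤ θ * (1 + θ) := h4.trans (by gcongr)
    calc yc P * yc P = |yc P| ^ 2 := by rw [sq_abs]; ring
      _ ≤ _ := by gcongr
  have h7 : zc P * zc P ≤ (1 + θ) ^ 2 := by nlinarith
  change sc P + zc P * zc P + yc P * yc P ≤ _
  linarith

/-- strict interior points -/
theorem mem_nhds_K {θ : ℝ} (hθ : 0 < θ) {P : E 6} (hz : 0 < zc P) (hy : |yc P| < θ * zc P)
    (hG : G θ P < 0) : K θ ∈ 𝓝 P := by
  have e1 : ∀ᶠ Q in 𝓝 P, 0 < zc Q := continuous_zc.continuousAt.eventually (lt_mem_nhds hz)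
  have e2 : ∀ᶠ Q in 𝓝 P, |yc Q| < θ * zc Q :=
    continuous_yc.abs.continuousAt.eventually_lt (continuous_const.mul continuous_zc).continuousAt hy
  have e3 : ∀ᶠ Q in 𝓝 P, G θ Q < 0 := by
    have hc : ContinuousAt (G θ) P := by
      unfold G
      apply ContinuousAt.sub
      · have := continuous_sc
        have := continuous_zc
        apply Continuous.continuousAt
        fun_prop
      · apply (continuousOn_R hθ).continuousAt
        filter_upwards [e1, e2] with Q h1 h2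
        exact ⟨h1.le, h2.le⟩
    exact hc.eventually (gt_mem_nhds hG)
  filter_upwards [e1, e2, e3] with Q h1 h2 h3
  exact ⟨⟨h1.le, h2.le⟩, h3.le⟩

/-- The point `(0, 1/2, 0)`. -/
noncomputable def P0 : E 6 := T (Sum.elim (fun _ => 0) ![1 / 2, 0])

theorem xc_P0 : xc P0 = 0 := by unfold P0; rw [xc_T]; rfl
theorem zc_P0 : zc P0 = 1 / 2 := by unfold P0; rw [zc_T]; rfl
theorem yc_P0 : yc P0 = 0 := by unfold P0; rw [yc_T]; rfl

theorem G_P0 {θ : ℝ} (hθ : 0 < θ) : G θ P0 < 0 := by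
  unfold G sc
  rw [xc_P0, zc_P0, yc_P0]
  have := R_nonneg (θ := θ) (z := 1 / 2) (y := 0) hθ.le (by norm_num)
  simp only [dot_zero_left]
  nlinarith

theorem P0_mem_nhds {θ : ℝ} (hθ : 0 < θ) : K θ ∈ 𝓝 P0 :=
  mem_nhds_K hθ (by rw [zc_P0]; norm_num) (by rw [zc_P0, yc_P0]; simp; positivity) (G_P0 hθ)

theorem isBody_K {θ : ℝ} (hθ : 0 < θ) : IsBody (K θ) :=
  ⟨convex_K hθ, isCompact_K hθ, ⟨P0, mem_interior_iff_mem_nhds.2 (P0_mem_nhds hθ)⟩, zero_mem_K θ⟩

end Pool.Agent.H223.DM
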