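import Pool.Agent.H223.DM.Diff

/-!
# Bounds for the two Jacobians and for the length of the normal
-/

set_option autoImplicit false

namespace Pool.Agent.H223.DM

open MeasureTheory Metric Set Filter Topology
open scoped ENNReal InnerProductSpace

theorem Pf_ge {θ t : ℝ} (hθ : 0 < θ) : 1 ≤ Pf θ t := by
  unfold Pf
  have : 0 ≤ θ * kap t ^ 4 := by positivity
  linarith

theorem kap4_le {t : ℝ} (ht : |t| < 1) : kap t ^ 4 ≤ 1 :=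
  pow_le_one₀ (kap_nonneg ht.le) (kap_le_one ht.le)

theorem Pf_le {θ t : ℝ} (hθ : 0 < θ) (hθ1 : θ ≤ 1) (ht : |t| < 1) : Pf θ t ≤ 2 := by
  unfold Pf
  have h1 := kap4_le ht
  have h2 : 0 ≤ kap t ^ 4 := by positivity
  nlinarith

theorem sq_lt {t : ℝ} (ht : |t| < 1) : t ^ 2 < 1 := (sq_lt_one_iff_abs_lt_one t).2 ht

theorem cT_ge {m : ℝ} (hm : 0 < m) :
    qf m ^ 3 * (1 + 2 * m + 3 * m ^ 2) ≤ (2 * m + 1) ^ 3 * Ta m := by
  unfold qf Ta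
  have : 0 ≤ (2 * m + 1) ^ 3 * (1 + 6 * m + 6 * m ^ 2 + 8 * m ^ 3 + 9 * m ^ 4 + 6 * m ^ 5) -
      (1 + m + m ^ 2) ^ 3 * (1 + 2 * m + 3 * m ^ 2) := by
    ring_nf
    positivity
  linarith

theorem cT_le {m : ℝ} (hm : 0 < m) :
    (2 * m + 1) ^ 3 * Ta m ≤ 16 * (qf m ^ 3 * (1 + 2 * m + 3 * m ^ 2)) := by
  unfold qf Ta
  have : 0 ≤ 16 * ((1 + m + m ^ 2) ^ 3 * (1 + 2 * m + 3 * m ^ 2)) - (2 * m + 1) ^ 3 *
      (1 + 6 * m + 6 * m ^ 2 + 8 * m ^ 3 + 9 * m ^ 4 + 6 * m ^ 5) := by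
    ring_nf
    positivity
  linarith

theorem Tb_le {m : ℝ} (hm : 0 < m) : Tb m ≤ 2 * Ta m := by
  unfold Ta Tb
  have : 0 ≤ m ^ 3 := by positivity
  have : 0 ≤ m ^ 4 := by positivity
  have : 0 ≤ m ^ 5 := by positivity
  linarith

theorem J1_pos {θ m t : ℝ} (hθ : 0 < θ) (hm : 0 < m) : 0 < J1 θ m t := by
  unfold J1
  have := qf_pos hm
  have := Pf_pos (t := t) hθ
  positivity

/-- the common factor -/
noncomputable def J0 (θ m t : ℝ) : ℝ := m * Pf θ t ^ 4 / qf m ^ 8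

theorem J1_eq {θ m t : ℝ} (hm : 0 < m) :
    J1 θ m t = J0 θ m t * (θ / 2 * (qf m ^ 3 * (1 + 2 * m + 3 * m ^ 2))) := by
  unfold J1 J0
  have := (qf_pos hm).ne'
  field_simp

theorem J2_eq {θ m t : ℝ} :
    J2 θ m t = J0 θ m t * (64 / 5 * Pf θ t ^ 2 * ((2 * m + 1) ^ 3 *
      (Pf θ t * (1 - 3 / 5 * t ^ 2) * Ta m + 8 / 5 * θ * t ^ 2 * kap t ^ 4 * Tb m))) := by
  unfold J2 J0
  ring

theorem J0_pos {θ m t : ℝ} (hθ : 0 < θ) (hm : 0 < m) : 0 < J0 θ m t := by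
  unfold J0
  have := qf_pos hm
  have := Pf_pos (t := t) hθ
  positivity

theorem J2_ge {θ m t : ℝ} (hθ : 0 < θ) (hm : 0 < m) (ht : |t| < 1) :
    10 * J1 θ m t ≤ θ * J2 θ m t := by
  rw [J1_eq hm, J2_eq]
  have h0 := J0_pos (t := t) hθ hm
  have h1 := cT_ge hm
  have hP := Pf_ge (t := t) hθ
  have ht2 := sq_lt ht
  have hTa : 0 < Ta m := by unfold Ta; positivity
  have hTb : 0 < Tb m := by unfold Tb; positivity
  have hX : 0 < qf m ^ 3 * (1 + 2 * m + 3 * m ^ 2) := by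
    have := qf_pos hm
    positivity
  have h2 : 2 / 5 * Ta m ≤ Pf θ t * (1 - 3 / 5 * t ^ 2) * Ta m +
      8 / 5 * θ * t ^ 2 * kap t ^ 4 * Tb m := by
    have e1 : 0 ≤ 8 / 5 * θ * t ^ 2 * kap t ^ 4 * Tb m := by positivity
    have e2 : 2 / 5 ≤ Pf θ t * (1 - 3 / 5 * t ^ 2) := by nlinarith [sq_nonneg t]
    nlinarith
  have hc : 0 < (2 * m + 1) ^ 3 := by positivity
  have h3 : (2 * m + 1) ^ 3 * (2 / 5 * Ta m) ≤ (2 * m + 1) ^ 3 * (Pf θ t *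
      (1 - 3 / 5 * t ^ 2) * Ta m + 8 / 5 * θ * t ^ 2 * kap t ^ 4 * Tb m) :=
    mul_le_mul_of_nonneg_left h2 hc.le
  have h4 : 64 / 5 * ((2 * m + 1) ^ 3 * (2 / 5 * Ta m)) ≤ 64 / 5 * Pf θ t ^ 2 *
      ((2 * m + 1) ^ 3 * (Pf θ t *
      (1 - 3 / 5 * t ^ 2) * Ta m + 8 / 5 * θ * t ^ 2 * kap t ^ 4 * Tb m)) := by
    have e1 : 1 ≤ Pf θ t ^ 2 := one_le_pow₀ hP
    have e2 : 0 ≤ (2 * m + 1) ^ 3 * (Pf θ t *
      (1 - 3 / 5 * t ^ 2) * Ta m + 8 / 5 * θ * t ^ 2 * kap t ^ 4 * Tb m) := by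
      refine le_trans ?_ h3
      positivity
    nlinarith
  have h5 : 5 * (qf m ^ 3 * (1 + 2 * m + 3 * m ^ 2)) ≤ 64 / 5 * Pf θ t ^ 2 *
      ((2 * m + 1) ^ 3 * (Pf θ t *
      (1 - 3 / 5 * t ^ 2) * Ta m + 8 / 5 * θ * t ^ 2 * kap t ^ 4 * Tb m)) := by
    nlinarith
  have h6 : 0 < θ * J0 θ m t := by positivity
  have h7 := mul_le_mul_of_nonneg_left h5 h6.le
  linarith

theorem J2_le {θ m t : ℝ} (hθ : 0 < θ) (hθ1 : θ ≤ 1) (hm : 0 < m) (ht : |t| < 1) :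
    θ * J2 θ m t ≤ 10000 * J1 θ m t := by
  rw [J1_eq hm, J2_eq]
  have h0 := J0_pos (t := t) hθ hm
  have h1 := cT_le hm
  have hP := Pf_le hθ hθ1 ht
  have hP0 := Pf_pos (t := t) hθ
  have ht2 := sq_lt ht
  have hTa : 0 < Ta m := by unfold Ta; positivity
  have hTb : 0 < Tb m := by unfold Tb; positivity
  have hTab := Tb_le hm
  have hX : 0 < qf m ^ 3 * (1 + 2 * m + 3 * m ^ 2) := by
    have := qf_pos hm
    positivity
  have h2 : Pf θ t * (1 - 3 / 5 * t ^ 2) * Ta m +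
      8 / 5 * θ * t ^ 2 * kap t ^ 4 * Tb m ≤ 26 / 5 * Ta m := by
    have e1 : 8 / 5 * θ * t ^ 2 * kap t ^ 4 * Tb m ≤ 8 / 5 * (2 * Ta m) := by
      have i1 : θ * t ^ 2 * kap t ^ 4 ≤ 1 := by
        have j1 : θ * t ^ 2 ≤ 1 := mul_le_one₀ hθ1 (sq_nonneg t) ht2.le
        exact mul_le_one₀ j1 (by positivity) (kap4_le ht)
      have i2 : θ * t ^ 2 * kap t ^ 4 * Tb m ≤ 1 * (2 * Ta m) := by
        apply mul_le_mul i1 hTab hTb.le (by norm_num)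
      linarith
    have e2 : Pf θ t * (1 - 3 / 5 * t ^ 2) ≤ 2 := by
      have : 1 - 3 / 5 * t ^ 2 ≤ 1 := by nlinarith [sq_nonneg t]
      have h' : 0 ≤ 1 - 3 / 5 * t ^ 2 := by linarith
      nlinarith
    nlinarith
  have hc : 0 < (2 * m + 1) ^ 3 := by positivity
  have h3 : (2 * m + 1) ^ 3 * (Pf θ t * (1 - 3 / 5 * t ^ 2) * Ta m +
      8 / 5 * θ * t ^ 2 * kap t ^ 4 * Tb m) ≤ (2 * m + 1) ^ 3 * (26 / 5 * Ta m) :=
    mul_le_mul_of_nonneg_left h2 hc.le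
  have h4 : 64 / 5 * Pf θ t ^ 2 *
      ((2 * m + 1) ^ 3 * (Pf θ t *
      (1 - 3 / 5 * t ^ 2) * Ta m + 8 / 5 * θ * t ^ 2 * kap t ^ 4 * Tb m)) ≤
      64 / 5 * 4 * ((2 * m + 1) ^ 3 * (26 / 5 * Ta m)) := by
    have e1 : Pf θ t ^ 2 ≤ 4 := by nlinarith
    have e3 : 64 / 5 * Pf θ t ^ 2 ≤ 64 / 5 * 4 := by linarith
    have e2 : 0 ≤ (2 * m + 1) ^ 3 * (26 / 5 * Ta m) := by positivity
    calc _ ≤ 64 / 5 * Pf θ t ^ 2 * ((2 * m + 1) ^ 3 * (26 / 5 * Ta m)) :=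
          mul_le_mul_of_nonneg_left h3 (by positivity)
      _ ≤ _ := mul_le_mul_of_nonneg_right e3 e2
  have h5 : 64 / 5 * Pf θ t ^ 2 *
      ((2 * m + 1) ^ 3 * (Pf θ t *
      (1 - 3 / 5 * t ^ 2) * Ta m + 8 / 5 * θ * t ^ 2 * kap t ^ 4 * Tb m)) ≤
      5000 * (qf m ^ 3 * (1 + 2 * m + 3 * m ^ 2)) := by
    nlinarith
  have h6 : 0 < θ * J0 θ m t := by positivity
  have h7 := mul_le_mul_of_nonneg_left h5 h6.le
  linarith

theorem norm_nor_sq {θ : ℝ} (hθ : 0 < θ) {v : V} (hv : Bd v) : ‖T (norV θ v)‖ ^ 2 =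
    4 * kap (tv v) ^ 2 * (2 * mv v + 1) ^ 2 * mv v * Zf θ (mv v) (tv v) ^ 3 +
      bf θ (mv v) (tv v) ^ 2 + 64 / 25 * tv v ^ 2 := by
  rw [← real_inner_self_eq_norm_sq, inner_eq]
  unfold norV
  rw [xc_Fm, zc_Fm, yc_Fm, dot_smul_left, dot_smul_right, ← nm_sq, hv.1]
  have := rf_sq (t := tv v) hθ hv.2.1
  unfold af
  linear_combination (4 * kap (tv v) ^ 2 * (2 * mv v + 1) ^ 2 * Zf θ (mv v) (tv v) ^ 2) * this

theorem Amin {m : ℝ} (hm : 0 < m) : qf m ^ 3 ≤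
    2 * (4 * m * (2 * m + 1) ^ 2 + (1 - m ^ 2) ^ 2 * qf m) := by
  unfold qf
  have h : 0 ≤ (m ^ 2 - m / 2 - 42 / 10) ^ 2 := sq_nonneg _
  have h2 : 0 ≤ m ^ 2 * (m ^ 2 - m / 2 - 42 / 10) ^ 2 := by positivity
  have h3 : 0 < m ^ 2 := by positivity
  have h4 : 0 < m ^ 3 := by positivity
  have h5 : 0 < m ^ 4 := by positivity
  nlinarith

theorem norm_nor_le {θ : ℝ} (hθ : 0 < θ) (hθ1 : θ ≤ 1) {v : V} (hv : Bd v) :
    ‖T (norV θ v)‖ < 8 := by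
  have h1 := norm_nor_sq hθ hv
  obtain ⟨-, hm, ht⟩ := hv
  set m := mv v
  set t := tv v
  set k := kap t
  have hk0 : 0 < k := kap_pos ht
  have hk1 : k ≤ 1 := kap_le_one ht.le
  have hP0 := Pf_pos (t := t) hθ
  have hP := Pf_le hθ hθ1 ht
  have hq := qf_pos hm
  have hZ0 := Zf_pos (t := t) hθ hm
  have ht2 := sq_lt ht
  have hZq : Zf θ m t * qf m = Pf θ t := Zf_mul hm
  set Z := Zf θ m t
  have a1 : 4 * k ^ 2 * (2 * m + 1) ^ 2 * m * Z ^ 3 ≤ 32 := by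
    have e1 : (2 * m + 1) ^ 2 * m ≤ qf m ^ 3 := by
      unfold qf
      have : 0 ≤ (1 + m + m ^ 2) ^ 3 - (2 * m + 1) ^ 2 * m := by
        ring_nf
        positivity
      linarith
    have e2 : (2 * m + 1) ^ 2 * m * Z ^ 3 ≤ 8 := by
      calc (2 * m + 1) ^ 2 * m * Z ^ 3 ≤ qf m ^ 3 * Z ^ 3 :=
            mul_le_mul_of_nonneg_right e1 (by positivity)
        _ = Pf θ t ^ 3 := by rw [← hZq]; ring
        _ ≤ 2 ^ 3 := pow_le_pow_left₀ hP0.le hP 3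
        _ = 8 := by norm_num
    have e3 : k ^ 2 ≤ 1 := pow_le_one₀ hk0.le hk1
    have e4 : k ^ 2 * ((2 * m + 1) ^ 2 * m * Z ^ 3) ≤ 1 * 8 :=
      mul_le_mul e3 e2 (by positivity) (by norm_num)
    linarith
  have a2 : bf θ m t ^ 2 ≤ 16 := by
    have e1 : Z * (1 + m ^ 2) ≤ 2 := by
      have : 1 + m ^ 2 ≤ qf m := by unfold qf; linarith
      nlinarith
    have e2 : k * Z * (1 - m ^ 2) ≤ 2 := by
      have i1 : k * (Z * (1 + m ^ 2)) ≤ 1 * 2 := mul_le_mul hk1 e1 (by positivity) (by norm_num)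
      have i2 : 0 ≤ k * Z * m ^ 2 := by positivity
      nlinarith
    have e3 : -2 ≤ k * Z * (1 - m ^ 2) := by
      have i1 : k * (Z * (1 + m ^ 2)) ≤ 1 * 2 := mul_le_mul hk1 e1 (by positivity) (by norm_num)
      have i2 : 0 ≤ k * Z := by positivity
      nlinarith
    have e4 : 8 / 5 * θ * t ^ 2 ≤ 8 / 5 := by nlinarith [sq_nonneg t]
    have e5 : 0 ≤ 8 / 5 * θ * t ^ 2 := by positivity
    have e6 : -4 ≤ bf θ m t := by change -4 ≤ k * Z * (1 - m ^ 2) - 8 / 5 * θ * t ^ 2; linarith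
    have e7 : bf θ m t ≤ 4 := by change k * Z * (1 - m ^ 2) - 8 / 5 * θ * t ^ 2 ≤ 4; linarith
    nlinarith
  have h2 : ‖T (norV θ v)‖ ^ 2 < 8 ^ 2 := by rw [h1]; linarith
  exact lt_of_pow_lt_pow_left₀ 2 (by norm_num) h2

theorem norm_nor_ge {θ : ℝ} (hθ : 0 < θ) (hθ1 : θ ≤ 1 / 10) {v : V} (hv : Bd v) :
    1 / 4 < ‖T (norV θ v)‖ := by
  have h1 := norm_nor_sq hθ hv
  obtain ⟨-, hm, ht⟩ := hv
  set m := mv v
  set t := tv v
  set k := kap t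
  have hk0 : 0 < k := kap_pos ht
  have hk1 : k ≤ 1 := kap_le_one ht.le
  have hP0 := Pf_pos (t := t) hθ
  have hP := Pf_ge (t := t) hθ
  have hq := qf_pos hm
  have hZ0 := Zf_pos (t := t) hθ hm
  have hZq : Zf θ m t * qf m = Pf θ t := Zf_mul hm
  set Z := Zf θ m t
  have h2 : (1 / 4) ^ 2 < ‖T (norV θ v)‖ ^ 2 := by
    rw [h1]
    have a1 : 0 ≤ 4 * k ^ 2 * (2 * m + 1) ^ 2 * m * Z ^ 3 := by positivity
    rcases le_or_gt (1 / 4) (t ^ 2) with h4 | h4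
    · nlinarith [sq_nonneg (bf θ m t)]
    · have hk5 := kap_pow ht.le
      have hk34 : 3 / 4 ≤ k := by
        by_contra hcon
        push Not at hcon
        have : k ^ 5 ≤ k ^ 1 := pow_le_pow_of_le_one hk0.le hk1 (by norm_num)
        change k ^ 5 = 1 - t ^ 2 at hk5
        linarith
      have hk2 : 9 / 16 ≤ k ^ 2 := by nlinarith
      set e := 8 / 5 * θ * t ^ 2 with he
      have he0 : 0 ≤ e := by positivity
      have he1 : e ≤ 1 / 25 := by nlinarith [sq_nonneg t]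
      have hb : (k * Z * (1 - m ^ 2)) ^ 2 / 2 - e ^ 2 ≤ bf θ m t ^ 2 := by
        change _ ≤ (k * Z * (1 - m ^ 2) - e) ^ 2
        nlinarith [sq_nonneg (k * Z * (1 - m ^ 2) - 2 * e)]
      have hA := Amin hm
      -- `Z ≥ 1/q`
      have hZ1 : 1 ≤ Z * qf m := by rw [hZq]; exact hP
      have c1 : 1 ≤ 2 * (4 * m * (2 * m + 1) ^ 2 * Z ^ 3 + (1 - m ^ 2) ^ 2 * Z ^ 2) := by
        have i1 : 1 ≤ (Z * qf m) ^ 3 := one_le_pow₀ hZ1
        -- multiply `hA` by `Z^3`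
        have i2 : Z ^ 3 * qf m ^ 3 ≤ Z ^ 3 * (2 * (4 * m * (2 * m + 1) ^ 2 +
            (1 - m ^ 2) ^ 2 * qf m)) := mul_le_mul_of_nonneg_left hA (by positivity)
        -- need care: divide by `Z q ≥ 1`
        by_contra hcon
        push Not at hcon
        have i3 : (Z * qf m) ^ 3 ≤ 2 * (4 * m * (2 * m + 1) ^ 2 * Z ^ 3) +
            2 * ((1 - m ^ 2) ^ 2 * Z ^ 2) * (Z * qf m) := by
          calc (Z * qf m) ^ 3 = Z ^ 3 * qf m ^ 3 := by ring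
            _ ≤ _ := i2
            _ = _ := by ring
        have i4 : 2 * (4 * m * (2 * m + 1) ^ 2 * Z ^ 3) ≤
            2 * (4 * m * (2 * m + 1) ^ 2 * Z ^ 3) * (Z * qf m) :=
          le_mul_of_one_le_right (by positivity) hZ1
        have i5 : (Z * qf m) ^ 3 < Z * qf m := by
          have : 2 * (4 * m * (2 * m + 1) ^ 2 * Z ^ 3) * (Z * qf m) +
              2 * ((1 - m ^ 2) ^ 2 * Z ^ 2) * (Z * qf m) =
              (2 * (4 * m * (2 * m + 1) ^ 2 * Z ^ 3 + (1 - m ^ 2) ^ 2 * Z ^ 2)) * (Z * qf m) := by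
            ring
          nlinarith
        have i6 : Z * qf m ≤ (Z * qf m) ^ 3 := by
          have := pow_le_pow_right₀ hZ1 (show 1 ≤ 3 by norm_num)
          simpa using this
        linarith
      have c2 : k ^ 2 / 2 * (1 / 2) ≤ k ^ 2 / 2 *
          (4 * m * (2 * m + 1) ^ 2 * Z ^ 3 + (1 - m ^ 2) ^ 2 * Z ^ 2) :=
        mul_le_mul_of_nonneg_left (by linarith) (by positivity)
      have c3 : e ^ 2 ≤ 1 / 625 := by nlinarith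
      have c4 : 0 ≤ 64 / 25 * t ^ 2 := by positivity
      have c5 : 4 * k ^ 2 * (2 * m + 1) ^ 2 * m * Z ^ 3 + (k * Z * (1 - m ^ 2)) ^ 2 / 2 ≥
          k ^ 2 / 2 * (4 * m * (2 * m + 1) ^ 2 * Z ^ 3 + (1 - m ^ 2) ^ 2 * Z ^ 2) := by
        have : 0 ≤ k ^ 2 * (4 * m * (2 * m + 1) ^ 2 * Z ^ 3) := by positivity
        nlinarith
      linarith
  exact lt_of_pow_lt_pow_left₀ 2 (norm_nonneg _) h2

end Pool.Agent.H223.DM
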