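import Pool.Agent.H223.DM.Defs

/-!
# Coordinates on `ℝ^6 = ℝ^4 × ℝ × ℝ`
-/

set_option autoImplicit false

namespace Pool.Agent.H223.DM

open MeasureTheory Metric Set
open scoped ENNReal InnerProductSpace

/-- The coordinate space `ℝ^4 × ℝ^2`. -/
abbrev V : Type := Fin 4 ⊕ Fin 2 → ℝ

/-- The identification of `V` and `ℝ^6`. -/
noncomputable def T : V ≃ᵐ E 6 :=
  (MeasurableEquiv.piCongrLeft (fun _ => ℝ) (finSumFinEquiv (m := 4) (n := 2))).trans
    (MeasurableEquiv.toLp 2 (Fin 6 → ℝ))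

theorem T_apply (v : V) (k : Fin 6) : T v k = v ((finSumFinEquiv (m := 4) (n := 2)).symm k) := by
  obtain ⟨j, rfl⟩ := (finSumFinEquiv (m := 4) (n := 2)).surjective k
  rw [Equiv.symm_apply_apply]
  simp only [T, MeasurableEquiv.trans_apply, MeasurableEquiv.coe_toLp]
  exact Equiv.piCongrLeft_apply_apply (fun _ => ℝ) _ v j

theorem T_symm_apply (P : E 6) (j : Fin 4 ⊕ Fin 2) :
    T.symm P j = P ((finSumFinEquiv (m := 4) (n := 2)) j) := by
  have h := T_apply (T.symm P) ((finSumFinEquiv (m := 4) (n := 2)) j)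
  rw [Equiv.symm_apply_apply, MeasurableEquiv.apply_symm_apply] at h
  exact h.symm

theorem T_mp : MeasurePreserving T (volume : Measure V) (volume : Measure (E 6)) :=
  (volume_measurePreserving_piCongrLeft (fun _ => ℝ) (finSumFinEquiv (m := 4) (n := 2))).trans
    (PiLp.volume_preserving_toLp (Fin 6))

/-- The four coordinates `x` of a point of `ℝ^6`. -/
def xc (P : E 6) : Fin 4 → ℝ := fun i => P (Fin.castAdd 2 i)

/-- The coordinate `z` of a point of `ℝ^6`. -/
def zc (P : E 6) : ℝ := P 4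

/-- The coordinate `y` of a point of `ℝ^6`. -/
def yc (P : E 6) : ℝ := P 5

/-- The inner product of `ℝ^4`. -/
def dot (x y : Fin 4 → ℝ) : ℝ := ∑ i, x i * y i

theorem xc_T (v : V) : xc (T v) = fun i => v (Sum.inl i) := by
  funext i
  simp only [xc, T_apply]
  rw [finSumFinEquiv_symm_apply_castAdd]

theorem zc_T (v : V) : zc (T v) = v (Sum.inr 0) := by
  simp only [zc, T_apply]
  congr 1

theorem yc_T (v : V) : yc (T v) = v (Sum.inr 1) := by
  simp only [yc, T_apply]
  congr 1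

theorem inner_eq (P Q : E 6) : ⟪P, Q⟫_ℝ = dot (xc P) (xc Q) + zc P * zc Q + yc P * yc Q := by
  rw [PiLp.inner_apply, Fin.sum_univ_six]
  simp only [dot, Fin.sum_univ_four, xc, zc, yc, RCLike.inner_apply, conj_trivial]
  simp only [show (Fin.castAdd 2 (0 : Fin 4)) = (0 : Fin 6) from rfl,
    show (Fin.castAdd 2 (1 : Fin 4)) = (1 : Fin 6) from rfl,
    show (Fin.castAdd 2 (2 : Fin 4)) = (2 : Fin 6) from rfl,
    show (Fin.castAdd 2 (3 : Fin 4)) = (3 : Fin 6) from rfl]
  ring

theorem ext_coord {P Q : E 6} (hx : xc P = xc Q) (hz : zc P = zc Q) (hy : yc P = yc Q) : P = Q := by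
  ext k
  fin_cases k
  · exact congrFun hx 0
  · exact congrFun hx 1
  · exact congrFun hx 2
  · exact congrFun hx 3
  · exact hz
  · exact hy

@[simp] theorem xc_add (P Q : E 6) : xc (P + Q) = xc P + xc Q := rfl
@[simp] theorem xc_sub (P Q : E 6) : xc (P - Q) = xc P - xc Q := rfl
@[simp] theorem xc_smul (t : ℝ) (P : E 6) : xc (t • P) = t • xc P := rfl
@[simp] theorem xc_zero : xc 0 = 0 := rfl
@[simp] theorem zc_add (P Q : E 6) : zc (P + Q) = zc P + zc Q := rfl
@[simp] theorem zc_sub (P Q : E 6) : zc (P - Q) = zc P - zc Q := rfl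
@[simp] theorem zc_smul (t : ℝ) (P : E 6) : zc (t • P) = t * zc P := rfl
@[simp] theorem zc_zero : zc 0 = 0 := rfl
@[simp] theorem yc_add (P Q : E 6) : yc (P + Q) = yc P + yc Q := rfl
@[simp] theorem yc_sub (P Q : E 6) : yc (P - Q) = yc P - yc Q := rfl
@[simp] theorem yc_smul (t : ℝ) (P : E 6) : yc (t • P) = t * yc P := rfl
@[simp] theorem yc_zero : yc 0 = 0 := rfl

theorem continuous_xc : Continuous xc := by
  unfold xc
  fun_prop

theorem continuous_zc : Continuous zc := by
  unfold zc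
  fun_prop

theorem continuous_yc : Continuous yc := by
  unfold yc
  fun_prop

theorem dot_comm (x y : Fin 4 → ℝ) : dot x y = dot y x := by
  simp only [dot, mul_comm]

theorem dot_add_left (x y z : Fin 4 → ℝ) : dot (x + y) z = dot x z + dot y z := by
  simp only [dot, Pi.add_apply, add_mul, Finset.sum_add_distrib]

theorem dot_add_right (x y z : Fin 4 → ℝ) : dot x (y + z) = dot x y + dot x z := by
  simp only [dot, Pi.add_apply, mul_add, Finset.sum_add_distrib]

theorem dot_sub_left (x y z : Fin 4 → ℝ) : dot (x - y) z = dot x z - dot y z := by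
  simp only [dot, Pi.sub_apply, sub_mul, Finset.sum_sub_distrib]

theorem dot_sub_right (x y z : Fin 4 → ℝ) : dot x (y - z) = dot x y - dot x z := by
  simp only [dot, Pi.sub_apply, mul_sub, Finset.sum_sub_distrib]

theorem dot_smul_left (t : ℝ) (x y : Fin 4 → ℝ) : dot (t • x) y = t * dot x y := by
  simp only [dot, Pi.smul_apply, smul_eq_mul, Finset.mul_sum, mul_assoc]

theorem dot_smul_right (t : ℝ) (x y : Fin 4 → ℝ) : dot x (t • y) = t * dot x y := by
  rw [dot_comm, dot_smul_left, dot_comm]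

theorem dot_self_nonneg (x : Fin 4 → ℝ) : 0 ≤ dot x x :=
  Finset.sum_nonneg fun i _ => mul_self_nonneg (x i)

theorem dot_self_eq_zero {x : Fin 4 → ℝ} : dot x x = 0 ↔ x = 0 := by
  constructor
  · intro h
    rw [dot, Finset.sum_eq_zero_iff_of_nonneg fun i _ => mul_self_nonneg (x i)] at h
    funext i
    exact mul_self_eq_zero.1 (h i (Finset.mem_univ i))
  · rintro rfl
    simp [dot]

theorem dot_self_pos {x : Fin 4 → ℝ} (h : x ≠ 0) : 0 < dot x x :=
  lt_of_le_of_ne (dot_self_nonneg x) (fun h' => h (dot_self_eq_zero.1 h'.symm))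

@[simp] theorem dot_zero_left (x : Fin 4 → ℝ) : dot 0 x = 0 := by simp [dot]

@[simp] theorem dot_zero_right (x : Fin 4 → ℝ) : dot x 0 = 0 := by simp [dot]

theorem continuous_dot {X : Type*} [TopologicalSpace X] {f g : X → Fin 4 → ℝ}
    (hf : Continuous f) (hg : Continuous g) : Continuous fun x => dot (f x) (g x) := by
  unfold dot
  fun_prop

/-- `|x|` for `x ∈ ℝ^4`. -/
noncomputable def nm (x : Fin 4 → ℝ) : ℝ := Real.sqrt (dot x x)

theorem nm_nonneg (x : Fin 4 → ℝ) : 0 ≤ nm x := Real.sqrt_nonneg _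

theorem nm_sq (x : Fin 4 → ℝ) : nm x ^ 2 = dot x x := Real.sq_sqrt (dot_self_nonneg x)

theorem nm_pos {x : Fin 4 → ℝ} (h : x ≠ 0) : 0 < nm x := Real.sqrt_pos.2 (dot_self_pos h)

theorem nm_smul {t : ℝ} (ht : 0 ≤ t) (x : Fin 4 → ℝ) : nm (t • x) = t * nm x := by
  rw [nm, dot_smul_left, dot_smul_right, nm, ← mul_assoc, Real.sqrt_mul (by positivity),
    Real.sqrt_mul_self ht]

end Pool.Agent.H223.DM
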