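import Mathlib

/-!
# Definitions for the `L_p` `q`-th dual Minkowski problem
-/

set_option autoImplicit false

namespace Pool.Agent.H223.DM

open MeasureTheory Metric Set
open scoped ENNReal InnerProductSpace

/-- `ℝ^n` with the Euclidean norm. -/
abbrev E (n : ℕ) : Type := EuclideanSpace ℝ (Fin n)

/-- The unit sphere `S^{n-1}` of `ℝ^n`. -/
abbrev S (n : ℕ) : Type := sphere (0 : E n) 1

/-- The surface measure on `S^{n-1}`: `σ(ω) = n · |{t w : 0 < t < 1, w ∈ ω}|`. -/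
noncomputable abbrev surf (n : ℕ) : Measure (S n) := (volume : Measure (E n)).toSphere

/-- `K ∈ 𝒦^n_o`: `K` is a compact convex set with non-empty interior and `o ∈ K`. -/
def IsBody {n : ℕ} (K : Set (E n)) : Prop :=
  Convex ℝ K ∧ IsCompact K ∧ (interior K).Nonempty ∧ (0 : E n) ∈ K

/-- The support function `h_K(w) = max_{x ∈ K} ⟨w, x⟩`. -/
noncomputable def supportFn {n : ℕ} (K : Set (E n)) (w : E n) : ℝ :=
  sSup ((fun x : E n => ⟪w, x⟫_ℝ) '' K)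

/-- The radial function `ϱ_K(w) = max {t ≥ 0 : t w ∈ K}`. -/
noncomputable def radialFn {n : ℕ} (K : Set (E n)) (w : E n) : ℝ :=
  sSup {t : ℝ | 0 ≤ t ∧ t • w ∈ K}

/-- `ν_K(x)`: the set of the outer unit normals of `K` at `x`. -/
def normals {n : ℕ} (K : Set (E n)) (x : E n) : Set (S n) :=
  {u | ∀ y ∈ K, ⟪(u : E n), y⟫_ℝ ≤ ⟪(u : E n), x⟫_ℝ}

/-- `α*_K(ω) = {w ∈ S^{n-1} : ν_K(ϱ_K(w) w) ∩ ω ≠ ∅}`. -/
noncomputable def revGauss {n : ℕ} (K : Set (E n)) (ω : Set (S n)) : Set (S n) :=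
  {w | (normals K (radialFn K w • (w : E n)) ∩ ω).Nonempty}

/-- The value on `ω` of the `q`-th dual curvature measure:
`C̃_{q,K}(ω) = ∫_{α*_K(ω)} ϱ_K^q dσ`. -/
noncomputable def dualCurv {n : ℕ} (q : ℝ) (K : Set (E n)) (ω : Set (S n)) : ℝ≥0∞ :=
  ∫⁻ w in revGauss K ω, ENNReal.ofReal (radialFn K w ^ q) ∂(surf n)

/-- `μ` is the `L_p` `q`-th dual curvature measure `C̃_{p,q,K}`: `dμ = h_K^{-p} dC̃_{q,K}`. -/
def IsLpDualCurv {n : ℕ} (p q : ℝ) (K : Set (E n)) (μ : Measure (S n)) : Prop :=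
  ∃ ν : Measure (S n), (∀ ω : Set (S n), MeasurableSet ω → ν ω = dualCurv q K ω) ∧
    μ = ν.withDensity (fun u => ENNReal.ofReal (supportFn K u) ^ (-p))

/-- `λ⁻¹ σ ≤ C̃_{p,q,K} ≤ λ σ` on all Borel sets. -/
def TwoSided {n : ℕ} (p q lam : ℝ) (K : Set (E n)) : Prop :=
  ∃ μ : Measure (S n), IsLpDualCurv p q K μ ∧ ∀ ω : Set (S n), MeasurableSet ω →
    ENNReal.ofReal lam⁻¹ * surf n ω ≤ μ ω ∧ μ ω ≤ ENNReal.ofReal lam * surf n ω

/-- The `C⁰` estimate for the parameters `n, p, q, λ`. -/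
def C0Estimate (n : ℕ) (p q lam : ℝ) : Prop :=
  ∃ C : ℝ, 1 < C ∧ ∀ K : Set (E n), IsBody K → TwoSided p q lam K →
    (∀ u : S n, supportFn K u ≤ C) ∧ ENNReal.ofReal C⁻¹ ≤ volume K

end Pool.Agent.H223.DM
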