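import Pool.Agent.H223.DM.Jval

/-!
# The derivatives of `posV` and `norV` and their determinants
-/

set_option autoImplicit false

namespace Pool.Agent.H223.DM

open MeasureTheory Metric Set Filter Topology
open scoped ENNReal InnerProductSpace

theorem D2_qf (v : V) : D2 (fun x => qf (mv x)) (1 + 2 * mv v) 0 v := by
  have h := ((D2_const 1 v).add (D2_mv v)).add ((D2_mv v).pow 2)
  exact h.congr (by norm_num) (by norm_num)

theorem D2_kap {v : V} (ht : |tv v| < 1) :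
    D2 (fun x => kap (tv x)) 0 (-(2 / 5) * tv v / kap (tv v) ^ 4) v := by
  have h := D2.comp (hasDerivAt_kap ht) (D2_tv v)
  exact h.congr (by ring) (by ring)

theorem D2_Pf {v : V} (θ : ℝ) (ht : |tv v| < 1) :
    D2 (fun x => Pf θ (tv x)) 0 (-(8 / 5) * θ * tv v / kap (tv v)) v := by
  have h := (D2_const 1 v).add (((D2_kap ht).pow 4).const_mul θ)
  refine h.congr (by ring) ?_
  have := (kap_pos ht).ne'
  field_simp
  norm_num
  ring

theorem D2_Zf {v : V} {θ : ℝ} (hm : 0 < mv v) (ht : |tv v| < 1) :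
    D2 (fun x => Zf θ (mv x) (tv x)) (-Zf θ (mv v) (tv v) * (1 + 2 * mv v) / qf (mv v))
      (-(8 / 5) * θ * tv v / (kap (tv v) * qf (mv v))) v := by
  have hq := (qf_pos hm).ne'
  have h1 : D2 (fun x => (qf (mv x))⁻¹) _ _ v := D2.comp (hasDerivAt_inv hq) (D2_qf v)
  have h := (D2_Pf θ ht).mul h1
  have e : (fun x => Zf θ (mv x) (tv x)) = fun x => Pf θ (tv x) * (qf (mv x))⁻¹ := by
    funext x
    rw [Zf, div_eq_mul_inv]
  rw [e]
  have hk := (kap_pos ht).ne'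
  refine h.congr ?_ ?_
  · unfold Zf
    field_simp
    ring
  · field_simp
    ring

theorem D2_rf {v : V} {θ : ℝ} (hθ : 0 < θ) (hm : 0 < mv v) (ht : |tv v| < 1) :
    ∃ rm rt : ℝ, D2 (fun x => rf θ (mv x) (tv x)) rm rt v ∧
      2 * rf θ (mv v) (tv v) * rm = Zf θ (mv v) (tv v) +
        mv v * (-Zf θ (mv v) (tv v) * (1 + 2 * mv v) / qf (mv v)) ∧
      2 * rf θ (mv v) (tv v) * rt = mv v * (-(8 / 5) * θ * tv v / (kap (tv v) * qf (mv v))) := by
  have h1 := (D2_mv v).mul (D2_Zf (θ := θ) hm ht)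
  have hr := rf_pos (t := tv v) hθ hm
  have h2 : D2 (fun x => rf θ (mv x) (tv x)) _ _ v :=
    D2.comp (Real.hasDerivAt_sqrt (mul_pos hm (Zf_pos (t := tv v) hθ hm)).ne') h1
  refine ⟨_, _, h2, ?_, ?_⟩
  · change 2 * rf θ (mv v) (tv v) * (1 / (2 * rf θ (mv v) (tv v)) * _) = _
    have := hr.ne'
    field_simp
  · change 2 * rf θ (mv v) (tv v) * (1 / (2 * rf θ (mv v) (tv v)) * _) = _
    have := hr.ne'
    field_simp
    ring

theorem posV_deriv {v : V} {θ : ℝ} (hθ : 0 < θ) (ha : av v ≠ 0) (hm : 0 < mv v)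
    (ht : |tv v| < 1) : ∃ L : V →L[ℝ] V, HasFDerivAt (posV θ) L v ∧
      L.det = -(nm (av v) ^ 2 * J1 θ (mv v) (tv v)) := by
  obtain ⟨rm, rt, h1, h2, h3⟩ := D2_rf hθ hm ht
  have hZ := D2_Zf (θ := θ) hm ht
  have hb2 : D2 (fun x => θ * tv x * Zf θ (mv x) (tv x))
      (θ * tv v * (-Zf θ (mv v) (tv v) * (1 + 2 * mv v) / qf (mv v)))
      (θ * Zf θ (mv v) (tv v) + θ * tv v * (-(8 / 5) * θ * tv v / (kap (tv v) * qf (mv v)))) v := by
    have := ((D2_tv v).const_mul θ).mul hZ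
    exact this.congr (by ring) (by ring)
  have hF := hasFDerivAt_Fm (α := rf θ) (β₁ := Zf θ) (β₂ := fun m t => θ * t * Zf θ m t) ha h1 hZ hb2
  refine ⟨_, hF, ?_⟩
  rw [ContinuousLinearMap.det, LinearMap.coe_toContinuousLinearMap, LinearMap.det_toLin',
    det_Mx ha (rf_pos hθ hm).ne']
  have hal := alg1 (θ := θ) (t := tv v) (Zt := (-(8 / 5) * θ * tv v / (kap (tv v) * qf (mv v))))
    (rt := rt) (qf_pos hm).ne' (show qf (mv v) = _ from rfl) (rf_sq (t := tv v) hθ hm)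
    (show Zf θ (mv v) (tv v) = _ from rfl) rfl h2
  rw [hal]
  unfold J1
  ring

theorem norV_deriv {v : V} {θ : ℝ} (hθ : 0 < θ) (ha : av v ≠ 0) (hm : 0 < mv v)
    (ht : |tv v| < 1) : ∃ L : V →L[ℝ] V, HasFDerivAt (norV θ) L v ∧
      L.det = -(nm (av v) ^ 2 * J2 θ (mv v) (tv v)) := by
  obtain ⟨rm, rt, h1, h2, h3⟩ := D2_rf hθ hm ht
  have hZ := D2_Zf (θ := θ) hm ht
  have hk := D2_kap ht
  have hc : D2 (fun x => 2 * mv x + 1) 2 0 v := by
    have := ((D2_mv v).const_mul 2).add (D2_const 1 v)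
    exact this.congr (by ring) (by ring)
  have hα : D2 (fun x => af θ (mv x) (tv x)) _ _ v := (((hk.const_mul 2).mul hc).mul hZ).mul h1
  have hA : D2 (fun x => 1 - mv x ^ 2) (-(2 * mv v)) 0 v := by
    have := (D2_const 1 v).sub ((D2_mv v).pow 2)
    exact this.congr (by norm_num) (by norm_num)
  have hβ : D2 (fun x => bf θ (mv x) (tv x)) _ _ v :=
    ((hk.mul hZ).mul hA).sub (((D2_tv v).pow 2).const_mul (8 / 5 * θ))
  have hb2 : D2 (fun x => 8 / 5 * tv x) 0 (8 / 5) v := by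
    have := (D2_tv v).const_mul (8 / 5)
    exact this.congr (by ring) (by ring)
  have hF := hasFDerivAt_Fm (α := af θ) (β₁ := bf θ) (β₂ := fun _ t => 8 / 5 * t) ha hα hβ hb2
  refine ⟨_, hF, ?_⟩
  have hα0 : af θ (mv v) (tv v) ≠ 0 := by
    unfold af
    have := kap_pos ht
    have := Zf_pos (t := tv v) hθ hm
    have := rf_pos (t := tv v) hθ hm
    positivity
  rw [ContinuousLinearMap.det, LinearMap.coe_toContinuousLinearMap, LinearMap.det_toLin',
    det_Mx ha hα0]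
  rw [alg2 (θ := θ) (t := tv v) (k := kap (tv v)) (q := qf (mv v)) (P := Pf θ (tv v))
    (r := rf θ (mv v) (tv v)) (Z := Zf θ (mv v) (tv v)) (rm := rm) (rt := rt)
    (qf_pos hm).ne' rfl (kap_pos ht).ne' (kap_pow ht.le) (rf_sq (t := tv v) hθ hm) rfl rfl rfl rfl
    h2 h3]
  · unfold J2
    ring
  · unfold af; ring
  · ring
  · ring
  · unfold bf; ring
  · ring
  · norm_num
    ring

end Pool.Agent.H223.DM
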