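import Pool.Agent.H223.DM.Defs

/-!
# Polar coordinates for radial sets
-/

set_option autoImplicit false

namespace Pool.Agent.H223.DM

open MeasureTheory Metric Set
open scoped ENNReal InnerProductSpace

theorem polar (n : ℕ) (A : Set (S (n + 1))) (hA : MeasurableSet A) (ρ : S (n + 1) → ℝ)
    (hρ : ∀ w ∈ A, 0 < ρ w) (C : Set (E (n + 1))) (hC : MeasurableSet C)
    (hC0 : (0 : E (n + 1)) ∉ C)
    (h : ∀ w : S (n + 1), ∀ t : ℝ, 0 < t → (t • (w : E (n + 1)) ∈ C ↔ w ∈ A ∧ t < ρ w)) :
    ∫⁻ w in A, ENNReal.ofReal (ρ w ^ (n + 1)) ∂(surf (n + 1)) = (n + 1) * volume C := by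
  classical
  set D : Set (S (n + 1) × Ioi (0 : ℝ)) := {p | (p.2 : ℝ) • (p.1 : E (n + 1)) ∈ C} with hD
  have hDm : MeasurableSet D := by
    apply measurableSet_preimage _ hC
    fun_prop
  have hdim : Module.finrank ℝ (E (n + 1)) = n + 1 := by simp
  have mp := (volume : Measure (E (n + 1))).measurePreserving_homeomorphUnitSphereProd
  have h1 : volume C = ((volume : Measure (E (n + 1))).toSphere.prod
      (Measure.volumeIoiPow (Module.finrank ℝ (E (n + 1)) - 1))) D := by
    rw [← mp.measure_preimage hDm.nullMeasurableSet]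
    rw [comap_subtype_coe_apply (measurableSet_singleton _).compl]
    congr 1
    ext x
    simp only [mem_image, mem_preimage, Subtype.exists, exists_and_right, exists_eq_right]
    constructor
    · intro hx
      have hx0 : x ≠ 0 := fun h0 => hC0 (h0 ▸ hx)
      refine ⟨hx0, ?_⟩
      simp only [hD, mem_ofPred_eq, homeomorphUnitSphereProd_apply_snd_coe,
        homeomorphUnitSphereProd_apply_fst_coe]
      rw [smul_smul, mul_inv_cancel₀ (norm_ne_zero_iff.2 hx0), one_smul]
      exact hx
    · rintro ⟨hx0, hx⟩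
      simp only [hD, mem_ofPred_eq, homeomorphUnitSphereProd_apply_snd_coe,
        homeomorphUnitSphereProd_apply_fst_coe] at hx
      have hx0' : x ≠ 0 := hx0
      rw [smul_smul, mul_inv_cancel₀ (norm_ne_zero_iff.2 hx0'), one_smul] at hx
      exact hx
  rw [h1, hdim, Nat.add_sub_cancel, Measure.prod_apply hDm]
  have h2 : ∀ w : S (n + 1), Measure.volumeIoiPow n (Prod.mk w ⁻¹' D) =
      A.indicator (fun w => ENNReal.ofReal (ρ w ^ (n + 1) / (n + 1))) w := by
    intro w
    by_cases hw : w ∈ A
    · rw [indicator_of_mem hw]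
      have : Prod.mk w ⁻¹' D = Iio ⟨ρ w, hρ w hw⟩ := by
        ext t
        simp only [hD, mem_preimage, mem_ofPred_eq, mem_Iio]
        rw [h w t t.2]
        constructor
        · rintro ⟨-, ht⟩
          exact ht
        · intro ht
          exact ⟨hw, ht⟩
      rw [this, Measure.volumeIoiPow_apply_Iio]
    · rw [indicator_of_notMem hw]
      have : Prod.mk w ⁻¹' D = ∅ := by
        ext t
        simp only [hD, mem_preimage, mem_ofPred_eq, mem_empty_iff_false, iff_false]
        rw [h w t t.2]
        exact fun h' => hw h'.1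
      rw [this, measure_empty]
  simp_rw [h2]
  rw [lintegral_indicator hA, ← lintegral_const_mul' _ _ (by
    exact ENNReal.add_ne_top.2 ⟨ENNReal.natCast_ne_top n, ENNReal.one_ne_top⟩)]
  apply lintegral_congr
  intro w
  have e : ((n : ℝ≥0∞) + 1) = ENNReal.ofReal ((n : ℝ) + 1) := by
    rw [ENNReal.ofReal_add (by positivity) (by positivity)]
    simp
  rw [e, ← ENNReal.ofReal_mul (by positivity)]
  congr 1
  field_simp

end Pool.Agent.H223.DM
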