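import Pool.Agent.H223.DM.Meas
import Pool.Agent.H223.DM.Polar

/-!
# The dual curvature measure of `K_θ`
-/

set_option autoImplicit false

namespace Pool.Agent.H223.DM

open MeasureTheory Metric Set Filter Topology
open scoped ENNReal InnerProductSpace Pointwise

/-- the cone over the boundary points with normal in `ω` -/
noncomputable def Cn (θ : ℝ) (ω : Set (S 6)) : Set (E 6) := T '' (posV θ '' Sig θ ω)

theorem mem_Cn {θ : ℝ} (hθ : 0 < θ) (ω : Set (S 6)) (x : E 6) :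
    x ∈ Cn θ ω ↔ ∃ v, Bd v ∧ dirS (T (norV θ v)) ∈ ω ∧
      ∃ c : ℝ, 0 < c ∧ c < 1 ∧ x = c • T (posV θ v) :=
  mem_cone_iff hθ _ _ _ ω x

/-- the corresponding directions -/
def An (θ : ℝ) (ω : Set (S 6)) : Set (S 6) :=
  {w | ∃ m : ℕ, (1 / ((m : ℝ) + 1)) • (w : E 6) ∈ Cn θ ω}

theorem sph_ne_zero (w : S 6) : (w : E 6) ≠ 0 := by
  intro h
  have : ‖(w : E 6)‖ = 1 := by simpa using w.2
  rw [h] at this
  simp at this

theorem pos_ne_zero' {θ : ℝ} (hθ : 0 < θ) {v : V} (hv : Bd v) : T (posV θ v) ≠ 0 := by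
  intro h
  have := zc_pos_pos hθ hv
  rw [h] at this
  simp at this

theorem ray_radial {θ : ℝ} (hθ : 0 < θ) {v : V} (hv : Bd v) {c : ℝ} (hc : 0 < c) :
    radialFn (K θ) (c • T (posV θ v)) = 1 / c := by
  have hne : c • T (posV θ v) ≠ 0 := smul_ne_zero hc.ne' (pos_ne_zero' hθ hv)
  apply le_antisymm
  · have h := radialFn_mem (isCompact_K hθ) (zero_mem_K θ) hne
    rw [smul_smul] at h
    have := ray_le hθ hv h
    rwa [le_div_iff₀ hc]
  · apply le_radialFn (isCompact_K hθ) hne (by positivity)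
    rw [smul_smul, one_div, inv_mul_cancel₀ hc.ne', one_smul]
    exact bd_mem_K hθ hv

theorem exists_small {r : ℝ} (hr : 0 < r) : ∃ m : ℕ, 1 / ((m : ℝ) + 1) < r :=
  exists_nat_one_div_lt hr

theorem An_iff {θ : ℝ} (hθ : 0 < θ) (ω : Set (S 6)) (w : S 6) :
    w ∈ An θ ω ↔ ∃ v, Bd v ∧ dirS (T (norV θ v)) ∈ ω ∧
      ∃ c : ℝ, 0 < c ∧ (w : E 6) = c • T (posV θ v) := by
  constructor
  · rintro ⟨m, hm⟩
    obtain ⟨v, hv, hd, c, hc0, hc1, h⟩ := (mem_Cn hθ ω _).1 hm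
    refine ⟨v, hv, hd, ((m : ℝ) + 1) * c, by positivity, ?_⟩
    rw [mul_smul, ← h, smul_smul, mul_one_div_cancel (by positivity), one_smul]
  · rintro ⟨v, hv, hd, c, hc0, h⟩
    obtain ⟨m, hm⟩ := exists_small (r := 1 / c) (by positivity)
    refine ⟨m, (mem_Cn hθ ω _).2 ⟨v, hv, hd, 1 / ((m : ℝ) + 1) * c, by positivity, ?_, ?_⟩⟩
    · rwa [← lt_div_iff₀ hc0]
    · rw [h, smul_smul]

theorem cone_radial {θ : ℝ} (hθ : 0 < θ) (ω : Set (S 6)) (w : S 6) (t : ℝ) (ht : 0 < t) :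
    t • (w : E 6) ∈ Cn θ ω ↔ w ∈ An θ ω ∧ t < radialFn (K θ) w := by
  rw [An_iff hθ, mem_Cn hθ]
  constructor
  · rintro ⟨v, hv, hd, c, hc0, hc1, h⟩
    have hw : (w : E 6) = (c / t) • T (posV θ v) := by
      rw [div_eq_inv_mul, mul_smul, ← h, smul_smul, inv_mul_cancel₀ ht.ne', one_smul]
    refine ⟨⟨v, hv, hd, c / t, by positivity, hw⟩, ?_⟩
    rw [hw, ray_radial hθ hv (by positivity), one_div_div, lt_div_iff₀ hc0]
    nlinarith
  · rintro ⟨⟨v, hv, hd, c, hc0, h⟩, hlt⟩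
    rw [h, ray_radial hθ hv hc0, lt_div_iff₀ hc0] at hlt
    refine ⟨v, hv, hd, t * c, by positivity, hlt, ?_⟩
    rw [h, smul_smul]

theorem measurableSet_An {θ : ℝ} (hθ : 0 < θ) {ω : Set (S 6)} (hω : MeasurableSet ω) :
    MeasurableSet (An θ ω) := by
  have : An θ ω = ⋃ m : ℕ, (fun w : S 6 => (1 / ((m : ℝ) + 1)) • (w : E 6)) ⁻¹' (Cn θ ω) := by
    ext w
    simp [An]
  rw [this]
  apply MeasurableSet.iUnion
  intro m
  apply measurableSet_preimage _ (measurableSet_cone θ hθ hω)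
  fun_prop

theorem lint_An {θ : ℝ} (hθ : 0 < θ) {ω : Set (S 6)} (hω : MeasurableSet ω) :
    ∫⁻ w in An θ ω, ENNReal.ofReal (radialFn (K θ) w ^ 6) ∂(surf 6) = 6 * volume (Cn θ ω) := by
  have h := polar 5 (An θ ω) (measurableSet_An hθ hω) (fun w => radialFn (K θ) w) ?_ (Cn θ ω)
    (measurableSet_cone θ hθ hω) ?_ (cone_radial hθ ω)
  · rw [h]
    norm_num
  · intro w hw
    obtain ⟨v, hv, hd, c, hc0, h⟩ := (An_iff hθ ω w).1 hw
    rw [h, ray_radial hθ hv hc0]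
    positivity
  · intro h0
    obtain ⟨v, hv, hd, c, hc0, hc1, h⟩ := (mem_Cn hθ ω _).1 h0
    exact smul_ne_zero hc0.ne' (pos_ne_zero' hθ hv) h.symm

theorem An_subset {θ : ℝ} (hθ : 0 < θ) (ω : Set (S 6)) : An θ ω ⊆ revGauss (K θ) ω := by
  intro w hw
  obtain ⟨v, hv, hd, c, hc0, h⟩ := (An_iff hθ ω w).1 hw
  refine ⟨dirS (T (norV θ v)), ?_, hd⟩
  have hP : radialFn (K θ) w • (w : E 6) = T (posV θ v) := by
    rw [h, ray_radial hθ hv hc0, smul_smul, one_div, inv_mul_cancel₀ hc0.ne', one_smul]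
  rw [hP]
  intro y hy
  have hn := nor_ne_zero hθ hv
  have hn0 := norm_pos_iff.2 hn
  have e : (dirS (T (norV θ v)) : E 6) = (‖T (norV θ v)‖⁻¹ * kap (tv v)) • N θ (T (posV θ v)) := by
    rw [mul_smul, ← nor_eq hθ hv]
    conv_rhs => rw [eq_smul_dirS hn, norm_smul, norm_norm, norm_eq_of_mem_sphere, mul_one]
    rw [smul_smul, inv_mul_cancel₀ hn0.ne', one_smul]
  rw [e, real_inner_smul_left, real_inner_smul_left]
  have hk := kap_pos hv.2.2
  apply mul_le_mul_of_nonneg_left _ (by positivity)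
  by_cases hyP : y = T (posV θ v)
  · rw [hyP]
  · exact (N_normal hθ (zc_pos_pos hθ hv) (yc_lt_pos hθ hv) (G_pos_bd hθ hv) hy hyP).le

/-- directions along which the radial function vanishes -/
def Z0 (θ : ℝ) : Set (S 6) := {w | ∀ m : ℕ, (1 / ((m : ℝ) + 1)) • (w : E 6) ∉ K θ}

theorem radial_Z0 {θ : ℝ} (hθ : 0 < θ) {w : S 6} (hw : w ∈ Z0 θ) : radialFn (K θ) w = 0 := by
  by_contra hne
  have hpos : 0 < radialFn (K θ) w := lt_of_le_of_ne (radialFn_nonneg _) (Ne.symm hne)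
  obtain ⟨m, hm⟩ := exists_small hpos
  exact hw m (mem_of_le_radialFn (isCompact_K hθ) (convex_K hθ) (zero_mem_K θ) (sph_ne_zero w)
    (by positivity) hm.le)

theorem measurableSet_Z0 {θ : ℝ} (hθ : 0 < θ) : MeasurableSet (Z0 θ) := by
  have : Z0 θ = ⋂ m : ℕ, ((fun w : S 6 => (1 / ((m : ℝ) + 1)) • (w : E 6)) ⁻¹' (K θ))ᶜ := by
    ext w
    simp [Z0]
  rw [this]
  apply MeasurableSet.iInter
  intro m
  apply MeasurableSet.compl
  apply measurableSet_preimage _ (isClosed_K hθ).measurableSet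
  fun_prop

/-- exceptional directions -/
def B1 : Set (S 6) := {w | xc (w : E 6) = 0}

/-- exceptional directions -/
def B2 (a : ℝ) : Set (S 6) := {w | yc (w : E 6) = a * zc (w : E 6)}

theorem surf_B1 : surf 6 B1 = 0 := by
  have hm : MeasurableSet B1 := by
    have : Measurable fun u : S 6 => xc (u : E 6) :=
      (continuous_xc.comp continuous_subtype_val).measurable
    exact this (measurableSet_singleton (0 : Fin 4 → ℝ))
  apply surf_null (LinearMap.ker (EuclideanSpace.proj (𝕜 := ℝ) (0 : Fin 6)).toLinearMap) _ _ hm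
  · intro w hw
    exact congrFun hw 0
  · intro htop
    rw [LinearMap.ker_eq_top] at htop
    have := LinearMap.congr_fun htop (EuclideanSpace.single 0 1)
    simp at this

theorem surf_B2 (a : ℝ) : surf 6 (B2 a) = 0 := by
  have hm : MeasurableSet (B2 a) := by
    have h1 : Measurable fun u : S 6 => yc (u : E 6) :=
      (continuous_yc.comp continuous_subtype_val).measurable
    have h2 : Measurable fun u : S 6 => zc (u : E 6) :=
      (continuous_zc.comp continuous_subtype_val).measurable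
    exact measurableSet_eq_fun h1 (h2.const_mul a)
  apply surf_null (LinearMap.ker ((EuclideanSpace.proj (𝕜 := ℝ) (5 : Fin 6)).toLinearMap -
    a • (EuclideanSpace.proj (𝕜 := ℝ) (4 : Fin 6)).toLinearMap)) _ _ hm
  · intro w hw
    rw [LinearMap.mem_ker]
    change (w : E 6) 5 - a * (w : E 6) 4 = 0
    have : (w : E 6) 5 = a * (w : E 6) 4 := hw
    rw [this, sub_self]
  · intro htop
    rw [LinearMap.ker_eq_top] at htop
    have := LinearMap.congr_fun htop (EuclideanSpace.single 5 1)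
    simp at this

theorem revGauss_subset {θ : ℝ} (hθ : 0 < θ) (ω : Set (S 6)) :
    revGauss (K θ) ω ⊆ ((An θ ω ∪ Z0 θ) ∪ B1) ∪ (B2 θ ∪ B2 (-θ)) := by
  intro w hw
  by_contra hcon
  simp only [mem_union, not_or] at hcon
  obtain ⟨⟨⟨hA, hZ⟩, hB1⟩, hB2, hB2'⟩ := hcon
  apply hA
  obtain ⟨u, hu, huω⟩ := hw
  have hw0 := sph_ne_zero w
  have hρ : 0 < radialFn (K θ) w := by
    simp only [Z0, mem_ofPred_eq, not_forall, not_not] at hZ
    obtain ⟨m, hm⟩ := hZ
    have h1 := le_radialFn (isCompact_K hθ) hw0 (by positivity) hm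
    refine lt_of_lt_of_le ?_ h1
    positivity
  set ρ := radialFn (K θ) w with hρdef
  have hPK : ρ • (w : E 6) ∈ K θ := radialFn_mem (isCompact_K hθ) (zero_mem_K θ) hw0
  set P := ρ • (w : E 6) with hP
  have hx : xc P ≠ 0 := by
    rw [hP, xc_smul]
    exact smul_ne_zero hρ.ne' hB1
  have hz : 0 < zc P := by
    rcases hPK.1.1.eq_or_lt with h | h
    · exfalso
      have h1 := sc_sq_le hθ hPK
      rw [← h, mul_zero] at h1
      have h2 := dot_self_pos hx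
      change 0 < sc P at h2
      nlinarith
    · exact h
  have hy : |yc P| < θ * zc P := by
    rcases hPK.1.2.eq_or_lt with h | h
    · exfalso
      rcases abs_eq (mul_pos hθ hz).le |>.1 h with h1 | h1
      · apply hB2
        rw [hP, yc_smul, zc_smul] at h1
        have : ρ * yc (w : E 6) = ρ * (θ * zc (w : E 6)) := by rw [h1]; ring
        exact mul_left_cancel₀ hρ.ne' this
      · apply hB2'
        rw [hP, yc_smul, zc_smul] at h1
        have : ρ * yc (w : E 6) = ρ * (-θ * zc (w : E 6)) := by rw [h1]; ring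
        exact mul_left_cancel₀ hρ.ne' this
    · exact h
  obtain ⟨hG, c, hc, hcu⟩ := normal_eq hθ hz hy hPK.2 (sph_ne_zero u) hu
  have hb := par_bd hθ hz hy hx
  have hPp := pos_par hθ hz hy hx hG
  have hk := kap_pos hb.2.2
  rw [An_iff hθ]
  refine ⟨par θ P, hb, ?_, 1 / ρ, by positivity, ?_⟩
  · have hnor : T (norV θ (par θ P)) = (kap (tv (par θ P)) / c) • (u : E 6) := by
      rw [nor_eq hθ hb, hPp, hcu, smul_smul, div_mul_cancel₀ _ hc.ne']
    rw [dirS_eq (by positivity) hnor]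
    exact huω
  · rw [hPp, hP, smul_smul, one_div, inv_mul_cancel₀ hρ.ne', one_smul]

theorem dualCurv_K {θ : ℝ} (hθ : 0 < θ) {ω : Set (S 6)} (hω : MeasurableSet ω) :
    dualCurv 6 (K θ) ω = 6 * volume (Cn θ ω) := by
  rw [← lint_An hθ hω]
  unfold dualCurv
  have e : ∀ w : S 6, radialFn (K θ) w ^ (6 : ℝ) = radialFn (K θ) w ^ 6 := by
    intro w
    rw [show (6 : ℝ) = ((6 : ℕ) : ℝ) by norm_num, Real.rpow_natCast]
  simp_rw [e]
  apply le_antisymm
  · refine (lintegral_mono_set (revGauss_subset hθ ω)).trans ?_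
    refine (lintegral_union_le _ _ _).trans ?_
    have h1 : ∫⁻ w in B2 θ ∪ B2 (-θ), ENNReal.ofReal (radialFn (K θ) w ^ 6) ∂(surf 6) = 0 := by
      apply setLIntegral_measure_zero
      rw [measure_union_null_iff]
      exact ⟨surf_B2 θ, surf_B2 (-θ)⟩
    rw [h1, add_zero]
    refine (lintegral_union_le _ _ _).trans ?_
    rw [setLIntegral_measure_zero B1 _ surf_B1, add_zero]
    refine (lintegral_union_le _ _ _).trans ?_
    have h2 : ∫⁻ w in Z0 θ, ENNReal.ofReal (radialFn (K θ) w ^ 6) ∂(surf 6) = 0 := by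
      rw [setLIntegral_congr_fun (g := fun _ => 0) (measurableSet_Z0 hθ)]
      · simp
      · intro w hw
        simp only
        rw [radial_Z0 hθ hw]
        simp
    rw [h2, add_zero]
  · exact lintegral_mono_set (An_subset hθ ω)

/-- the dual curvature measure of `K_θ` -/
noncomputable def nuK (θ : ℝ) : Measure (S 6) :=
  (6 : ℝ≥0∞) • Measure.map (dirN θ) ((volume.restrict Pi1).withDensity
    (fun v => ENNReal.ofReal (nm (av v) ^ 2 * J1 θ (mv v) (tv v))))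

theorem nuK_apply {θ : ℝ} (hθ : 0 < θ) {ω : Set (S 6)} (hω : MeasurableSet ω) :
    nuK θ ω = dualCurv 6 (K θ) ω := by
  rw [dualCurv_K hθ hω, Cn, vol_pos θ hθ hω]
  unfold nuK
  rw [Measure.smul_apply, smul_eq_mul, Measure.map_apply (measurable_dirN θ) hω,
    withDensity_apply _ (measurable_dirN θ hω), Measure.restrict_restrict (measurable_dirN θ hω)]
  have : (dirN θ) ⁻¹' ω ∩ Pi1 = Sig θ ω := by
    ext v
    simp only [mem_inter_iff, mem_preimage, Sig, mem_ofPred_eq, dirN]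
    tauto
  rw [this]

theorem isLpDualCurv_K {θ : ℝ} (hθ : 0 < θ) {a : ℝ} (ha : 0 < a) :
    IsLpDualCurv 0 6 (a • K θ) (ENNReal.ofReal (a ^ (6 : ℝ)) • nuK θ) := by
  refine ⟨ENNReal.ofReal (a ^ (6 : ℝ)) • nuK θ, ?_, ?_⟩
  · intro ω hω
    rw [Measure.smul_apply, smul_eq_mul, nuK_apply hθ hω, dualCurv_smul _ ha]
  · simp only [neg_zero, ENNReal.rpow_zero]
    rw [show (fun _ : S 6 => (1 : ℝ≥0∞)) = 1 from rfl, withDensity_one]

theorem twoSided_K {θ : ℝ} (hθ : 0 < θ) (hθ1 : θ ≤ 1 / 10) :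
    TwoSided 0 6 50000000 ((θ ^ (-(1 / 6) : ℝ)) • K θ) := by
  have ha : 0 < θ ^ (-(1 / 6) : ℝ) := Real.rpow_pos_of_pos hθ _
  refine ⟨_, isLpDualCurv_K hθ ha, ?_⟩
  intro ω hω
  have ha6 : (θ ^ (-(1 / 6) : ℝ)) ^ (6 : ℝ) = θ⁻¹ := by
    rw [← Real.rpow_mul hθ.le]
    norm_num
    rw [Real.rpow_neg_one]
  rw [Measure.smul_apply, smul_eq_mul, nuK_apply hθ hω, dualCurv_K hθ hω, ha6]
  have h1 := vol_le hθ hω
  have h2 := le_vol hθ (by linarith) hω
  have h3 := nor_le hθ (by linarith) hω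
  have h4 := le_nor hθ hθ1 hω
  change 10 * volume (Cn θ ω) ≤ _ at h1
  change _ ≤ 10000 * volume (Cn θ ω) at h2
  set VC := volume (Cn θ ω)
  set VD := volume (T '' (norV θ '' Sig θ ω))
  have hθθ : ENNReal.ofReal θ⁻¹ * ENNReal.ofReal θ = 1 := by
    rw [← ENNReal.ofReal_mul (by positivity), inv_mul_cancel₀ hθ.ne', ENNReal.ofReal_one]
  constructor
  · have h5 : surf 6 ω ≤ 40960000 * (ENNReal.ofReal θ⁻¹ * (6 * VC)) := by
      calc surf 6 ω ≤ 4 ^ 6 * (6 * VD) := h4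
        _ = (ENNReal.ofReal θ⁻¹ * ENNReal.ofReal θ) * (4 ^ 6 * (6 * VD)) := by rw [hθθ, one_mul]
        _ = ENNReal.ofReal θ⁻¹ * (4 ^ 6 * 6 * (ENNReal.ofReal θ * VD)) := by ring
        _ ≤ ENNReal.ofReal θ⁻¹ * (4 ^ 6 * 6 * (10000 * VC)) := by gcongr
        _ = _ := by ring
    have h6 : ENNReal.ofReal (50000000 : ℝ)⁻¹ * 40960000 ≤ 1 := by
      rw [show (40960000 : ℝ≥0∞) = ENNReal.ofReal 40960000 by simp,
        ← ENNReal.ofReal_mul (by norm_num), ← ENNReal.ofReal_one]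
      apply ENNReal.ofReal_le_ofReal
      norm_num
    calc ENNReal.ofReal (50000000 : ℝ)⁻¹ * surf 6 ω ≤
        ENNReal.ofReal (50000000 : ℝ)⁻¹ * (40960000 * (ENNReal.ofReal θ⁻¹ * (6 * VC))) := by gcongr
      _ = (ENNReal.ofReal (50000000 : ℝ)⁻¹ * 40960000) * (ENNReal.ofReal θ⁻¹ * (6 * VC)) := by ring
      _ ≤ 1 * (ENNReal.ofReal θ⁻¹ * (6 * VC)) := by gcongr
      _ = _ := one_mul _
  · calc ENNReal.ofReal θ⁻¹ * (6 * VC) ≤ ENNReal.ofReal θ⁻¹ * (6 * (10 * VC)) := by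
          gcongr
          calc VC = 1 * VC := (one_mul _).symm
            _ ≤ 10 * VC := by gcongr; norm_num
      _ ≤ ENNReal.ofReal θ⁻¹ * (6 * (ENNReal.ofReal θ * VD)) := by gcongr
      _ = (ENNReal.ofReal θ⁻¹ * ENNReal.ofReal θ) * (6 * VD) := by ring
      _ = 6 * VD := by rw [hθθ, one_mul]
      _ ≤ 8 ^ 6 * surf 6 ω := h3
      _ ≤ ENNReal.ofReal 50000000 * surf 6 ω := by
          gcongr
          rw [show (8 : ℝ≥0∞) ^ 6 = ENNReal.ofReal (8 ^ 6) by
            rw [ENNReal.ofReal_pow (by norm_num)]; simp]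
          apply ENNReal.ofReal_le_ofReal
          norm_num

/-- the unit vector in the direction of `z` -/
noncomputable def ez : E 6 := EuclideanSpace.single 4 1

theorem ez_mem {θ : ℝ} (hθ : 0 < θ) : ez ∈ K θ := by
  have hz : zc ez = 1 := by simp [zc, ez]
  have hy : yc ez = 0 := by simp [yc, ez]
  have hx : xc ez = 0 := by
    funext i
    fin_cases i <;> simp [xc, ez] <;> rfl
  refine ⟨⟨by rw [hz]; norm_num, by rw [hy, hz]; simp; positivity⟩, ?_⟩
  unfold G R sc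
  rw [hz, hy, hx]
  simp [kap_zero]
  exact hθ.le

theorem large_support {θ : ℝ} (hθ : 0 < θ) : ∃ u : S 6,
    θ ^ (-(1 / 6) : ℝ) ≤ supportFn ((θ ^ (-(1 / 6) : ℝ)) • K θ) u := by
  have ha : 0 < θ ^ (-(1 / 6) : ℝ) := Real.rpow_pos_of_pos hθ _
  refine ⟨⟨ez, by simp [ez]⟩, ?_⟩
  rw [supportFn_smul _ ha]
  have h := le_supportFn (isCompact_K hθ) ez (ez_mem hθ)
  have h1 : ⟪ez, ez⟫_ℝ = 1 := by rw [real_inner_self_eq_norm_sq]; simp [ez]
  rw [h1] at h
  have := mul_le_mul_of_nonneg_left h ha.le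
  rw [mul_one] at this
  exact this

/-- For `n = 6`, `p = 0`, `q = 6`, `λ = 5·10⁷` there are bodies with arbitrarily large support
function. -/
theorem main (C : ℝ) : ∃ K' : Set (E 6), IsBody K' ∧ TwoSided 0 6 50000000 K' ∧
    ∃ u : S 6, C < supportFn K' u := by
  set M : ℝ := |C| + 2 with hM
  have hM1 : 2 ≤ M := by have := abs_nonneg C; linarith
  set θ : ℝ := (M ^ 6)⁻¹ with hθdef
  have hθ : 0 < θ := by positivity
  have hθ1 : θ ≤ 1 / 10 := by
    rw [hθdef, one_div]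
    apply inv_anti₀ (by norm_num)
    calc (10 : ℝ) ≤ 2 ^ 6 := by norm_num
      _ ≤ M ^ 6 := pow_le_pow_left₀ (by norm_num) hM1 6
  have ha : 0 < θ ^ (-(1 / 6) : ℝ) := Real.rpow_pos_of_pos hθ _
  have haM : θ ^ (-(1 / 6) : ℝ) = M := by
    rw [hθdef, ← Real.rpow_natCast, ← Real.rpow_neg (by linarith), ← Real.rpow_mul (by linarith)]
    norm_num
  refine ⟨(θ ^ (-(1 / 6) : ℝ)) • K θ, isBody_smul (isBody_K hθ) ha, twoSided_K hθ hθ1, ?_⟩
  obtain ⟨u, hu⟩ := large_support hθ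
  refine ⟨u, lt_of_lt_of_le ?_ hu⟩
  rw [haM, hM]
  have := le_abs_self C
  linarith

end Pool.Agent.H223.DM
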