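import Pool.Agent.H223.DM.Bounds

/-!
# Injectivity of the parametrisations and the cones over sets of normals
-/

set_option autoImplicit false

namespace Pool.Agent.H223.DM

open MeasureTheory Metric Set Filter Topology
open scoped ENNReal InnerProductSpace

/-- the parameter of the boundary point on the same ray -/
noncomputable def unitp (v : V) : V := scl (nm (av v))⁻¹ v

/-- all parameters -/
def Pi0 : Set V := {v | av v ≠ 0 ∧ 0 < mv v ∧ |tv v| < 1}

theorem unitp_bd {v : V} (hv : v ∈ Pi0) : Bd (unitp v) := by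
  obtain ⟨h1, h2, h3⟩ := hv
  refine ⟨?_, h2, h3⟩
  unfold unitp
  rw [av_scl, nm_smul (inv_nonneg.2 (nm_nonneg _)), inv_mul_cancel₀ (nm_pos h1).ne']

theorem scl_unitp {v : V} (hv : v ∈ Pi0) : scl (nm (av v)) (unitp v) = v := by
  apply V_ext
  · unfold unitp
    rw [av_scl, av_scl, smul_smul, mul_inv_cancel₀ (nm_pos hv.1).ne', one_smul]
  · rfl
  · rfl

theorem bd_mem_K {θ : ℝ} (hθ : 0 < θ) {v : V} (hv : Bd v) : T (posV θ v) ∈ K θ :=
  ⟨⟨(zc_pos_pos hθ hv).le, (yc_lt_pos hθ hv).le⟩, (G_pos_bd hθ hv).le⟩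

theorem par_pos {θ : ℝ} (hθ : 0 < θ) {v : V} (hv : Bd v) : par θ (T (posV θ v)) = v := by
  have hr := rf_pos (t := tv v) hθ hv.2.1
  have hx : xc (T (posV θ v)) = rf θ (mv v) (tv v) • av v := by
    unfold posV
    rw [xc_Fm]
  apply V_ext
  · change (nm (xc (T (posV θ v))))⁻¹ • xc (T (posV θ v)) = av v
    rw [hx, nm_smul hr.le, hv.1, mul_one, smul_smul, inv_mul_cancel₀ hr.ne', one_smul]
  · change sc (T (posV θ v)) / zc (T (posV θ v)) = mv v
    rw [sc_pos_bd hθ hv, zc_pos_bd hθ hv, mul_div_cancel_right₀ _ (Zf_pos hθ hv.2.1).ne']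
  · exact tc_pos_bd hθ hv

theorem pos_inj_bd {θ : ℝ} (hθ : 0 < θ) {v w : V} (hv : Bd v) (hw : Bd w)
    (h : T (posV θ v) = T (posV θ w)) : v = w := by
  rw [← par_pos hθ hv, h, par_pos hθ hw]

theorem ray_le {θ : ℝ} (hθ : 0 < θ) {v : V} (hv : Bd v) {c : ℝ}
    (h : c • T (posV θ v) ∈ K θ) : c ≤ 1 := by
  have hp := inner_N_pos hθ (zc_pos_pos hθ hv) (yc_lt_pos hθ hv) (G_pos_bd hθ hv)
  by_contra hcon
  push Not at hcon
  have hne : c • T (posV θ v) ≠ T (posV θ v) := by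
    intro h'
    have : ⟪N θ (T (posV θ v)), c • T (posV θ v)⟫_ℝ = ⟪N θ (T (posV θ v)), T (posV θ v)⟫_ℝ := by
      rw [h']
    rw [inner_smul_right] at this
    nlinarith
  have := N_normal hθ (zc_pos_pos hθ hv) (yc_lt_pos hθ hv) (G_pos_bd hθ hv) h hne
  rw [inner_smul_right] at this
  nlinarith

theorem pos_inj {θ : ℝ} (hθ : 0 < θ) : InjOn (posV θ) Pi0 := by
  intro v hv w hw h
  have hv1 := unitp_bd hv
  have hw1 := unitp_bd hw
  have ha := nm_pos hv.1
  have hb := nm_pos hw.1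
  have e1 : T (posV θ v) = nm (av v) • T (posV θ (unitp v)) := by
    conv_lhs => rw [← scl_unitp hv]
    unfold posV
    rw [Fm_scl _ _ _ ha.le, T_smul]
  have e2 : T (posV θ w) = nm (av w) • T (posV θ (unitp w)) := by
    conv_lhs => rw [← scl_unitp hw]
    unfold posV
    rw [Fm_scl _ _ _ hb.le, T_smul]
  have e3 : nm (av v) • T (posV θ (unitp v)) = nm (av w) • T (posV θ (unitp w)) := by
    rw [← e1, ← e2, h]
  have e4 : T (posV θ (unitp v)) = (nm (av w) / nm (av v)) • T (posV θ (unitp w)) := by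
    rw [div_eq_inv_mul, mul_smul, ← e3, smul_smul, inv_mul_cancel₀ ha.ne', one_smul]
  have e5 : T (posV θ (unitp w)) = (nm (av v) / nm (av w)) • T (posV θ (unitp v)) := by
    rw [div_eq_inv_mul, mul_smul, e3, smul_smul, inv_mul_cancel₀ hb.ne', one_smul]
  have i1 := ray_le hθ hw1 (c := nm (av w) / nm (av v)) (by rw [← e4]; exact bd_mem_K hθ hv1)
  have i2 := ray_le hθ hv1 (c := nm (av v) / nm (av w)) (by rw [← e5]; exact bd_mem_K hθ hw1)
  rw [div_le_one ha] at i1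
  rw [div_le_one hb] at i2
  have i3 := le_antisymm i1 i2
  have e6 : unitp v = unitp w := by
    apply pos_inj_bd hθ hv1 hw1
    rw [e4, i3, div_self ha.ne', one_smul]
  rw [← scl_unitp hv, ← scl_unitp hw, e6, i3]

theorem nor_ne_zero {θ : ℝ} (hθ : 0 < θ) {v : V} (hv : Bd v) : T (norV θ v) ≠ 0 := by
  rw [nor_eq hθ hv]
  exact smul_ne_zero (kap_pos hv.2.2).ne'
    (N_ne_zero hθ (zc_pos_pos hθ hv) (yc_lt_pos hθ hv) (G_pos_bd hθ hv))

theorem nor_inj {θ : ℝ} (hθ : 0 < θ) : InjOn (norV θ) Pi0 := by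
  intro v hv w hw h
  have hv1 := unitp_bd hv
  have hw1 := unitp_bd hw
  have ha := nm_pos hv.1
  have hb := nm_pos hw.1
  have e1 : T (norV θ v) = nm (av v) • T (norV θ (unitp v)) := by
    conv_lhs => rw [← scl_unitp hv]
    unfold norV
    rw [Fm_scl _ _ _ ha.le, T_smul]
  have e2 : T (norV θ w) = nm (av w) • T (norV θ (unitp w)) := by
    conv_lhs => rw [← scl_unitp hw]
    unfold norV
    rw [Fm_scl _ _ _ hb.le, T_smul]
  have e3 : nm (av v) • T (norV θ (unitp v)) = nm (av w) • T (norV θ (unitp w)) := by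
    rw [← e1, ← e2, h]
  have e4 : unitp v = unitp w := by
    apply pos_inj_bd hθ hv1 hw1
    by_contra hne
    have k1 := kap_pos hv1.2.2
    have k2 := kap_pos hw1.2.2
    rw [nor_eq hθ hv1, nor_eq hθ hw1, smul_smul, smul_smul] at e3
    set P := T (posV θ (unitp v)) with hP
    set Q := T (posV θ (unitp w)) with hQ
    have n1 := N_normal hθ (zc_pos_pos hθ hv1) (yc_lt_pos hθ hv1) (G_pos_bd hθ hv1)
      (bd_mem_K hθ hw1) (fun h => hne h.symm)
    have n2 := N_normal hθ (zc_pos_pos hθ hw1) (yc_lt_pos hθ hw1) (G_pos_bd hθ hw1)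
      (bd_mem_K hθ hv1) hne
    have p1 : 0 < nm (av v) * kap (tv (unitp v)) := by positivity
    have p2 : 0 < nm (av w) * kap (tv (unitp w)) := by positivity
    have m1 := mul_lt_mul_of_pos_left n1 p1
    have m2 := mul_lt_mul_of_pos_left n2 p2
    rw [← real_inner_smul_left, ← real_inner_smul_left] at m1 m2
    rw [e3] at m1
    exact lt_asymm m1 m2
  have e5 : nm (av v) = nm (av w) := by
    rw [e4] at e3
    exact smul_left_injective ℝ (nor_ne_zero hθ hw1) e3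
  rw [← scl_unitp hv, ← scl_unitp hw, e4, e5]

/-- The direction of a vector. -/
noncomputable def dirE (x : E 6) : E 6 :=
  open Classical in if x = 0 then EuclideanSpace.single 0 1 else ‖x‖⁻¹ • x

theorem dirE_norm (x : E 6) : ‖dirE x‖ = 1 := by
  unfold dirE
  split_ifs with h
  · simp
  · rw [norm_smul, norm_inv, norm_norm, inv_mul_cancel₀ (norm_ne_zero_iff.2 h)]

/-- The direction of a vector, as a point of the sphere. -/
noncomputable def dirS (x : E 6) : S 6 := ⟨dirE x, by rw [mem_sphere_zero_iff_norm]; exact dirE_norm x⟩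

theorem measurable_dirE : Measurable dirE := by
  unfold dirE
  apply Measurable.ite (measurableSet_singleton 0) measurable_const
  fun_prop

theorem measurable_dirS : Measurable dirS := measurable_dirE.subtype_mk

theorem dirS_eq {u : S 6} {c : ℝ} (hc : 0 < c) {x : E 6} (h : x = c • (u : E 6)) : dirS x = u := by
  have hu : ‖(u : E 6)‖ = 1 := by simpa using u.2
  have hu0 : (u : E 6) ≠ 0 := by
    intro h0
    rw [h0] at hu
    simp at hu
  apply Subtype.ext
  change dirE x = u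
  unfold dirE
  rw [h, if_neg (smul_ne_zero hc.ne' hu0), norm_smul, hu, mul_one, Real.norm_eq_abs, abs_of_pos hc,
    smul_smul, inv_mul_cancel₀ hc.ne', one_smul]

theorem eq_smul_dirS {x : E 6} (hx : x ≠ 0) : x = ‖x‖ • (dirS x : E 6) := by
  change x = ‖x‖ • dirE x
  unfold dirE
  rw [if_neg hx, smul_smul, mul_inv_cancel₀ (norm_ne_zero_iff.2 hx), one_smul]

theorem dirS_smul {x : E 6} (hx : x ≠ 0) {c : ℝ} (hc : 0 < c) : dirS (c • x) = dirS x := by
  apply dirS_eq (c := c * ‖x‖) (mul_pos hc (norm_pos_iff.2 hx))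
  rw [mul_smul, ← eq_smul_dirS hx]

/-- parameters with `|a| < 1` -/
def Pi1 : Set V := {v | v ∈ Pi0 ∧ nm (av v) < 1}

/-- The parameters for which the normal is in `ω`. -/
def Sig (θ : ℝ) (ω : Set (S 6)) : Set V := {v | v ∈ Pi1 ∧ dirS (T (norV θ v)) ∈ ω}

theorem Sig_subset (θ : ℝ) (ω : Set (S 6)) : Sig θ ω ⊆ Pi0 := fun _ h => h.1.1

theorem dirS_nor {θ : ℝ} (hθ : 0 < θ) {v : V} (hv : v ∈ Pi0) :
    dirS (T (norV θ v)) = dirS (T (norV θ (unitp v))) := by
  conv_lhs => rw [← scl_unitp hv]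
  unfold norV
  rw [Fm_scl _ _ _ (nm_nonneg _), T_smul]
  exact dirS_smul (nor_ne_zero hθ (unitp_bd hv)) (nm_pos hv.1)

/-- The cone generated by the image of boundary parameters. -/
theorem mem_cone_iff {θ : ℝ} (hθ : 0 < θ) (α β₁ β₂ : ℝ → ℝ → ℝ) (ω : Set (S 6)) (x : E 6) :
    x ∈ T '' (Fm α β₁ β₂ '' Sig θ ω) ↔ ∃ v, Bd v ∧ dirS (T (norV θ v)) ∈ ω ∧
      ∃ c : ℝ, 0 < c ∧ c < 1 ∧ x = c • T (Fm α β₁ β₂ v) := by
  constructor
  · rintro ⟨_, ⟨v, hv, rfl⟩, rfl⟩
    refine ⟨unitp v, unitp_bd hv.1.1, ?_, nm (av v), nm_pos hv.1.1.1, hv.1.2, ?_⟩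
    · rw [← dirS_nor hθ hv.1.1]
      exact hv.2
    · rw [← T_smul, ← Fm_scl _ _ _ (nm_nonneg _), scl_unitp hv.1.1]
  · rintro ⟨v, hv, hω, c, hc0, hc1, rfl⟩
    have hn : nm (av (scl c v)) = c := by rw [av_scl, nm_smul hc0.le, hv.1, mul_one]
    have hmem : scl c v ∈ Pi0 := by
      refine ⟨?_, hv.2.1, hv.2.2⟩
      intro h
      rw [h] at hn
      simp only [nm, dot_zero_left, Real.sqrt_zero] at hn
      linarith
    refine ⟨Fm α β₁ β₂ (scl c v), ⟨scl c v, ⟨⟨hmem, by rw [hn]; exact hc1⟩, ?_⟩, rfl⟩, ?_⟩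
    · change dirS (T (Fm _ _ _ (scl c v))) ∈ ω
      rw [Fm_scl _ _ _ hc0.le, T_smul]
      change dirS (c • T (norV θ v)) ∈ ω
      rw [dirS_smul (nor_ne_zero hθ hv) hc0]
      exact hω
    · rw [Fm_scl _ _ _ hc0.le, T_smul]

end Pool.Agent.H223.DM
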