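import Pool.Agent.H223.DM.Param

/-!
# Derivatives and determinants of the maps `(a, b) ↦ (α(b) a, |a| β(b))`
-/

set_option autoImplicit false

namespace Pool.Agent.H223.DM

open MeasureTheory Metric Set Filter Topology
open scoped ENNReal InnerProductSpace

/-- the derivative of `f` at `v` is `a dμ + b dτ` -/
def D2 (f : V → ℝ) (a b : ℝ) (v : V) : Prop :=
  HasFDerivAt f (a • (ContinuousLinearMap.proj (Sum.inr 0) : V →L[ℝ] ℝ) +
    b • (ContinuousLinearMap.proj (Sum.inr 1) : V →L[ℝ] ℝ)) v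

theorem D2.congr {f : V → ℝ} {a b a' b' : ℝ} {v : V} (h : D2 f a b v) (h1 : a = a')
    (h2 : b = b') : D2 f a' b' v := by
  rw [← h1, ← h2]; exact h

theorem D2_mv (v : V) : D2 mv 1 0 v := by
  unfold D2
  have : HasFDerivAt mv (ContinuousLinearMap.proj (Sum.inr 0) : V →L[ℝ] ℝ) v :=
    (ContinuousLinearMap.proj (Sum.inr 0) : V →L[ℝ] ℝ).hasFDerivAt
  simpa using this

theorem D2_tv (v : V) : D2 tv 0 1 v := by
  unfold D2
  have : HasFDerivAt tv (ContinuousLinearMap.proj (Sum.inr 1) : V →L[ℝ] ℝ) v :=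
    (ContinuousLinearMap.proj (Sum.inr 1) : V →L[ℝ] ℝ).hasFDerivAt
  simpa using this

theorem D2_const (c : ℝ) (v : V) : D2 (fun _ => c) 0 0 v := by
  unfold D2
  simpa using hasFDerivAt_const c v

theorem D2.mul {f g : V → ℝ} {a b c d : ℝ} {v : V} (hf : D2 f a b v) (hg : D2 g c d v) :
    D2 (fun x => f x * g x) (a * g v + f v * c) (b * g v + f v * d) v := by
  unfold D2 at *
  refine (HasFDerivAt.mul hf hg).congr_fderiv ?_
  ext h
  simp
  ring

theorem D2.add {f g : V → ℝ} {a b c d : ℝ} {v : V} (hf : D2 f a b v) (hg : D2 g c d v) :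
    D2 (fun x => f x + g x) (a + c) (b + d) v := by
  unfold D2 at *
  refine (HasFDerivAt.add hf hg).congr_fderiv ?_
  ext h
  simp
  ring

theorem D2.sub {f g : V → ℝ} {a b c d : ℝ} {v : V} (hf : D2 f a b v) (hg : D2 g c d v) :
    D2 (fun x => f x - g x) (a - c) (b - d) v := by
  unfold D2 at *
  refine (HasFDerivAt.sub hf hg).congr_fderiv ?_
  ext h
  simp
  ring

theorem D2.const_mul {f : V → ℝ} {a b : ℝ} {v : V} (c : ℝ) (hf : D2 f a b v) :
    D2 (fun x => c * f x) (c * a) (c * b) v := by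
  have := (D2_const c v).mul hf
  exact this.congr (by ring) (by ring)

theorem D2.comp {φ : ℝ → ℝ} {φ' : ℝ} {f : V → ℝ} {a b : ℝ} {v : V} (hφ : HasDerivAt φ φ' (f v))
    (hf : D2 f a b v) : D2 (fun x => φ (f x)) (φ' * a) (φ' * b) v := by
  unfold D2 at *
  refine (hφ.comp_hasFDerivAt v hf).congr_fderiv ?_
  ext h
  simp
  ring

theorem D2.pow {f : V → ℝ} {a b : ℝ} {v : V} (n : ℕ) (hf : D2 f a b v) :
    D2 (fun x => f x ^ n) (n * f v ^ (n - 1) * a) (n * f v ^ (n - 1) * b) v :=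
  D2.comp (φ := fun y => y ^ n) (hasDerivAt_pow n (f v)) hf

/-- derivative of `|a|` -/
theorem hasFDerivAt_nm {v : V} (hv : av v ≠ 0) :
    HasFDerivAt (fun x : V => nm (av x)) (∑ i, (v (Sum.inl i) / nm (av v)) •
      (ContinuousLinearMap.proj (Sum.inl i) : V →L[ℝ] ℝ)) v := by
  have h1 : HasFDerivAt (fun x : V => dot (av x) (av x)) (∑ i : Fin 4, (2 * v (Sum.inl i)) •
      (ContinuousLinearMap.proj (Sum.inl i) : V →L[ℝ] ℝ)) v := by
    unfold dot
    apply HasFDerivAt.fun_sum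
    intro i _
    have h2 : HasFDerivAt (fun x : V => av x i)
        (ContinuousLinearMap.proj (Sum.inl i) : V →L[ℝ] ℝ) v :=
      (ContinuousLinearMap.proj (Sum.inl i) : V →L[ℝ] ℝ).hasFDerivAt
    refine (h2.mul h2).congr_fderiv ?_
    ext h
    simp only [av, ContinuousLinearMap.add_apply, ContinuousLinearMap.smul_apply,
      ContinuousLinearMap.proj_apply, smul_eq_mul]
    ring
  have hpos := dot_self_pos hv
  have h3 := (Real.hasDerivAt_sqrt hpos.ne').comp_hasFDerivAt v h1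
  refine h3.congr_fderiv ?_
  rw [Finset.smul_sum]
  apply Finset.sum_congr rfl
  intro i _
  rw [smul_smul]
  congr 1
  have : (0 : ℝ) < nm (av v) := nm_pos hv
  change 1 / (2 * nm (av v)) * (2 * v (Sum.inl i)) = _
  field_simp

/-- The matrix of the derivative. -/
noncomputable def Mx (v : V) (α am at' β₁ b1m b1t β₂ b2m b2t : ℝ) :
    Matrix (Fin 4 ⊕ Fin 2) (Fin 4 ⊕ Fin 2) ℝ :=
  Matrix.fromBlocks (α • (1 : Matrix (Fin 4) (Fin 4) ℝ))
    (Matrix.of fun i l => v (Sum.inl i) * (![am, at'] l))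
    (Matrix.of fun j i => (![β₁, β₂] j) * (v (Sum.inl i) / nm (av v)))
    (Matrix.of fun j l => nm (av v) * (![![b1m, b1t], ![b2m, b2t]] j l))

theorem hasFDerivAt_Fm {α β₁ β₂ : ℝ → ℝ → ℝ} {v : V} (hv : av v ≠ 0)
    {am at' b1m b1t b2m b2t : ℝ} (hα : D2 (fun x => α (mv x) (tv x)) am at' v)
    (h1 : D2 (fun x => β₁ (mv x) (tv x)) b1m b1t v)
    (h2 : D2 (fun x => β₂ (mv x) (tv x)) b2m b2t v) :
    HasFDerivAt (Fm α β₁ β₂) (LinearMap.toContinuousLinearMap (Matrix.toLin'
      (Mx v (α (mv v) (tv v)) am at' (β₁ (mv v) (tv v)) b1m b1t (β₂ (mv v) (tv v)) b2m b2t))) v := by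
  rw [hasFDerivAt_pi']
  intro j
  rcases j with i | j
  · have h3 : HasFDerivAt (fun x : V => α (mv x) (tv x) * x (Sum.inl i)) _ v :=
      HasFDerivAt.mul hα (ContinuousLinearMap.proj (Sum.inl i) : V →L[ℝ] ℝ).hasFDerivAt
    refine h3.congr_fderiv ?_
    ext h
    simp only [ContinuousLinearMap.add_apply, ContinuousLinearMap.smul_apply,
      ContinuousLinearMap.proj_apply, smul_eq_mul, ContinuousLinearMap.comp_apply,
      LinearMap.coe_toContinuousLinearMap', Matrix.toLin'_apply, Mx, Matrix.mulVec, dotProduct,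
      Fintype.sum_sum_type, Matrix.fromBlocks_apply₁₁, Matrix.fromBlocks_apply₁₂,
      Matrix.smul_apply, Matrix.one_apply, Matrix.of_apply, Fin.sum_univ_two,
      Matrix.cons_val_zero, Matrix.cons_val_one]
    have : ∀ i : Fin 4, ∑ x : Fin 4, (α (mv v) (tv v) * if i = x then 1 else 0) * h (Sum.inl x) =
        α (mv v) (tv v) * h (Sum.inl i) := by
      intro i
      rw [Finset.sum_eq_single i]
      · simp
      · intro b _ hb
        rw [if_neg (Ne.symm hb)]; ring
      · simp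
    rw [this]
    ring
  · have hn := hasFDerivAt_nm hv
    fin_cases j
    · have h3 : HasFDerivAt (fun x : V => nm (av x) * β₁ (mv x) (tv x)) _ v := HasFDerivAt.mul hn h1
      refine h3.congr_fderiv ?_
      ext h
      simp only [ContinuousLinearMap.add_apply, ContinuousLinearMap.smul_apply,
        ContinuousLinearMap.proj_apply, smul_eq_mul, ContinuousLinearMap.comp_apply,
        LinearMap.coe_toContinuousLinearMap', Matrix.toLin'_apply, Mx, Matrix.mulVec, dotProduct,
        Fintype.sum_sum_type, Matrix.fromBlocks_apply₂₁, Matrix.fromBlocks_apply₂₂,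
        Matrix.of_apply, Fin.sum_univ_two, ContinuousLinearMap.sum_apply,
        Matrix.cons_val_zero, Matrix.cons_val_one, Fin.zero_eta]
      rw [Finset.mul_sum]
      have e : ∑ x : Fin 4, β₁ (mv v) (tv v) * (v (Sum.inl x) / nm (av v)) * h (Sum.inl x) =
        ∑ x : Fin 4, β₁ (mv v) (tv v) * (v (Sum.inl x) / nm (av v) * h (Sum.inl x)) :=
        Finset.sum_congr rfl fun _ _ => by ring
      rw [e]
      ring
    · have h3 : HasFDerivAt (fun x : V => nm (av x) * β₂ (mv x) (tv x)) _ v := HasFDerivAt.mul hn h2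
      refine h3.congr_fderiv ?_
      ext h
      simp only [ContinuousLinearMap.add_apply, ContinuousLinearMap.smul_apply,
        ContinuousLinearMap.proj_apply, smul_eq_mul, ContinuousLinearMap.comp_apply,
        LinearMap.coe_toContinuousLinearMap', Matrix.toLin'_apply, Mx, Matrix.mulVec, dotProduct,
        Fintype.sum_sum_type, Matrix.fromBlocks_apply₂₁, Matrix.fromBlocks_apply₂₂,
        Matrix.of_apply, Fin.sum_univ_two, ContinuousLinearMap.sum_apply,
        Matrix.cons_val_zero, Matrix.cons_val_one, Fin.mk_one]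
      rw [Finset.mul_sum]
      have e : ∑ x : Fin 4, β₂ (mv v) (tv v) * (v (Sum.inl x) / nm (av v)) * h (Sum.inl x) =
        ∑ x : Fin 4, β₂ (mv v) (tv v) * (v (Sum.inl x) / nm (av v) * h (Sum.inl x)) :=
        Finset.sum_congr rfl fun _ _ => by ring
      rw [e]
      ring

theorem det_Mx {v : V} (hv : av v ≠ 0) {α am at' β₁ b1m b1t β₂ b2m b2t : ℝ} (hα : α ≠ 0) :
    (Mx v α am at' β₁ b1m b1t β₂ b2m b2t).det = nm (av v) ^ 2 * (α ^ 2 *
      ((α * b1m - β₁ * am) * (α * b2t - β₂ * at') - (α * b1t - β₁ * at') * (α * b2m - β₂ * am))) := by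
  have hn := nm_pos hv
  have hinv : Invertible (α • (1 : Matrix (Fin 4) (Fin 4) ℝ)) := by
    refine ⟨α⁻¹ • 1, ?_, ?_⟩
    · rw [smul_mul_smul_comm, inv_mul_cancel₀ hα, one_mul, one_smul]
    · rw [smul_mul_smul_comm, mul_inv_cancel₀ hα, one_mul, one_smul]
  have hinv' : ⅟(α • (1 : Matrix (Fin 4) (Fin 4) ℝ)) = α⁻¹ • 1 := by
    apply invOf_eq_right_inv
    rw [smul_mul_smul_comm, mul_inv_cancel₀ hα, one_mul, one_smul]
  unfold Mx
  rw [Matrix.det_fromBlocks₁₁, hinv', Matrix.det_smul, Matrix.det_one, Fintype.card_fin,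
    Matrix.det_fin_two]
  have key : ∀ (j l : Fin 2), ((Matrix.of fun (j : Fin 2) (i : Fin 4) =>
      (![β₁, β₂] j) * (v (Sum.inl i) / nm (av v))) * (α⁻¹ • (1 : Matrix (Fin 4) (Fin 4) ℝ)) *
      (Matrix.of fun (i : Fin 4) (l : Fin 2) => v (Sum.inl i) * (![am, at'] l))) j l =
      α⁻¹ * (![β₁, β₂] j) * nm (av v) * (![am, at'] l) := by
    intro j l
    rw [Matrix.mul_smul, Matrix.mul_one, Matrix.smul_mul, Matrix.smul_apply, Matrix.mul_apply]
    simp only [Matrix.of_apply, smul_eq_mul]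
    have : ∑ i : Fin 4, (![β₁, β₂] j) * (v (Sum.inl i) / nm (av v)) *
        (v (Sum.inl i) * (![am, at'] l)) = (![β₁, β₂] j) * (![am, at'] l) / nm (av v) *
        dot (av v) (av v) := by
      unfold dot
      rw [Finset.mul_sum]
      apply Finset.sum_congr rfl
      intro i _
      change _ = _ * (v (Sum.inl i) * v (Sum.inl i))
      ring
    rw [this, ← nm_sq]
    field_simp
  simp only [Matrix.sub_apply, key, Matrix.of_apply, Matrix.cons_val_zero, Matrix.cons_val_one]
  field_simp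

end Pool.Agent.H223.DM
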