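import Pool.Agent.H223.DM.Jac

/-!
# The values of the two Jacobians
-/

set_option autoImplicit false

namespace Pool.Agent.H223.DM

open MeasureTheory Metric Set Filter Topology
open scoped ENNReal InnerProductSpace

/-- `1 + 6μ + 6μ² + 8μ³ + 9μ⁴ + 6μ⁵` -/
def Ta (m : ℝ) : ℝ := 1 + 6 * m + 6 * m ^ 2 + 8 * m ^ 3 + 9 * m ^ 4 + 6 * m ^ 5

/-- `2 + 12μ + 12μ² + 10μ³` -/
def Tb (m : ℝ) : ℝ := 2 + 12 * m + 12 * m ^ 2 + 10 * m ^ 3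

/-- the Jacobian of the position map -/
noncomputable def J1 (θ m t : ℝ) : ℝ :=
  θ * m * Pf θ t ^ 4 * (1 + 2 * m + 3 * m ^ 2) / (2 * qf m ^ 5)

/-- the Jacobian of the normal map -/
noncomputable def J2 (θ m t : ℝ) : ℝ :=
  64 / 5 * m * (2 * m + 1) ^ 3 * Pf θ t ^ 6 / qf m ^ 8 *
    (Pf θ t * (1 - 3 / 5 * t ^ 2) * Ta m + 8 / 5 * θ * t ^ 2 * kap t ^ 4 * Tb m)

theorem alg1 {θ m t P q r Z Zm Zt rm rt : ℝ} (hq : q ≠ 0) (hq' : q = 1 + m + m ^ 2)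
    (hr : r ^ 2 = m * Z) (hZ : Z = P / q) (hZm : Zm = -Z * (1 + 2 * m) / q)
    (hrm : 2 * r * rm = Z + m * Zm) :
    r ^ 2 * ((r * Zm - Z * rm) * (r * (θ * Z + θ * t * Zt) - θ * t * Z * rt) -
      (r * Zt - Z * rt) * (r * (θ * t * Zm) - θ * t * Z * rm)) =
      -(θ * m * P ^ 4 * (1 + 2 * m + 3 * m ^ 2) / (2 * q ^ 5)) := by
  have h1 : r * (r * Zm - Z * rm) = -(Z ^ 2 * (1 + 2 * m + 3 * m ^ 2)) / (2 * q) := by
    have : r * (r * Zm - Z * rm) = m * Z * Zm - Z * (Z + m * Zm) / 2 := by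
      linear_combination Zm * hr - Z / 2 * hrm
    rw [this, hZm]
    field_simp
    rw [hq']
    ring
  have h2 : r ^ 2 * ((r * Zm - Z * rm) * (r * (θ * Z + θ * t * Zt) - θ * t * Z * rt) -
      (r * Zt - Z * rt) * (r * (θ * t * Zm) - θ * t * Z * rm)) =
      (r * (r * Zm - Z * rm)) * θ * Z * r ^ 2 := by ring
  rw [h2, h1, hr, hZ]
  field_simp

theorem alg2 {θ m t k kt P q r Z Zm Zt rm rt : ℝ} (hq : q ≠ 0) (hq' : q = 1 + m + m ^ 2)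
    (hk : k ≠ 0) (hk5 : k ^ 5 = 1 - t ^ 2)
    (hr : r ^ 2 = m * Z) (hZ : Z = P / q) (hZm : Zm = -Z * (1 + 2 * m) / q)
    (hZt : Zt = -(8 / 5) * θ * t / (k * q)) (hkt : kt = -(2 / 5) * t / k ^ 4)
    (hrm : 2 * r * rm = Z + m * Zm) (hrt : 2 * r * rt = m * Zt)
    {α αm αt b1 b1m b1t : ℝ}
    (hα : α = 2 * k * (2 * m + 1) * Z * r)
    (hαm : αm = 2 * k * (2 * Z * r + (2 * m + 1) * Zm * r + (2 * m + 1) * Z * rm))
    (hαt : αt = 2 * (2 * m + 1) * (kt * Z * r + k * Zt * r + k * Z * rt))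
    (hb1 : b1 = k * Z * (1 - m ^ 2) - 8 / 5 * θ * t ^ 2)
    (hb1m : b1m = k * Zm * (1 - m ^ 2) - 2 * m * k * Z)
    (hb1t : b1t = (kt * Z + k * Zt) * (1 - m ^ 2) - 16 / 5 * θ * t) :
    α ^ 2 * ((α * b1m - b1 * αm) * (α * (8 / 5) - 8 / 5 * t * αt) -
      (α * b1t - b1 * αt) * (α * 0 - 8 / 5 * t * αm)) =
      -(64 / 5 * m * (2 * m + 1) ^ 3 * P ^ 6 / q ^ 8 *
        (P * (1 - 3 / 5 * t ^ 2) * Ta m + 8 / 5 * θ * t ^ 2 * k ^ 4 * Tb m)) := by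
  -- `r α_m`, `r α_t`, `r α`
  have e0 : r * α = 2 * k * (2 * m + 1) * m * Z ^ 2 := by
    rw [hα]; linear_combination (2 * k * (2 * m + 1) * Z) * hr
  have em : r * αm = k * Z ^ 2 / q * (1 + 4 * m - 5 * m ^ 2 - 6 * m ^ 3) := by
    have : r * αm = 2 * k * (2 * Z + (2 * m + 1) * Zm) * (m * Z) +
        k * (2 * m + 1) * Z * (Z + m * Zm) := by
      rw [hαm]
      linear_combination (2 * k * (2 * Z + (2 * m + 1) * Zm)) * hr + (k * (2 * m + 1) * Z) * hrm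
    rw [this, hZm]
    field_simp
    rw [hq']
    ring
  have et : r * αt = m * (2 * m + 1) * Z * (3 * k * Zt + 2 * kt * Z) := by
    rw [hαt]
    linear_combination (2 * (2 * m + 1) * (kt * Z + k * Zt)) * hr + ((2 * m + 1) * k * Z) * hrt
  have eb : b1m = -(k * Z * (1 + 4 * m + m ^ 2)) / q := by
    rw [hb1m, hZm]
    field_simp
    rw [hq']
    ring
  have key : α ^ 2 * ((α * b1m - b1 * αm) * (α * (8 / 5) - 8 / 5 * t * αt) -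
      (α * b1t - b1 * αt) * (α * 0 - 8 / 5 * t * αm)) =
      (2 * k * (2 * m + 1) * Z) ^ 2 * (((r * α) * b1m - b1 * (r * αm)) *
        ((r * α) * (8 / 5) - 8 / 5 * t * (r * αt)) -
      ((r * α) * b1t - b1 * (r * αt)) * (- (8 / 5 * t * (r * αm)))) := by
    rw [hα]; ring
  rw [key, e0, em, et, eb, hb1, hb1t]
  have key2 : ((2 * k * (2 * m + 1) * m * Z ^ 2) * (-(k * Z * (1 + 4 * m + m ^ 2)) / q) -
        (k * Z * (1 - m ^ 2) - 8 / 5 * θ * t ^ 2) *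
          (k * Z ^ 2 / q * (1 + 4 * m - 5 * m ^ 2 - 6 * m ^ 3))) *
        ((2 * k * (2 * m + 1) * m * Z ^ 2) * (8 / 5) -
          8 / 5 * t * (m * (2 * m + 1) * Z * (3 * k * Zt + 2 * kt * Z))) -
      ((2 * k * (2 * m + 1) * m * Z ^ 2) * ((kt * Z + k * Zt) * (1 - m ^ 2) - 16 / 5 * θ * t) -
        (k * Z * (1 - m ^ 2) - 8 / 5 * θ * t ^ 2) *
          (m * (2 * m + 1) * Z * (3 * k * Zt + 2 * kt * Z))) *
        (- (8 / 5 * t * (k * Z ^ 2 / q * (1 + 4 * m - 5 * m ^ 2 - 6 * m ^ 3)))) =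
      -(16 / 5 * k ^ 2 * m * (2 * m + 1) * Z ^ 4 / q) *
        (m * (2 * m + 1) * (1 + 4 * m + m ^ 2) * (2 * k * Z - t * (3 * k * Zt + 2 * kt * Z)) +
          (1 + 4 * m - 5 * m ^ 2 - 6 * m ^ 3) *
          ((1 - m ^ 2) * (k * Z - t * kt * Z - t * k * Zt) + 8 / 5 * θ * t ^ 2)) := by
    ring
  rw [key2]
  have key3 : m * (2 * m + 1) * (1 + 4 * m + m ^ 2) * (2 * k * Z - t * (3 * k * Zt + 2 * kt * Z)) +
          (1 + 4 * m - 5 * m ^ 2 - 6 * m ^ 3) *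
          ((1 - m ^ 2) * (k * Z - t * kt * Z - t * k * Zt) + 8 / 5 * θ * t ^ 2) =
      (P * (1 - 3 / 5 * t ^ 2) * Ta m + 8 / 5 * θ * t ^ 2 * k ^ 4 * Tb m) / (q * k ^ 4) := by
    rw [hZt, hkt, hZ]
    have hU : (1 - 3 / 5 * t ^ 2) = k ^ 5 + 2 / 5 * t ^ 2 := by rw [hk5]; ring
    rw [hU]
    unfold Ta Tb
    field_simp
    rw [hq']
    ring
  rw [key3, hZ]
  field_simp
  ring

end Pool.Agent.H223.DM
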