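import Pool.Agent.H223.DM.Inj

/-!
# Change of variables
-/

set_option autoImplicit false

namespace Pool.Agent.H223.DM

open MeasureTheory Metric Set Filter Topology
open scoped ENNReal InnerProductSpace Pointwise

theorem measurable_mv : Measurable mv := measurable_pi_apply _

theorem measurable_tv : Measurable tv := measurable_pi_apply _

theorem measurable_av : Measurable av := by
  unfold av
  fun_prop

theorem measurable_nm : Measurable nm := by
  unfold nm dot
  fun_prop

theorem measurable_nmav : Measurable fun v => nm (av v) := measurable_nm.comp measurable_av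

theorem measurable_kap : Measurable kap := continuous_kap.measurable

theorem measurable_Pf (θ : ℝ) : Measurable fun v : V => Pf θ (tv v) := by
  unfold Pf
  have := measurable_kap.comp measurable_tv
  exact measurable_const.add (measurable_const.mul (this.pow_const 4))

theorem measurable_qf : Measurable fun v : V => qf (mv v) := by
  unfold qf
  have := measurable_mv
  fun_prop

theorem measurable_Zf (θ : ℝ) : Measurable fun v : V => Zf θ (mv v) (tv v) := by
  unfold Zf
  exact (measurable_Pf θ).div measurable_qf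

theorem measurable_rf (θ : ℝ) : Measurable fun v : V => rf θ (mv v) (tv v) := by
  unfold rf
  exact (measurable_mv.mul (measurable_Zf θ)).sqrt

theorem measurable_af (θ : ℝ) : Measurable fun v : V => af θ (mv v) (tv v) := by
  unfold af
  have h1 := measurable_kap.comp measurable_tv
  have h2 := measurable_mv
  exact ((((measurable_const.mul h1).mul ((measurable_const.mul h2).add measurable_const)).mul
    (measurable_Zf θ)).mul (measurable_rf θ))

theorem measurable_bf (θ : ℝ) : Measurable fun v : V => bf θ (mv v) (tv v) := by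
  unfold bf
  have h1 := measurable_kap.comp measurable_tv
  have h2 := measurable_mv
  have h3 := measurable_tv
  exact ((h1.mul (measurable_Zf θ)).mul (measurable_const.sub (h2.pow_const 2))).sub
    (measurable_const.mul (h3.pow_const 2))

theorem measurable_norV (θ : ℝ) : Measurable (norV θ) := by
  rw [measurable_pi_iff]
  intro j
  rcases j with i | j
  · exact (measurable_af θ).mul (measurable_pi_apply _)
  · fin_cases j
    · exact measurable_nmav.mul (measurable_bf θ)
    · exact measurable_nmav.mul (measurable_const.mul measurable_tv)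

theorem measurable_J1 (θ : ℝ) : Measurable fun v : V => J1 θ (mv v) (tv v) := by
  unfold J1
  have h1 := measurable_Pf θ
  have h2 := measurable_mv
  have h3 := measurable_qf
  exact ((((measurable_const.mul h2).mul (h1.pow_const 4)).mul
    ((measurable_const.add (measurable_const.mul h2)).add
      (measurable_const.mul (h2.pow_const 2)))).div (measurable_const.mul (h3.pow_const 5)))

/-- the map `parameter ↦ direction of the normal` -/
noncomputable def dirN (θ : ℝ) (v : V) : S 6 := dirS (T (norV θ v))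

theorem measurable_dirN (θ : ℝ) : Measurable (dirN θ) :=
  measurable_dirS.comp (T.measurable.comp (measurable_norV θ))

theorem measurableSet_Pi1 : MeasurableSet Pi1 := by
  have h1 : MeasurableSet {v : V | av v ≠ 0} :=
    (measurable_av (measurableSet_singleton (0 : Fin 4 → ℝ))).compl
  have h2 : MeasurableSet {v : V | 0 < mv v} := measurableSet_lt measurable_const measurable_mv
  have h3 : MeasurableSet {v : V | |tv v| < 1} :=
    measurableSet_lt (continuous_abs.measurable.comp measurable_tv) measurable_const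
  have h4 : MeasurableSet {v : V | nm (av v) < 1} := measurableSet_lt measurable_nmav measurable_const
  exact (h1.inter (h2.inter h3)).inter h4

theorem measurableSet_Sig (θ : ℝ) {ω : Set (S 6)} (hω : MeasurableSet ω) :
    MeasurableSet (Sig θ ω) :=
  measurableSet_Pi1.inter (measurable_dirN θ hω)

theorem image_T (A : Set V) : volume (T '' A) = volume A := by
  have h := T_mp.measure_preimage_equiv (T '' A)
  rw [← h, preimage_image_eq _ T.injective]

theorem measurableSet_cone (θ : ℝ) (hθ : 0 < θ) {ω : Set (S 6)} (hω : MeasurableSet ω) :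
    MeasurableSet (T '' (posV θ '' Sig θ ω)) := by
  rw [T.measurableSet_image]
  apply (measurableSet_Sig θ hω).image_of_continuousOn_injOn
  · intro v hv
    obtain ⟨h1, h2, h3⟩ := hv.1.1
    obtain ⟨L, hL, -⟩ := posV_deriv hθ h1 h2 h3
    exact hL.continuousAt.continuousWithinAt
  · exact (pos_inj hθ).mono (Sig_subset θ ω)

theorem vol_pos (θ : ℝ) (hθ : 0 < θ) {ω : Set (S 6)} (hω : MeasurableSet ω) :
    volume (T '' (posV θ '' Sig θ ω)) =
      ∫⁻ v in Sig θ ω, ENNReal.ofReal (nm (av v) ^ 2 * J1 θ (mv v) (tv v)) := by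
  classical
  rw [image_T]
  have h : ∀ v : V, ∃ L : V →L[ℝ] V, v ∈ Pi0 → HasFDerivAt (posV θ) L v ∧
      L.det = -(nm (av v) ^ 2 * J1 θ (mv v) (tv v)) := by
    intro v
    by_cases hv : v ∈ Pi0
    · obtain ⟨L, hL⟩ := posV_deriv hθ hv.1 hv.2.1 hv.2.2
      exact ⟨L, fun _ => hL⟩
    · exact ⟨0, fun h => absurd h hv⟩
  choose L hL using h
  rw [← lintegral_abs_det_fderiv_eq_addHaar_image (μ := volume) (measurableSet_Sig θ hω)
    (f := posV θ) (f' := L) (fun v hv => (hL v (Sig_subset θ ω hv)).1.hasFDerivWithinAt)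
    ((pos_inj hθ).mono (Sig_subset θ ω))]
  apply setLIntegral_congr_fun (measurableSet_Sig θ hω)
  intro v hv
  have hv0 := Sig_subset θ ω hv
  simp only
  rw [(hL v hv0).2, abs_neg, abs_of_nonneg]
  exact mul_nonneg (sq_nonneg _) (J1_pos hθ hv0.2.1).le

theorem J2_pos {θ m t : ℝ} (hθ : 0 < θ) (hm : 0 < m) (ht : |t| < 1) : 0 < J2 θ m t := by
  have h1 := J2_ge hθ hm ht
  have h2 := J1_pos (t := t) hθ hm
  have h3 : 0 < θ * J2 θ m t := by linarith
  exact (mul_pos_iff_of_pos_left hθ).1 h3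

theorem vol_nor (θ : ℝ) (hθ : 0 < θ) {ω : Set (S 6)} (hω : MeasurableSet ω) :
    volume (T '' (norV θ '' Sig θ ω)) =
      ∫⁻ v in Sig θ ω, ENNReal.ofReal (nm (av v) ^ 2 * J2 θ (mv v) (tv v)) := by
  classical
  rw [image_T]
  have h : ∀ v : V, ∃ L : V →L[ℝ] V, v ∈ Pi0 → HasFDerivAt (norV θ) L v ∧
      L.det = -(nm (av v) ^ 2 * J2 θ (mv v) (tv v)) := by
    intro v
    by_cases hv : v ∈ Pi0
    · obtain ⟨L, hL⟩ := norV_deriv hθ hv.1 hv.2.1 hv.2.2
      exact ⟨L, fun _ => hL⟩
    · exact ⟨0, fun h => absurd h hv⟩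
  choose L hL using h
  rw [← lintegral_abs_det_fderiv_eq_addHaar_image (μ := volume) (measurableSet_Sig θ hω)
    (f := norV θ) (f' := L) (fun v hv => (hL v (Sig_subset θ ω hv)).1.hasFDerivWithinAt)
    ((nor_inj hθ).mono (Sig_subset θ ω))]
  apply setLIntegral_congr_fun (measurableSet_Sig θ hω)
  intro v hv
  have hv0 := Sig_subset θ ω hv
  simp only
  rw [(hL v hv0).2, abs_neg, abs_of_nonneg]
  exact mul_nonneg (sq_nonneg _) (J2_pos hθ hv0.2.1 hv0.2.2).le

theorem vol_le {θ : ℝ} (hθ : 0 < θ) {ω : Set (S 6)} (hω : MeasurableSet ω) :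
    10 * volume (T '' (posV θ '' Sig θ ω)) ≤
      ENNReal.ofReal θ * volume (T '' (norV θ '' Sig θ ω)) := by
  rw [vol_pos θ hθ hω, vol_nor θ hθ hω, ← lintegral_const_mul' _ _ (by norm_num),
    ← lintegral_const_mul' _ _ ENNReal.ofReal_ne_top]
  apply setLIntegral_mono' (measurableSet_Sig θ hω)
  intro v hv
  have hv0 := Sig_subset θ ω hv
  rw [← ENNReal.ofReal_mul hθ.le, show (10 : ℝ≥0∞) = ENNReal.ofReal 10 by simp,
    ← ENNReal.ofReal_mul (by norm_num)]
  apply ENNReal.ofReal_le_ofReal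
  have := J2_ge hθ hv0.2.1 hv0.2.2
  nlinarith [sq_nonneg (nm (av v))]

theorem le_vol {θ : ℝ} (hθ : 0 < θ) (hθ1 : θ ≤ 1) {ω : Set (S 6)} (hω : MeasurableSet ω) :
    ENNReal.ofReal θ * volume (T '' (norV θ '' Sig θ ω)) ≤
      10000 * volume (T '' (posV θ '' Sig θ ω)) := by
  rw [vol_pos θ hθ hω, vol_nor θ hθ hω, ← lintegral_const_mul' _ _ ENNReal.ofReal_ne_top,
    ← lintegral_const_mul' _ _ (show (10000 : ℝ≥0∞) ≠ ⊤ by norm_num)]
  apply setLIntegral_mono' (measurableSet_Sig θ hω)
  intro v hv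
  have hv0 := Sig_subset θ ω hv
  rw [← ENNReal.ofReal_mul hθ.le, show (10000 : ℝ≥0∞) = ENNReal.ofReal 10000 by simp,
    ← ENNReal.ofReal_mul (by norm_num)]
  apply ENNReal.ofReal_le_ofReal
  have := J2_le hθ hθ1 hv0.2.1 hv0.2.2
  nlinarith [sq_nonneg (nm (av v))]

/-- The cone over `ω` has volume `σ(ω)/6`. -/
theorem surf_cone {ω : Set (S 6)} (hω : MeasurableSet ω) :
    surf 6 ω = 6 * volume (Ioo (0 : ℝ) 1 • ((↑) '' ω : Set (E 6))) := by
  rw [Measure.toSphere_apply' _ hω]
  simp

theorem surf_null (L : Submodule ℝ (E 6)) (hL : L ≠ ⊤) (A : Set (S 6)) (hA : MeasurableSet A)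
    (h : ∀ w ∈ A, (w : E 6) ∈ L) : surf 6 A = 0 := by
  rw [surf_cone hA]
  have h1 : volume (Ioo (0 : ℝ) 1 • ((↑) '' A : Set (E 6))) = 0 := by
    apply measure_mono_null _ (Measure.addHaar_submodule volume L hL)
    rintro _ ⟨t, -, _, ⟨w, hw, rfl⟩, rfl⟩
    exact L.smul_mem t (h w hw)
  rw [h1, mul_zero]

/-- The image cone of the normals is contained in a cone of radius `8`. -/
theorem nor_le {θ : ℝ} (hθ : 0 < θ) (hθ1 : θ ≤ 1) {ω : Set (S 6)} (hω : MeasurableSet ω) :
    6 * volume (T '' (norV θ '' Sig θ ω)) ≤ 8 ^ 6 * surf 6 ω := by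
  have hsub : T '' (norV θ '' Sig θ ω) ⊆ (8 : ℝ) • (Ioo (0 : ℝ) 1 • ((↑) '' ω : Set (E 6))) := by
    intro x hx
    obtain ⟨v, hv, hd, c, hc0, hc1, rfl⟩ := (mem_cone_iff hθ _ _ _ ω x).1 hx
    change c • T (norV θ v) ∈ _
    have hn := nor_ne_zero hθ hv
    have h8 := norm_nor_le hθ hθ1 hv
    have hn0 := norm_pos_iff.2 hn
    refine ⟨(c * ‖T (norV θ v)‖ / 8) • (dirS (T (norV θ v)) : E 6), ⟨c * ‖T (norV θ v)‖ / 8,
      ⟨by positivity, ?_⟩, _, ⟨_, hd, rfl⟩, rfl⟩, ?_⟩
    · rw [div_lt_one (by norm_num)]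
      nlinarith
    · change (8 : ℝ) • ((c * ‖T (norV θ v)‖ / 8) • (dirS (T (norV θ v)) : E 6)) = _
      rw [smul_smul, mul_div_cancel₀ _ (by norm_num), mul_smul, ← eq_smul_dirS hn]
  have h1 := measure_mono (μ := (volume : Measure (E 6))) hsub
  rw [Measure.addHaar_smul] at h1
  have h2 : ENNReal.ofReal |(8 : ℝ) ^ Module.finrank ℝ (E 6)| = 8 ^ 6 := by
    rw [finrank_euclideanSpace, Fintype.card_fin, abs_of_pos (by norm_num),
      ENNReal.ofReal_pow (by norm_num)]
    simp
  rw [h2] at h1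
  rw [surf_cone hω]
  calc 6 * volume (T '' (norV θ '' Sig θ ω)) ≤
      6 * (8 ^ 6 * volume (Ioo (0 : ℝ) 1 • ((↑) '' ω : Set (E 6)))) := by gcongr
    _ = _ := by ring

/-- The image cone of the normals contains a cone of radius `1/4`. -/
theorem le_nor {θ : ℝ} (hθ : 0 < θ) (hθ1 : θ ≤ 1 / 10) {ω : Set (S 6)} (hω : MeasurableSet ω) :
    surf 6 ω ≤ 4 ^ 6 * (6 * volume (T '' (norV θ '' Sig θ ω))) := by
  set ω' : Set (S 6) := ω ∩ {u | xc (u : E 6) ≠ 0} with hω'
  have hm : MeasurableSet {u : S 6 | xc (u : E 6) ≠ 0} := by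
    have : Measurable fun u : S 6 => xc (u : E 6) :=
      (continuous_xc.comp continuous_subtype_val).measurable
    exact (this (measurableSet_singleton (0 : Fin 4 → ℝ))).compl
  have h1 : surf 6 ω = surf 6 ω' := by
    apply le_antisymm _ (measure_mono inter_subset_left)
    have h2 : ω ⊆ ω' ∪ {u | xc (u : E 6) ≠ 0}ᶜ := by
      intro u hu
      by_cases h : xc (u : E 6) ≠ 0
      · exact Or.inl ⟨hu, h⟩
      · exact Or.inr h
    refine (measure_mono h2).trans ((measure_union_le _ _).trans ?_)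
    rw [surf_null (LinearMap.ker (EuclideanSpace.proj (𝕜 := ℝ) (0 : Fin 6)).toLinearMap) ?_ _
      hm.compl ?_, add_zero]
    · intro htop
      rw [LinearMap.ker_eq_top] at htop
      have := LinearMap.congr_fun htop (EuclideanSpace.single 0 1)
      simp at this
    · intro w hw
      simp only [mem_compl_iff, mem_ofPred_eq, not_not] at hw
      have := congrFun hw 0
      exact this
  have hω'm : MeasurableSet ω' := hω.inter hm
  rw [h1, surf_cone hω'm]
  have hsub : (1 / 4 : ℝ) • (Ioo (0 : ℝ) 1 • ((↑) '' ω' : Set (E 6))) ⊆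
      T '' (norV θ '' Sig θ ω) := by
    rintro _ ⟨_, ⟨s, hs, _, ⟨u, hu, rfl⟩, rfl⟩, rfl⟩
    change (1 / 4 : ℝ) • s • (u : E 6) ∈ _
    obtain ⟨P, hz, hy, hG, hx, c, hc, hcu⟩ := exists_point hθ (u := (u : E 6)) (by simpa using u.2) hu.2
    have hb := par_bd hθ hz hy hx
    have hP := pos_par hθ hz hy hx hG
    have hk := kap_pos hb.2.2
    have hnor : T (norV θ (par θ P)) = (kap (tv (par θ P)) / c) • (u : E 6) := by
      rw [nor_eq hθ hb, hP, hcu, smul_smul, div_mul_cancel₀ _ hc.ne']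
    have hlen : ‖T (norV θ (par θ P))‖ = kap (tv (par θ P)) / c := by
      rw [hnor, norm_smul, norm_eq_of_mem_sphere, mul_one, Real.norm_eq_abs,
        abs_of_pos (by positivity)]
    have h4 := norm_nor_ge hθ hθ1 hb
    rw [hlen] at h4
    have hl : 0 < kap (tv (par θ P)) / c := by positivity
    apply (mem_cone_iff hθ (af θ) (bf θ) (fun _ t => 8 / 5 * t) ω _).2
    refine ⟨par θ P, hb, ?_, 1 / 4 * s / (kap (tv (par θ P)) / c), ?_, ?_, ?_⟩
    · rw [dirS_eq hl hnor]
      exact hu.1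
    · have := hs.1
      positivity
    · rw [div_lt_one hl]
      have := hs.2
      nlinarith [hs.1]
    · change _ = (1 / 4 * s / (kap (tv (par θ P)) / c)) • T (norV θ (par θ P))
      rw [hnor, smul_smul, smul_smul, div_mul_cancel₀ _ hl.ne']
  have h2 := measure_mono (μ := (volume : Measure (E 6))) hsub
  rw [Measure.addHaar_smul] at h2
  have h3 : ENNReal.ofReal |(1 / 4 : ℝ) ^ Module.finrank ℝ (E 6)| = (4 ^ 6)⁻¹ := by
    rw [finrank_euclideanSpace, Fintype.card_fin, abs_of_pos (by norm_num), one_div, inv_pow,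
      ENNReal.ofReal_inv_of_pos (by norm_num), ENNReal.ofReal_pow (by norm_num)]
    simp
  rw [h3] at h2
  calc 6 * volume (Ioo (0 : ℝ) 1 • ((↑) '' ω' : Set (E 6))) =
      4 ^ 6 * (6 * ((4 ^ 6)⁻¹ * volume (Ioo (0 : ℝ) 1 • ((↑) '' ω' : Set (E 6))))) := by
        rw [mul_left_comm (6 : ℝ≥0∞) _ _, ← mul_assoc (4 ^ 6 : ℝ≥0∞),
          ENNReal.mul_inv_cancel (by norm_num) (by norm_num), one_mul]
    _ ≤ _ := by gcongr

end Pool.Agent.H223.DM
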