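import Pool.Agent.H223.DM.Body

/-!
# Normals of `K_θ`
-/

set_option autoImplicit false

namespace Pool.Agent.H223.DM

open MeasureTheory Metric Set Filter Topology
open scoped ENNReal InnerProductSpace

theorem hasDerivAt_G {θ : ℝ} (hθ : 0 < θ) {P : E 6} (hz : 0 < zc P) (hy : |yc P| < θ * zc P)
    (d : E 6) : HasDerivAt (fun t : ℝ => G θ (P + t • d)) ⟪N θ P, d⟫_ℝ 0 := by
  have hzp : 0 < θ * zc P := mul_pos hθ hz
  have hτ : |tc θ P| < 1 := abs_div_lt hzp hy
  have hk := kap_pos hτ
  -- coordinates along the line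
  have hZ : HasDerivAt (fun t : ℝ => zc (P + t • d)) (zc d) 0 := by
    have : (fun t : ℝ => zc (P + t • d)) = fun t => zc P + t * zc d := by
      funext t; simp
    rw [this]
    simpa using ((hasDerivAt_id (0 : ℝ)).mul_const (zc d)).const_add (zc P)
  have hY : HasDerivAt (fun t : ℝ => yc (P + t • d)) (yc d) 0 := by
    have : (fun t : ℝ => yc (P + t • d)) = fun t => yc P + t * yc d := by
      funext t; simp
    rw [this]
    simpa using ((hasDerivAt_id (0 : ℝ)).mul_const (yc d)).const_add (yc P)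
  have hS : HasDerivAt (fun t : ℝ => sc (P + t • d)) (2 * dot (xc P) (xc d)) 0 := by
    have : (fun t : ℝ => sc (P + t • d)) = fun t => sc P + t * (2 * dot (xc P) (xc d)) +
        t ^ 2 * dot (xc d) (xc d) := by
      funext t
      unfold sc
      simp only [xc_add, xc_smul, dot_add_left, dot_add_right, dot_smul_left, dot_smul_right]
      rw [dot_comm (xc d) (xc P)]
      ring
    rw [this]
    have h1 := ((hasDerivAt_id (0 : ℝ)).mul_const (2 * dot (xc P) (xc d))).const_add (sc P)
    have h2 := ((hasDerivAt_id (0 : ℝ)).pow 2).mul_const (dot (xc d) (xc d))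
    have h3 := h1.add h2
    refine h3.congr_deriv ?_
    simp
  have hT : HasDerivAt (fun t : ℝ => tc θ (P + t • d))
      ((yc d - tc θ P * (θ * zc d)) / (θ * zc P)) 0 := by
    have h1 := hY.div (hZ.const_mul θ) (by simpa using hzp.ne')
    have h2 : (fun t : ℝ => tc θ (P + t • d)) =
      (fun t : ℝ => yc (P + t • d)) / (fun t : ℝ => θ * zc (P + t • d)) := by
      funext t; rfl
    rw [h2]
    refine h1.congr_deriv ?_
    simp only [zero_smul, add_zero]
    unfold tc
    field_simp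
  have hK : HasDerivAt (fun t : ℝ => kap (tc θ (P + t • d)))
      (-(2 / 5) * tc θ P / kap (tc θ P) ^ 4 * ((yc d - tc θ P * (θ * zc d)) / (θ * zc P))) 0 := by
    have e0 : tc θ (P + (0 : ℝ) • d) = tc θ P := by simp
    have h1 : HasDerivAt kap (-(2 / 5) * tc θ P / kap (tc θ P) ^ 4) (tc θ (P + (0 : ℝ) • d)) := by
      rw [e0]
      exact hasDerivAt_kap hτ
    exact h1.comp (0 : ℝ) hT
  have hR : HasDerivAt (fun t : ℝ => R θ (zc (P + t • d)) (yc (P + t • d)))
      (θ * (kap (tc θ P) ^ 4 + (8 / 5) * tc θ P ^ 2 / kap (tc θ P)) * zc d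
        - (8 / 5) * tc θ P / kap (tc θ P) * yc d) 0 := by
    have h1 := (hZ.const_mul θ).mul (hK.pow 4)
    have h2 : (fun t : ℝ => R θ (zc (P + t • d)) (yc (P + t • d))) =
      (fun t : ℝ => θ * zc (P + t • d)) * (fun t : ℝ => kap (tc θ (P + t • d))) ^ 4 := by
      funext t; rfl
    rw [h2]
    refine h1.congr_deriv ?_
    simp only [zero_smul, add_zero, Pi.pow_apply]
    have := hk.ne'
    have := hz.ne'
    have := hθ.ne'
    field_simp
    ring
  have hA : HasDerivAt (fun t : ℝ => G θ (P + t • d))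
      (2 * sc P * (2 * dot (xc P) (xc d)) + (zc d * sc P + zc P * (2 * dot (xc P) (xc d)))
        + 2 * zc P * zc d - zc d -
        (θ * (kap (tc θ P) ^ 4 + (8 / 5) * tc θ P ^ 2 / kap (tc θ P)) * zc d
        - (8 / 5) * tc θ P / kap (tc θ P) * yc d)) 0 := by
    have h1 := (((hS.pow 2).add (hZ.mul hS)).add (hZ.pow 2)).sub hZ
    have h2 := h1.sub hR
    refine h2.congr_deriv ?_
    simp
  refine hA.congr_deriv ?_
  rw [inner_eq, xc_N, zc_N, yc_N, dot_smul_left]
  ring

theorem mem_K_of_dir {θ : ℝ} (hθ : 0 < θ) {P : E 6} (hz : 0 < zc P) (hy : |yc P| < θ * zc P)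
    (hG : G θ P ≤ 0) {d : E 6} (hd : ⟪N θ P, d⟫_ℝ < 0) : ∃ t : ℝ, 0 < t ∧ P + t • d ∈ K θ := by
  have h1 := hasDerivAt_G hθ hz hy d
  have h2 : ∀ᶠ t in 𝓝[>] (0 : ℝ), G θ (P + t • d) < G θ P := by
    have h3 := h1.hasDerivWithinAt (s := Ioi (0 : ℝ))
    have h4 := (hasDerivWithinAt_iff_tendsto_slope' (by simp)).1 h3
    have h5 := h4.eventually (gt_mem_nhds hd)
    filter_upwards [h5, self_mem_nhdsWithin] with t ht ht0
    have ht0' : 0 < t := ht0
    rw [slope_def_field] at ht
    simp only [zero_smul, add_zero, sub_zero] at ht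
    rw [div_lt_iff₀ ht0'] at ht
    linarith
  have e1 : ∀ᶠ t in 𝓝[>] (0 : ℝ), 0 < zc (P + t • d) := by
    have hc : Continuous fun t : ℝ => zc (P + t • d) := continuous_zc.comp (by fun_prop)
    have := hc.continuousAt (x := (0 : ℝ)) |>.eventually (lt_mem_nhds (a := 0) (by simpa using hz))
    exact this.filter_mono nhdsWithin_le_nhds
  have e2 : ∀ᶠ t in 𝓝[>] (0 : ℝ), |yc (P + t • d)| < θ * zc (P + t • d) := by
    have hc : Continuous fun t : ℝ => |yc (P + t • d)| :=
      (continuous_yc.comp (by fun_prop)).abs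
    have hc2 : Continuous fun t : ℝ => θ * zc (P + t • d) :=
      continuous_const.mul (continuous_zc.comp (by fun_prop))
    have := hc.continuousAt (x := (0 : ℝ)) |>.eventually_lt hc2.continuousAt (by simpa using hy)
    exact this.filter_mono nhdsWithin_le_nhds
  obtain ⟨t, ⟨h, ha, hb⟩, ht⟩ := ((h2.and (e1.and e2)).and self_mem_nhdsWithin).exists
  exact ⟨t, ht, ⟨ha.le, hb.le⟩, (h.le.trans hG)⟩

theorem N_ne_zero {θ : ℝ} (hθ : 0 < θ) {P : E 6} (hz : 0 < zc P) (hy : |yc P| < θ * zc P)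
    (hG : G θ P = 0) : N θ P ≠ 0 := by
  intro h
  have hne : P0 ≠ P := by
    rintro rfl
    have := G_P0 hθ
    linarith
  have := grad_strict hθ hz hy (Q := P0) (by
    refine ⟨by rw [zc_P0]; norm_num, by rw [zc_P0, yc_P0]; simp; positivity⟩) hne
  rw [h, inner_zero_left, hG] at this
  have := G_P0 hθ
  linarith

/-- `N(P)` is an outer normal at a boundary point `P`. -/
theorem N_normal {θ : ℝ} (hθ : 0 < θ) {P : E 6} (hz : 0 < zc P) (hy : |yc P| < θ * zc P)
    (hG : G θ P = 0) {Q : E 6} (hQ : Q ∈ K θ) (hne : Q ≠ P) : ⟪N θ P, Q⟫_ℝ < ⟪N θ P, P⟫_ℝ := by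
  have h1 := grad_strict hθ hz hy hQ.1 hne
  rw [hG, inner_sub_right] at h1
  linarith [hQ.2]

theorem inner_N_pos {θ : ℝ} (hθ : 0 < θ) {P : E 6} (hz : 0 < zc P) (hy : |yc P| < θ * zc P)
    (hG : G θ P = 0) : 0 < ⟪N θ P, P⟫_ℝ := by
  have hne : (0 : E 6) ≠ P := by
    rintro rfl
    simp at hz
  have := N_normal hθ hz hy hG (zero_mem_K θ) hne
  simpa using this

theorem normal_eq {θ : ℝ} (hθ : 0 < θ) {P : E 6} (hz : 0 < zc P) (hy : |yc P| < θ * zc P)
    (hG : G θ P ≤ 0) {u : E 6} (hu : u ≠ 0) (hn : ∀ Q ∈ K θ, ⟪u, Q⟫_ℝ ≤ ⟪u, P⟫_ℝ) :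
    G θ P = 0 ∧ ∃ c : ℝ, 0 < c ∧ u = c • N θ P := by
  have hu2 : 0 < ⟪u, u⟫_ℝ := real_inner_self_pos.2 hu
  have h0 : G θ P = 0 := by
    by_contra hne
    have hlt : G θ P < 0 := lt_of_le_of_ne hG hne
    have hK := mem_nhds_K hθ hz hy hlt
    have hc : Tendsto (fun t : ℝ => P + t • u) (𝓝[>] 0) (𝓝 P) := by
      have : Continuous fun t : ℝ => P + t • u := by fun_prop
      have := this.tendsto 0
      simp only [zero_smul, add_zero] at this
      exact this.mono_left nhdsWithin_le_nhds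
    have h1 := hc.eventually hK
    obtain ⟨t, ht, ht0⟩ := (h1.and self_mem_nhdsWithin).exists
    have ht0' : 0 < t := ht0
    have := hn _ ht
    rw [inner_add_right, inner_smul_right] at this
    nlinarith
  refine ⟨h0, ?_⟩
  have hN := N_ne_zero hθ hz hy h0
  have hN2 : 0 < ⟪N θ P, N θ P⟫_ℝ := real_inner_self_pos.2 hN
  have key : ∀ d : E 6, ⟪N θ P, d⟫_ℝ < 0 → ⟪u, d⟫_ℝ ≤ 0 := by
    intro d hd
    obtain ⟨t, ht, hm⟩ := mem_K_of_dir hθ hz hy hG hd
    have := hn _ hm
    rw [inner_add_right, inner_smul_right] at this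
    by_contra hcon
    push Not at hcon
    nlinarith [mul_pos ht hcon]
  set c : ℝ := ⟪u, N θ P⟫_ℝ / ⟪N θ P, N θ P⟫_ℝ with hc
  have hpos : 0 ≤ ⟪u, N θ P⟫_ℝ := by
    have := key (-N θ P) (by rw [inner_neg_right]; linarith)
    rw [inner_neg_right] at this
    linarith
  set e : E 6 := u - c • N θ P with he
  have heN : ⟪N θ P, e⟫_ℝ = 0 := by
    rw [he, inner_sub_right, inner_smul_right, hc, real_inner_comm]
    field_simp
    ring
  have hue : ⟪u, e⟫_ℝ = ⟪e, e⟫_ℝ := by
    have : u = e + c • N θ P := by rw [he]; abel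
    conv_lhs => rw [this]
    rw [inner_add_left, inner_smul_left, heN]
    simp
  have hle : ∀ δ : ℝ, 0 < δ → ⟪e, e⟫_ℝ ≤ δ * ⟪u, N θ P⟫_ℝ := by
    intro δ hδ
    have := key (e - δ • N θ P) (by
      rw [inner_sub_right, heN, inner_smul_right]
      nlinarith [mul_pos hδ hN2])
    rw [inner_sub_right, hue, inner_smul_right] at this
    linarith
  have he0 : e = 0 := by
    by_contra hne
    have hpe : 0 < ⟪e, e⟫_ℝ := real_inner_self_pos.2 hne
    rcases hpos.eq_or_lt with h | h
    · have := hle 1 one_pos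
      rw [← h] at this
      linarith
    · have := hle (⟪e, e⟫_ℝ / (2 * ⟪u, N θ P⟫_ℝ)) (by positivity)
      have e3 : ⟪e, e⟫_ℝ / (2 * ⟪u, N θ P⟫_ℝ) * ⟪u, N θ P⟫_ℝ = ⟪e, e⟫_ℝ / 2 := by
        field_simp
      rw [e3] at this
      linarith
  have hu' : u = c • N θ P := by
    rw [he] at he0
    exact sub_eq_zero.1 he0
  refine ⟨c, ?_, hu'⟩
  have hc0 : 0 ≤ c := by rw [hc]; positivity
  rcases hc0.eq_or_lt with h | h
  · rw [← h, zero_smul] at hu'
    exact absurd hu' hu
  · exact h

/-- Every direction `u` with `x(u) ≠ 0` is the normal at a smooth boundary point with `x ≠ 0`. -/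
theorem exists_point {θ : ℝ} (hθ : 0 < θ) {u : E 6} (hu : ‖u‖ = 1) (hx : xc u ≠ 0) :
    ∃ P : E 6, 0 < zc P ∧ |yc P| < θ * zc P ∧ G θ P = 0 ∧ xc P ≠ 0 ∧
      ∃ c : ℝ, 0 < c ∧ u = c • N θ P := by
  have hu0 : u ≠ 0 := by
    rintro rfl
    simp at hu
  have hs0 : 0 < dot (xc u) (xc u) := dot_self_pos hx
  have hu1 : dot (xc u) (xc u) + zc u * zc u + yc u * yc u = 1 := by
    rw [← inner_eq, real_inner_self_eq_norm_sq, hu]
    norm_num
  have hs1 : dot (xc u) (xc u) ≤ 1 := by nlinarith [mul_self_nonneg (zc u), mul_self_nonneg (yc u)]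
  have hz1 : -1 ≤ zc u := by nlinarith [mul_self_nonneg (yc u)]
  have hy1 : |yc u| ≤ 1 := by
    rw [← sq_le_one_iff_abs_le_one]
    nlinarith [mul_self_nonneg (zc u)]
  -- the maximiser
  obtain ⟨P, hPK, hmax⟩ := (isCompact_K hθ).exists_isMaxOn ⟨0, zero_mem_K θ⟩
    (f := fun Q : E 6 => ⟪u, Q⟫_ℝ) (by fun_prop)
  have hn : ∀ Q ∈ K θ, ⟪u, Q⟫_ℝ ≤ ⟪u, P⟫_ℝ := fun Q hQ => hmax hQ
  -- `z > 0`
  have hz : 0 < zc P := by
    rcases hPK.1.1.eq_or_lt with h | h
    · exfalso
      have hsc : sc P ^ 2 ≤ 0 := by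
        have := sc_sq_le hθ hPK
        rw [← h] at this
        linarith
      have hsc0 : sc P = 0 := by
        have := pow_eq_zero_iff (two_ne_zero) |>.1 (le_antisymm hsc (sq_nonneg _))
        exact this
      have hxP : xc P = 0 := dot_self_eq_zero.1 hsc0
      have hyP : yc P = 0 := by
        have := hPK.1.2
        rw [← h, mul_zero] at this
        exact abs_nonpos_iff.1 this
      have hP0 : ⟪u, P⟫_ℝ = 0 := by
        rw [inner_eq, hxP, ← h, hyP]; simp
      set s : ℝ := dot (xc u) (xc u) / 4 with hs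
      have hs' : dot (xc u) (xc u) = 4 * s := by rw [hs]; ring
      have hsp : 0 < s := by rw [hs]; positivity
      have hsq : s ≤ 1 / 4 := by rw [hs]; linarith
      let Q : E 6 := T (Sum.elim ((1 / 2 : ℝ) • xc u) ![2 * s ^ 2, 0])
      have hQx : xc Q = (1 / 2 : ℝ) • xc u := by
        change xc (T _) = _
        rw [xc_T]; rfl
      have hQz : zc Q = 2 * s ^ 2 := by
        change zc (T _) = _
        rw [zc_T]; rfl
      have hQy : yc Q = 0 := by
        change yc (T _) = _
        rw [yc_T]; rfl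
      have hQs : sc Q = s := by
        unfold sc
        rw [hQx, dot_smul_left, dot_smul_right, hs']
        ring
      have hQK : Q ∈ K θ := by
        refine ⟨⟨by rw [hQz]; positivity, by rw [hQz, hQy, abs_zero]; positivity⟩, ?_⟩
        unfold G
        have := R_nonneg (θ := θ) (z := 2 * s ^ 2) (y := 0) hθ.le (by positivity)
        rw [hQs, hQz, hQy]
        nlinarith [mul_pos hsp hsp, mul_pos (mul_pos hsp hsp) hsp, sq_nonneg s,
          mul_nonneg (mul_pos hsp hsp).le (sub_nonneg.2 hsq),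
          mul_nonneg (mul_pos (mul_pos hsp hsp) hsp).le (sub_nonneg.2 hsq)]
      have := hn Q hQK
      rw [hP0, inner_eq, hQx, hQz, hQy, dot_smul_right, hs'] at this
      nlinarith [mul_pos hsp hsp, mul_nonneg hsp.le (sub_nonneg.2 hsq)]
    · exact h
  have hzp : 0 < θ * zc P := mul_pos hθ hz
  -- `|y| < θ z`
  have hy : |yc P| < θ * zc P := by
    rcases hPK.1.2.eq_or_lt with h | h
    · exfalso
      have hτ : |tc θ P| = 1 := by
        unfold tc
        rw [abs_div, abs_of_pos hzp, h, div_self hzp.ne']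
      have hR0 : R θ (zc P) (yc P) = 0 := by
        unfold R
        change θ * zc P * kap (tc θ P) ^ 4 = 0
        have h5 : kap (tc θ P) ^ 5 = 0 := by
          rw [kap_pow (le_of_eq hτ)]
          have h6 : (tc θ P) ^ 2 = 1 := by rw [← sq_abs, hτ]; norm_num
          rw [h6]; norm_num
        have h7 : kap (tc θ P) = 0 := pow_eq_zero_iff (by norm_num) |>.1 h5
        rw [h7]; ring
      have hg : sc P ^ 2 + zc P * sc P + zc P ^ 2 - zc P ≤ 0 := by
        have := hPK.2
        unfold G at this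
        rw [hR0] at this
        linarith
      have hsP := sc_nonneg P
      set Cc : ℝ := (sc P + 2) * (3 * sc P + 2 + zc P) with hCc
      have hCpos : 0 < Cc := by positivity
      set c0 : ℝ := min 1 (θ * zc P / Cc) with hc0
      have hc0pos : 0 < c0 := lt_min one_pos (by positivity)
      have hc0le : c0 ≤ 1 := min_le_left _ _
      have hc0C : c0 * Cc ≤ θ * zc P := by
        calc c0 * Cc ≤ (θ * zc P / Cc) * Cc := by gcongr; exact min_le_right _ _
          _ = _ := by field_simp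
      set η : ℝ := min 1 (c0 * dot (xc u) (xc u) / (2 * (θ * zc P))) with hη
      have hηpos : 0 < η := lt_min one_pos (by positivity)
      have hη1 : η ≤ 1 := min_le_left _ _
      have hη2 : η * (2 * (θ * zc P)) ≤ c0 * dot (xc u) (xc u) := by
        calc η * (2 * (θ * zc P)) ≤ (c0 * dot (xc u) (xc u) / (2 * (θ * zc P))) *
            (2 * (θ * zc P)) := by gcongr; exact min_le_right _ _
          _ = _ := by field_simp
      set ε : ℝ := c0 * η ^ 4 with hε
      have hε0 : 0 < ε := by positivity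
      have hε1 : ε ≤ 1 := by
        rw [hε]
        exact mul_le_one₀ hc0le (by positivity) (pow_le_one₀ hηpos.le hη1)
      have hδ1 : η ^ 5 ≤ 1 := pow_le_one₀ hηpos.le hη1
      let Q : E 6 := T (Sum.elim (xc P + ε • xc u) ![zc P, (1 - η ^ 5) * yc P])
      have hQx : xc Q = xc P + ε • xc u := by
        change xc (T _) = _
        rw [xc_T]; rfl
      have hQz : zc Q = zc P := by
        change zc (T _) = _
        rw [zc_T]; rfl
      have hQy : yc Q = (1 - η ^ 5) * yc P := by
        change yc (T _) = _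
        rw [yc_T]; rfl
      have hτQ : tc θ Q = (1 - η ^ 5) * tc θ P := by
        unfold tc
        rw [hQz, hQy]
        ring
      have hτQ1 : |tc θ Q| ≤ 1 := by
        rw [hτQ, abs_mul, hτ, mul_one, abs_of_nonneg (by linarith)]
        have : 0 ≤ η ^ 5 := by positivity
        linarith
      have hkQ : η ≤ kap (tc θ Q) := by
        have h5 : η ^ 5 ≤ kap (tc θ Q) ^ 5 := by
          rw [kap_pow hτQ1, hτQ]
          have : (tc θ P) ^ 2 = 1 := by rw [← sq_abs, hτ]; norm_num
          rw [mul_pow, this]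
          have : 0 ≤ η ^ 5 := by positivity
          nlinarith
        exact (pow_le_pow_iff_left₀ hηpos.le (kap_nonneg hτQ1) (by norm_num)).1 h5
      have hRQ : θ * zc P * η ^ 4 ≤ R θ (zc Q) (yc Q) := by
        unfold R
        rw [hQz]
        have : η ^ 4 ≤ kap (yc Q / (θ * zc P)) ^ 4 := by
          have e : yc Q / (θ * zc P) = tc θ Q := by unfold tc; rw [hQz]
          rw [e]
          gcongr
        gcongr
      have hsQ : sc Q ≤ sc P + ε * (sc P + 2) := by
        unfold sc
        rw [hQx]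
        simp only [dot_add_left, dot_add_right, dot_smul_left, dot_smul_right]
        rw [dot_comm (xc u) (xc P)]
        have h2 : 2 * dot (xc P) (xc u) ≤ dot (xc P) (xc P) + dot (xc u) (xc u) := by
          have := dot_self_nonneg (xc P - xc u)
          simp only [dot_sub_left, dot_sub_right] at this
          rw [dot_comm (xc u) (xc P)] at this
          linarith
        have h3 : ε * ε * dot (xc u) (xc u) ≤ ε := by
          calc ε * ε * dot (xc u) (xc u) ≤ ε * 1 * 1 := by gcongr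
            _ = ε := by ring
        have h4 := mul_le_mul_of_nonneg_left h2 hε0.le
        have h5 := mul_le_mul_of_nonneg_left hs1 hε0.le
        linarith
      have hQK : Q ∈ K θ := by
        refine ⟨⟨by rw [hQz]; exact hz.le, ?_⟩, ?_⟩
        · rw [hQz, hQy, abs_mul, abs_of_nonneg (by linarith), h]
          have h13 : 0 ≤ η ^ 5 * (θ * zc P) := by positivity
          linarith
        · unfold G
          rw [hQz] at hRQ ⊢
          have hsQ0 := sc_nonneg Q
          have k1 : sc Q ^ 2 ≤ sc P ^ 2 + ε * ((sc P + 2) * (3 * sc P + 2)) := by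
            calc sc Q ^ 2 ≤ (sc P + ε * (sc P + 2)) ^ 2 := by gcongr
              _ = sc P ^ 2 + ε * ((sc P + 2) * (2 * sc P + ε * (sc P + 2))) := by ring
              _ ≤ sc P ^ 2 + ε * ((sc P + 2) * (2 * sc P + 1 * (sc P + 2))) := by gcongr
              _ = _ := by ring
          have k2 : zc P * sc Q ≤ zc P * sc P + ε * ((sc P + 2) * zc P) := by
            calc zc P * sc Q ≤ zc P * (sc P + ε * (sc P + 2)) := by gcongr
              _ = _ := by ring
          have k3 : ε * Cc ≤ θ * zc P * η ^ 4 := by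
            calc ε * Cc = (c0 * Cc) * η ^ 4 := by rw [hε]; ring
              _ ≤ (θ * zc P) * η ^ 4 := by gcongr
          have k4 : ε * Cc = ε * ((sc P + 2) * (3 * sc P + 2)) + ε * ((sc P + 2) * zc P) := by
            rw [hCc]; ring
          linarith
      have := hn Q hQK
      rw [inner_eq, inner_eq, hQx, hQz, hQy, dot_add_right, dot_smul_right] at this
      have h6 : yc u * yc P ≤ θ * zc P := by
        calc yc u * yc P ≤ |yc u * yc P| := le_abs_self _
          _ = |yc u| * |yc P| := abs_mul _ _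
          _ ≤ 1 * (θ * zc P) := by rw [h]; gcongr
          _ = _ := by ring
      have h7 : ε * dot (xc u) (xc u) ≤ η ^ 5 * (yc u * yc P) := by linarith
      have h8 : η ^ 5 * (yc u * yc P) ≤ η ^ 5 * (θ * zc P) := by gcongr
      have h9 : η ^ 4 * (η * (2 * (θ * zc P))) ≤ η ^ 4 * (c0 * dot (xc u) (xc u)) := by gcongr
      have h10 : ε * dot (xc u) (xc u) = η ^ 4 * (c0 * dot (xc u) (xc u)) := by rw [hε]; ring
      have h11 : 0 < η ^ 5 * (θ * zc P) := by positivity
      have h12 : η ^ 4 * (η * (2 * (θ * zc P))) = 2 * (η ^ 5 * (θ * zc P)) := by ring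
      linarith
    · exact h
  obtain ⟨hG0, c, hc, huc⟩ := normal_eq hθ hz hy hPK.2 hu0 hn
  refine ⟨P, hz, hy, hG0, ?_, c, hc, huc⟩
  intro hxP
  apply hx
  rw [huc, xc_smul, xc_N, hxP]
  simp

end Pool.Agent.H223.DM
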