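import Pool.Agent.H223.DM.Defs

/-!
# Radial functions
-/

set_option autoImplicit false

namespace Pool.Agent.H223.DM

open MeasureTheory Metric Set Filter Topology
open scoped ENNReal InnerProductSpace Pointwise

variable {n : ℕ}

theorem ray_bddAbove {K : Set (E n)} (hK : IsCompact K) {w : E n} (hw : w ≠ 0) :
    BddAbove {t : ℝ | 0 ≤ t ∧ t • w ∈ K} := by
  obtain ⟨M, hM⟩ := hK.isBounded.exists_norm_le
  refine ⟨M / ‖w‖, fun t ht => ?_⟩
  have h1 := hM _ ht.2
  rw [norm_smul, Real.norm_eq_abs, abs_of_nonneg ht.1] at h1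
  rwa [le_div_iff₀ (norm_pos_iff.2 hw)]

theorem radialFn_nonneg {K : Set (E n)} (w : E n) : 0 ≤ radialFn K w :=
  Real.sSup_nonneg fun _ ht => ht.1

theorem radialFn_mem {K : Set (E n)} (hK : IsCompact K) (h0 : (0 : E n) ∈ K) {w : E n}
    (hw : w ≠ 0) : radialFn K w • w ∈ K := by
  have hc : IsClosed {t : ℝ | 0 ≤ t ∧ t • w ∈ K} := by
    apply (isClosed_le continuous_const continuous_id).inter
    exact hK.isClosed.preimage (by fun_prop)
  have h := hc.csSup_mem ⟨0, le_refl 0, by simpa using h0⟩ (ray_bddAbove hK hw)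
  exact h.2

theorem le_radialFn {K : Set (E n)} (hK : IsCompact K) {w : E n}
    (hw : w ≠ 0) {t : ℝ} (ht : 0 ≤ t) (h : t • w ∈ K) : t ≤ radialFn K w :=
  le_csSup (ray_bddAbove hK hw) ⟨ht, h⟩

theorem mem_of_le_radialFn {K : Set (E n)} (hK : IsCompact K) (hc : Convex ℝ K)
    (h0 : (0 : E n) ∈ K) {w : E n} (hw : w ≠ 0) {t : ℝ} (ht : 0 ≤ t) (h : t ≤ radialFn K w) :
    t • w ∈ K := by
  rcases (radialFn_nonneg w (K := K)).eq_or_lt with h1 | h1
  · have : t = 0 := le_antisymm (h1 ▸ h) ht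
    rw [this, zero_smul]
    exact h0
  · have h2 := hc.smul_mem_of_zero_mem h0 (radialFn_mem hK h0 hw)
      (t := t / radialFn K w) ⟨by positivity, by rw [div_le_one h1]; exact h⟩
    rw [smul_smul, div_mul_cancel₀ _ h1.ne'] at h2
    exact h2

theorem radialFn_smul (K : Set (E n)) {a : ℝ} (ha : 0 < a) (w : E n) :
    radialFn (a • K) w = a * radialFn K w := by
  unfold radialFn
  have : {t : ℝ | 0 ≤ t ∧ t • w ∈ a • K} = a • {t : ℝ | 0 ≤ t ∧ t • w ∈ K} := by
    ext t
    rw [mem_smul_set_iff_inv_smul_mem₀ ha.ne']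
    simp only [mem_ofPred_eq, smul_eq_mul]
    rw [mem_smul_set_iff_inv_smul_mem₀ ha.ne', smul_smul]
    constructor
    · rintro ⟨h1, h2⟩
      exact ⟨by positivity, h2⟩
    · rintro ⟨h1, h2⟩
      refine ⟨?_, h2⟩
      have := mul_nonneg ha.le h1
      rwa [← mul_assoc, mul_inv_cancel₀ ha.ne', one_mul] at this
  rw [this, Real.sSup_smul_of_nonneg ha.le, smul_eq_mul]

theorem normals_smul (K : Set (E n)) {a : ℝ} (ha : 0 < a) (x : E n) :
    normals (a • K) (a • x) = normals K x := by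
  ext u
  simp only [normals, mem_ofPred_eq]
  constructor
  · intro h y hy
    have := h (a • y) (smul_mem_smul_set hy)
    rw [inner_smul_right, inner_smul_right] at this
    exact le_of_mul_le_mul_left this ha
  · rintro h _ ⟨y, hy, rfl⟩
    simp only [inner_smul_right]
    exact mul_le_mul_of_nonneg_left (h y hy) ha.le

theorem revGauss_smul (K : Set (E n)) {a : ℝ} (ha : 0 < a) (ω : Set (S n)) :
    revGauss (a • K) ω = revGauss K ω := by
  ext w
  simp only [revGauss, mem_ofPred_eq]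
  rw [radialFn_smul K ha, mul_smul, normals_smul K ha]

theorem dualCurv_smul (K : Set (E n)) {a : ℝ} (ha : 0 < a) (ω : Set (S n)) (q : ℝ) :
    dualCurv q (a • K) ω = ENNReal.ofReal (a ^ q) * dualCurv q K ω := by
  unfold dualCurv
  rw [revGauss_smul K ha, ← lintegral_const_mul' _ _ ENNReal.ofReal_ne_top]
  apply lintegral_congr
  intro w
  rw [radialFn_smul K ha, Real.mul_rpow ha.le (radialFn_nonneg _),
    ENNReal.ofReal_mul (Real.rpow_nonneg ha.le _)]

theorem supportFn_smul (K : Set (E n)) {a : ℝ} (ha : 0 < a) (w : E n) :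
    supportFn (a • K) w = a * supportFn K w := by
  unfold supportFn
  have : (fun x : E n => ⟪w, x⟫_ℝ) '' (a • K) = a • ((fun x : E n => ⟪w, x⟫_ℝ) '' K) := by
    ext t
    constructor
    · rintro ⟨_, ⟨y, hy, rfl⟩, rfl⟩
      exact ⟨⟪w, y⟫_ℝ, ⟨y, hy, rfl⟩, by simp [inner_smul_right]⟩
    · rintro ⟨_, ⟨y, hy, rfl⟩, rfl⟩
      exact ⟨a • y, smul_mem_smul_set hy, by simp [inner_smul_right]⟩
  rw [this, Real.sSup_smul_of_nonneg ha.le, smul_eq_mul]

theorem isBody_smul {K : Set (E n)} (hK : IsBody K) {a : ℝ} (ha : 0 < a) : IsBody (a • K) := by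
  obtain ⟨h1, h2, h3, h4⟩ := hK
  refine ⟨h1.smul a, h2.smul a, ?_, ?_⟩
  · rw [interior_smul₀ ha.ne']
    exact h3.smul_set
  · rw [← smul_zero a]
    exact smul_mem_smul_set h4

theorem le_supportFn {K : Set (E n)} (hK : IsCompact K) (w : E n) {x : E n} (hx : x ∈ K) :
    ⟪w, x⟫_ℝ ≤ supportFn K w := by
  refine le_csSup ?_ ⟨x, hx, rfl⟩
  exact (hK.image (by fun_prop)).bddAbove

end Pool.Agent.H223.DM
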