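import Pool.Agent.H223.DM.Normal
import Pool.Agent.H223.DM.Radial

/-!
# Parametrisation of the smooth part of the boundary of `K_θ` and of its normals
-/

set_option autoImplicit false

namespace Pool.Agent.H223.DM

open MeasureTheory Metric Set Filter Topology
open scoped ENNReal InnerProductSpace

/-- the `ℝ^4` part of a parameter -/
def av (v : V) : Fin 4 → ℝ := fun i => v (Sum.inl i)

/-- the parameter `μ` -/
def mv (v : V) : ℝ := v (Sum.inr 0)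

/-- the parameter `τ` -/
def tv (v : V) : ℝ := v (Sum.inr 1)

/-- `q(μ) = 1 + μ + μ²` -/
noncomputable def qf (m : ℝ) : ℝ := 1 + m + m ^ 2

/-- `P(τ) = 1 + θ κ(τ)^4` -/
noncomputable def Pf (θ t : ℝ) : ℝ := 1 + θ * kap t ^ 4

/-- `Z = P(τ) / q(μ)` -/
noncomputable def Zf (θ m t : ℝ) : ℝ := Pf θ t / qf m

/-- `r = √(μ Z)` -/
noncomputable def rf (θ m t : ℝ) : ℝ := Real.sqrt (m * Zf θ m t)

/-- `α = 2 κ (2 μ + 1) Z r` -/
noncomputable def af (θ m t : ℝ) : ℝ := 2 * kap t * (2 * m + 1) * Zf θ m t * rf θ m t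

/-- `κ Z (1 - μ²) - (8/5) θ τ²` -/
noncomputable def bf (θ m t : ℝ) : ℝ := kap t * Zf θ m t * (1 - m ^ 2) - 8 / 5 * θ * t ^ 2

/-- A map of the form `(a, b) ↦ (α(b) a, |a| β(b))`. -/
noncomputable def Fm (α β₁ β₂ : ℝ → ℝ → ℝ) (v : V) : V :=
  Sum.elim (fun i => α (mv v) (tv v) * v (Sum.inl i))
    ![nm (av v) * β₁ (mv v) (tv v), nm (av v) * β₂ (mv v) (tv v)]

/-- the position -/
noncomputable def posV (θ : ℝ) : V → V := Fm (rf θ) (Zf θ) (fun m t => θ * t * Zf θ m t)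

/-- the (rescaled) normal -/
noncomputable def norV (θ : ℝ) : V → V := Fm (af θ) (bf θ) (fun _ t => 8 / 5 * t)

/-- the parameter `(t a, μ, τ)` -/
def scl (t : ℝ) (v : V) : V := Sum.elim (fun i => t * v (Sum.inl i)) ![mv v, tv v]

theorem av_scl (t : ℝ) (v : V) : av (scl t v) = t • av v := rfl
theorem mv_scl (t : ℝ) (v : V) : mv (scl t v) = mv v := rfl
theorem tv_scl (t : ℝ) (v : V) : tv (scl t v) = tv v := rfl

theorem V_ext {v w : V} (h1 : av v = av w) (h2 : mv v = mv w) (h3 : tv v = tv w) : v = w := by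
  funext j
  rcases j with i | i
  · exact congrFun h1 i
  · fin_cases i
    · exact h2
    · exact h3

theorem Fm_scl (α β₁ β₂ : ℝ → ℝ → ℝ) {t : ℝ} (ht : 0 ≤ t) (v : V) :
    Fm α β₁ β₂ (scl t v) = t • Fm α β₁ β₂ v := by
  funext j
  unfold Fm
  rw [av_scl, mv_scl, tv_scl, nm_smul ht]
  rcases j with i | i
  · simp only [Sum.elim_inl, Pi.smul_apply, smul_eq_mul, scl]
    ring
  · fin_cases i
    · simp [mul_assoc]
    · simp [mul_assoc]

theorem T_smul (t : ℝ) (v : V) : T (t • v) = t • T v := by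
  ext k
  rw [T_apply, PiLp.smul_apply, T_apply]
  rfl

theorem xc_Fm (α β₁ β₂ : ℝ → ℝ → ℝ) (v : V) :
    xc (T (Fm α β₁ β₂ v)) = α (mv v) (tv v) • av v := by
  rw [xc_T]; rfl

theorem zc_Fm (α β₁ β₂ : ℝ → ℝ → ℝ) (v : V) :
    zc (T (Fm α β₁ β₂ v)) = nm (av v) * β₁ (mv v) (tv v) := by
  rw [zc_T]; rfl

theorem yc_Fm (α β₁ β₂ : ℝ → ℝ → ℝ) (v : V) :
    yc (T (Fm α β₁ β₂ v)) = nm (av v) * β₂ (mv v) (tv v) := by
  rw [yc_T]; rfl

/-- parameters on the boundary: `|a| = 1`, `μ > 0`, `|τ| < 1` -/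
def Bd (v : V) : Prop := nm (av v) = 1 ∧ 0 < mv v ∧ |tv v| < 1

theorem qf_pos {m : ℝ} (hm : 0 < m) : 0 < qf m := by unfold qf; positivity

theorem Pf_pos {θ t : ℝ} (hθ : 0 < θ) : 0 < Pf θ t := by unfold Pf; positivity

theorem Zf_pos {θ m t : ℝ} (hθ : 0 < θ) (hm : 0 < m) : 0 < Zf θ m t :=
  div_pos (Pf_pos hθ) (qf_pos hm)

theorem rf_pos {θ m t : ℝ} (hθ : 0 < θ) (hm : 0 < m) : 0 < rf θ m t :=
  Real.sqrt_pos.2 (mul_pos hm (Zf_pos hθ hm))

theorem rf_sq {θ m t : ℝ} (hθ : 0 < θ) (hm : 0 < m) : rf θ m t ^ 2 = m * Zf θ m t :=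
  Real.sq_sqrt (mul_pos hm (Zf_pos hθ hm)).le

theorem Zf_mul {θ m t : ℝ} (hm : 0 < m) : Zf θ m t * qf m = Pf θ t := by
  unfold Zf
  rw [div_mul_cancel₀ _ (qf_pos hm).ne']

section boundary

set_option linter.unusedSectionVars false

variable {θ : ℝ} (hθ : 0 < θ) {v : V} (hv : Bd v)
include hθ hv

theorem zc_pos_bd : zc (T (posV θ v)) = Zf θ (mv v) (tv v) := by
  unfold posV
  rw [zc_Fm, hv.1, one_mul]

theorem yc_pos_bd : yc (T (posV θ v)) = θ * tv v * Zf θ (mv v) (tv v) := by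
  unfold posV
  rw [yc_Fm, hv.1, one_mul]

theorem sc_pos_bd : sc (T (posV θ v)) = mv v * Zf θ (mv v) (tv v) := by
  unfold sc posV
  rw [xc_Fm, dot_smul_left, dot_smul_right, ← nm_sq, hv.1, ← rf_sq hθ hv.2.1]
  ring

theorem tc_pos_bd : tc θ (T (posV θ v)) = tv v := by
  unfold tc
  rw [zc_pos_bd hθ hv, yc_pos_bd hθ hv]
  have := (Zf_pos (t := tv v) hθ hv.2.1).ne'
  field_simp

theorem zc_pos_pos : 0 < zc (T (posV θ v)) := by
  rw [zc_pos_bd hθ hv]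
  exact Zf_pos hθ hv.2.1

theorem yc_lt_pos : |yc (T (posV θ v))| < θ * zc (T (posV θ v)) := by
  rw [zc_pos_bd hθ hv, yc_pos_bd hθ hv]
  have hZ := Zf_pos (t := tv v) hθ hv.2.1
  rw [abs_mul, abs_mul, abs_of_pos hθ, abs_of_pos hZ]
  have := hv.2.2
  have h1 : 0 < θ * Zf θ (mv v) (tv v) := by positivity
  nlinarith

theorem xc_pos_ne : xc (T (posV θ v)) ≠ 0 := by
  unfold posV
  rw [xc_Fm]
  apply smul_ne_zero (rf_pos hθ hv.2.1).ne'
  intro h
  have := hv.1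
  rw [h] at this
  simp [nm] at this

theorem G_pos_bd : G θ (T (posV θ v)) = 0 := by
  unfold G R
  have ht : yc (T (posV θ v)) / (θ * zc (T (posV θ v))) = tv v := tc_pos_bd hθ hv
  rw [ht, sc_pos_bd hθ hv, zc_pos_bd hθ hv]
  have h1 := Zf_mul (θ := θ) (t := tv v) hv.2.1
  unfold qf Pf at h1
  have e : (mv v * Zf θ (mv v) (tv v)) ^ 2 + Zf θ (mv v) (tv v) * (mv v * Zf θ (mv v) (tv v)) +
      Zf θ (mv v) (tv v) ^ 2 - Zf θ (mv v) (tv v) - θ * Zf θ (mv v) (tv v) * kap (tv v) ^ 4 =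
      Zf θ (mv v) (tv v) * (Zf θ (mv v) (tv v) * (1 + mv v + mv v ^ 2) -
        (1 + θ * kap (tv v) ^ 4)) := by ring
  rw [e, h1]
  ring

theorem nor_eq : T (norV θ v) = kap (tv v) • N θ (T (posV θ v)) := by
  have hk := (kap_pos hv.2.2).ne'
  apply ext_coord
  · rw [xc_smul, xc_N, sc_pos_bd hθ hv, zc_pos_bd hθ hv]
    unfold norV posV af
    rw [xc_Fm, xc_Fm, smul_smul, smul_smul]
    congr 1
    ring
  · rw [zc_smul, zc_N, sc_pos_bd hθ hv, zc_pos_bd hθ hv, tc_pos_bd hθ hv]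
    unfold norV bf
    rw [zc_Fm, hv.1, one_mul]
    have h1 := Zf_mul (θ := θ) (t := tv v) hv.2.1
    unfold qf Pf at h1
    field_simp
    linear_combination (-5 * kap (tv v)) * h1
  · rw [yc_smul, yc_N, tc_pos_bd hθ hv]
    unfold norV
    rw [yc_Fm, hv.1, one_mul]
    field_simp

end boundary

/-- The parameter of a smooth boundary point. -/
noncomputable def par (θ : ℝ) (P : E 6) : V :=
  Sum.elim (fun i => (nm (xc P))⁻¹ * xc P i) ![sc P / zc P, tc θ P]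

theorem par_bd {θ : ℝ} (hθ : 0 < θ) {P : E 6} (hz : 0 < zc P) (hy : |yc P| < θ * zc P)
    (hx : xc P ≠ 0) : Bd (par θ P) := by
  refine ⟨?_, ?_, ?_⟩
  · have : av (par θ P) = (nm (xc P))⁻¹ • xc P := rfl
    rw [this, nm_smul (inv_nonneg.2 (nm_nonneg _)), inv_mul_cancel₀ (nm_pos hx).ne']
  · change 0 < sc P / zc P
    exact div_pos (dot_self_pos hx) hz
  · exact abs_div_lt (mul_pos hθ hz) hy

theorem pos_par {θ : ℝ} (hθ : 0 < θ) {P : E 6} (hz : 0 < zc P) (hy : |yc P| < θ * zc P)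
    (hx : xc P ≠ 0) (hG : G θ P = 0) : T (posV θ (par θ P)) = P := by
  have hb := par_bd hθ hz hy hx
  have hm : mv (par θ P) = sc P / zc P := rfl
  have ht : tv (par θ P) = tc θ P := rfl
  have hZ : Zf θ (mv (par θ P)) (tv (par θ P)) = zc P := by
    unfold Zf
    rw [div_eq_iff (qf_pos hb.2.1).ne', hm, ht]
    unfold G R at hG
    change sc P ^ 2 + zc P * sc P + zc P ^ 2 - zc P - θ * zc P * kap (tc θ P) ^ 4 = 0 at hG
    unfold Pf qf
    have hz' := hz.ne'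
    field_simp
    nlinarith [hG]
  have hr : rf θ (mv (par θ P)) (tv (par θ P)) = nm (xc P) := by
    unfold rf
    rw [hZ, hm, div_mul_cancel₀ _ hz.ne']
    rfl
  apply ext_coord
  · unfold posV
    rw [xc_Fm, hr]
    have : av (par θ P) = (nm (xc P))⁻¹ • xc P := rfl
    rw [this, smul_smul, mul_inv_cancel₀ (nm_pos hx).ne', one_smul]
  · rw [zc_pos_bd hθ hb, hZ]
  · rw [yc_pos_bd hθ hb, hZ, ht]
    unfold tc
    have hz' := hz.ne'
    have hθ' := hθ.ne'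
    field_simp

end Pool.Agent.H223.DM
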