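import Pool.Agent.H223.DM.Coord

/-!
# The profile `κ(τ) = (1 - τ²)^{1/5}` and `R(z, y) = θ z κ(y / (θ z))^4`
-/

set_option autoImplicit false

namespace Pool.Agent.H223.DM

open MeasureTheory Metric Set
open scoped ENNReal InnerProductSpace

/-- `κ(τ) = (1 - τ²)^{1/5}`. -/
noncomputable def kap (τ : ℝ) : ℝ := (1 - τ ^ 2) ^ (1 / 5 : ℝ)

theorem one_sub_sq_nonneg {τ : ℝ} (h : |τ| ≤ 1) : 0 ≤ 1 - τ ^ 2 := by
  have := (sq_le_one_iff_abs_le_one τ).2 h
  linarith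

theorem one_sub_sq_pos {τ : ℝ} (h : |τ| < 1) : 0 < 1 - τ ^ 2 := by
  have := (sq_lt_one_iff_abs_lt_one τ).2 h
  linarith

theorem kap_pow {τ : ℝ} (h : |τ| ≤ 1) : kap τ ^ 5 = 1 - τ ^ 2 := by
  unfold kap
  rw [← Real.rpow_natCast, ← Real.rpow_mul (one_sub_sq_nonneg h)]
  norm_num

theorem kap_nonneg {τ : ℝ} (h : |τ| ≤ 1) : 0 ≤ kap τ := Real.rpow_nonneg (one_sub_sq_nonneg h) _

theorem kap_pos {τ : ℝ} (h : |τ| < 1) : 0 < kap τ := Real.rpow_pos_of_pos (one_sub_sq_pos h) _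

theorem kap_le_one {τ : ℝ} (h : |τ| ≤ 1) : kap τ ≤ 1 :=
  Real.rpow_le_one (one_sub_sq_nonneg h) (by nlinarith [sq_nonneg τ]) (by norm_num)

theorem kap_zero : kap 0 = 1 := by simp [kap]

theorem kap_neg (τ : ℝ) : kap (-τ) = kap τ := by simp [kap]

theorem continuous_kap : Continuous kap := by
  unfold kap
  refine Continuous.rpow_const (by fun_prop) fun x => Or.inr (by norm_num)

theorem kap_four {τ : ℝ} (h : |τ| ≤ 1) : kap τ ^ 4 = (1 - τ ^ 2) ^ (4 / 5 : ℝ) := by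
  unfold kap
  rw [← Real.rpow_natCast, ← Real.rpow_mul (one_sub_sq_nonneg h)]
  norm_num

theorem hasDerivAt_kap {τ : ℝ} (h : |τ| < 1) : HasDerivAt kap (-(2 / 5) * τ / kap τ ^ 4) τ := by
  have h1 : HasDerivAt (fun x : ℝ => 1 - x ^ 2) (-(2 * τ)) τ := by
    have := ((hasDerivAt_id τ).pow 2).const_sub 1
    simpa using this
  have h2 := h1.rpow_const (p := (1 / 5 : ℝ)) (Or.inl (one_sub_sq_pos h).ne')
  have e : -(2 * τ) * (1 / 5 : ℝ) * (1 - τ ^ 2) ^ ((1 / 5 : ℝ) - 1) =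
      -(2 / 5) * τ / kap τ ^ 4 := by
    have hu := one_sub_sq_pos h
    have hk : (1 - τ ^ 2) ^ ((1 / 5 : ℝ) - 1) = 1 / kap τ ^ 4 := by
      rw [eq_div_iff (pow_ne_zero 4 (kap_pos h).ne'), kap_four h.le, ← Real.rpow_add hu]
      norm_num
    rw [hk]
    ring
  rw [e] at h2
  exact h2

/-- the elementary inequality behind the concavity of `t ↦ t^{4/5}` -/
theorem young5 {k l : ℝ} (hk : 0 < k) (hl : 0 ≤ l) :
    l ^ 4 ≤ k ^ 4 + (4 / 5) * (l ^ 5 - k ^ 5) / k := by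
  have h : 0 ≤ (l - k) ^ 2 * (4 * l ^ 3 + 3 * k * l ^ 2 + 2 * k ^ 2 * l + k ^ 3) := by positivity
  have h2 : 0 ≤ 4 * l ^ 5 - 5 * k * l ^ 4 + k ^ 5 := by
    have e : (l - k) ^ 2 * (4 * l ^ 3 + 3 * k * l ^ 2 + 2 * k ^ 2 * l + k ^ 3) =
      4 * l ^ 5 - 5 * k * l ^ 4 + k ^ 5 := by ring
    linarith
  have e : k ^ 4 + (4 / 5) * (l ^ 5 - k ^ 5) / k - l ^ 4 =
      (4 * l ^ 5 - 5 * k * l ^ 4 + k ^ 5) / (5 * k) := by
    field_simp
    ring
  have : 0 ≤ (4 * l ^ 5 - 5 * k * l ^ 4 + k ^ 5) / (5 * k) := by positivity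
  linarith

theorem psi_tangent {τ σ : ℝ} (h : |τ| < 1) (h' : |σ| ≤ 1) :
    kap σ ^ 4 ≤ kap τ ^ 4 - (8 / 5) * τ / kap τ * (σ - τ) - (4 / 5) / kap τ * (σ - τ) ^ 2 := by
  have h1 := young5 (kap_pos h) (kap_nonneg h')
  rw [kap_pow h.le, kap_pow h'] at h1
  refine h1.trans (le_of_eq ?_)
  have := (kap_pos h).ne'
  field_simp
  ring

theorem psi_concave {τ σ a b : ℝ} (h : |τ| ≤ 1) (h' : |σ| ≤ 1) (ha : 0 ≤ a) (hb : 0 ≤ b)
    (hab : a + b = 1) : a * kap τ ^ 4 + b * kap σ ^ 4 ≤ kap (a * τ + b * σ) ^ 4 := by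
  have h3 : |a * τ + b * σ| ≤ 1 := by
    calc |a * τ + b * σ| ≤ |a * τ| + |b * σ| := abs_add_le _ _
      _ = a * |τ| + b * |σ| := by rw [abs_mul, abs_mul, abs_of_nonneg ha, abs_of_nonneg hb]
      _ ≤ a * 1 + b * 1 := by gcongr
      _ = 1 := by linarith
  rw [kap_four h, kap_four h', kap_four h3]
  have hc := Real.concaveOn_rpow (p := (4 / 5 : ℝ)) (by norm_num) (by norm_num)
  have h4 := hc.2 (x := 1 - τ ^ 2) (one_sub_sq_nonneg h) (y := 1 - σ ^ 2) (one_sub_sq_nonneg h')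
    ha hb hab
  simp only [smul_eq_mul] at h4
  refine h4.trans ?_
  apply Real.rpow_le_rpow
  · have := one_sub_sq_nonneg h
    have := one_sub_sq_nonneg h'
    positivity
  · have hb' : b = 1 - a := by linarith
    subst hb'
    nlinarith [mul_nonneg (mul_nonneg ha hb) (sq_nonneg (τ - σ))]
  · norm_num

/-- `R(z, y) = θ z κ(y / (θ z))^4`. -/
noncomputable def R (θ z y : ℝ) : ℝ := θ * z * kap (y / (θ * z)) ^ 4

theorem abs_div_le {θ z y : ℝ} (hz : 0 < θ * z) (hy : |y| ≤ θ * z) : |y / (θ * z)| ≤ 1 := by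
  rw [abs_div, abs_of_pos hz, div_le_one hz]
  exact hy

theorem abs_div_lt {θ z y : ℝ} (hz : 0 < θ * z) (hy : |y| < θ * z) : |y / (θ * z)| < 1 := by
  rw [abs_div, abs_of_pos hz, div_lt_one hz]
  exact hy

theorem R_nonneg {θ z y : ℝ} (hθ : 0 ≤ θ) (hz : 0 ≤ z) : 0 ≤ R θ z y := by
  unfold R
  have : 0 ≤ kap (y / (θ * z)) ^ 4 := by positivity
  positivity

theorem R_le {θ z y : ℝ} (hθ : 0 < θ) (hz : 0 ≤ z) (hy : |y| ≤ θ * z) : R θ z y ≤ θ * z := by
  unfold R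
  rcases hz.eq_or_lt with h | h
  · rw [← h]; simp
  · have h1 : 0 < θ * z := mul_pos hθ h
    have h2 := kap_le_one (abs_div_le h1 hy)
    have h3 := kap_nonneg (abs_div_le h1 hy)
    have : kap (y / (θ * z)) ^ 4 ≤ 1 := pow_le_one₀ h3 h2
    nlinarith

theorem R_smul {θ z y t : ℝ} (ht : 0 ≤ t) : R θ (t * z) (t * y) = t * R θ z y := by
  unfold R
  rcases ht.eq_or_lt with h | h
  · rw [← h]; simp
  · have : t * y / (θ * (t * z)) = y / (θ * z) := by
      rw [show θ * (t * z) = t * (θ * z) by ring, mul_div_mul_left _ _ h.ne']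
    rw [this]
    ring

theorem R_superadd {θ z y z' y' : ℝ} (hθ : 0 < θ) (hz : 0 ≤ z) (hz' : 0 ≤ z')
    (hy : |y| ≤ θ * z) (hy' : |y'| ≤ θ * z') : R θ z y + R θ z' y' ≤ R θ (z + z') (y + y') := by
  rcases hz.eq_or_lt with h | h
  · have : y = 0 := by
      rw [← h, mul_zero] at hy
      exact abs_nonpos_iff.1 hy
    subst h
    subst this
    simp [R]
  rcases hz'.eq_or_lt with h' | h'
  · have : y' = 0 := by
      rw [← h', mul_zero] at hy'
      exact abs_nonpos_iff.1 hy'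
    subst h'
    subst this
    simp [R]
  have h1 : 0 < θ * z := mul_pos hθ h
  have h2 : 0 < θ * z' := mul_pos hθ h'
  have h3 : 0 < z + z' := by positivity
  have hc := psi_concave (abs_div_le h1 hy) (abs_div_le h2 hy') (a := z / (z + z'))
    (b := z' / (z + z')) (by positivity) (by positivity) (by field_simp)
  have e : z / (z + z') * (y / (θ * z)) + z' / (z + z') * (y' / (θ * z')) =
      (y + y') / (θ * (z + z')) := by
    field_simp
  rw [e] at hc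
  unfold R
  calc θ * z * kap (y / (θ * z)) ^ 4 + θ * z' * kap (y' / (θ * z')) ^ 4 =
      θ * (z + z') * (z / (z + z') * kap (y / (θ * z)) ^ 4 +
        z' / (z + z') * kap (y' / (θ * z')) ^ 4) := by
        field_simp
    _ ≤ _ := by gcongr

/-- the tangent inequality for `R` -/
theorem R_tangent {θ z y z' y' : ℝ} (hθ : 0 < θ) (hz : 0 < z) (hy : |y| < θ * z) (hz' : 0 ≤ z')
    (hy' : |y'| ≤ θ * z') :
    R θ z' y' + (4 / 5) / kap (y / (θ * z)) * (θ * z') * (y' / (θ * z') - y / (θ * z)) ^ 2 ≤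
      θ * (kap (y / (θ * z)) ^ 4 + (8 / 5) * (y / (θ * z)) ^ 2 / kap (y / (θ * z))) * z' -
        (8 / 5) * (y / (θ * z)) / kap (y / (θ * z)) * y' := by
  rcases hz'.eq_or_lt with h | h
  · have : y' = 0 := by
      rw [← h, mul_zero] at hy'
      exact abs_nonpos_iff.1 hy'
    subst h
    subst this
    simp [R]
  · have h1 : 0 < θ * z := mul_pos hθ hz
    have h2 : 0 < θ * z' := mul_pos hθ h
    have ht := abs_div_lt h1 hy
    have hs := abs_div_le h2 hy'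
    set τ := y / (θ * z) with hτ
    set σ := y' / (θ * z') with hσ
    have h3 := psi_tangent ht hs
    have h4 := mul_le_mul_of_nonneg_left h3 h2.le
    have e : y' = θ * z' * σ := by
      rw [hσ]; field_simp
    unfold R
    rw [← hσ, e]
    have hk := (kap_pos ht).ne'
    have h5 : θ * z' * (kap τ ^ 4 - (8 / 5) * τ / kap τ * (σ - τ) - (4 / 5) / kap τ * (σ - τ) ^ 2)
        = θ * (kap τ ^ 4 + (8 / 5) * τ ^ 2 / kap τ) * z' - (8 / 5) * τ / kap τ * (θ * z' * σ)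
          - (4 / 5) / kap τ * (θ * z') * (σ - τ) ^ 2 := by
      field_simp
      ring
    rw [h5] at h4
    linarith

end Pool.Agent.H223.DM
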